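import Mathlib

set_option autoImplicit false

/-! Abel summation of the Fourier series of the square wave against a measure. -/

open Complex MeasureTheory Set Filter Topology

namespace Pool.Agent.N30.OD

lemma re_arctan {e : ℂ} (he : ‖e‖ = 1) {r : ℝ} (hr0 : 0 ≤ r) (hr : r < 1) :
    (Complex.arctan (r * e)).re = 1 / 2 * Real.arctan (2 * r * e.re / (1 - r ^ 2)) := by
  have hr2 : 0 < 1 - r ^ 2 := by nlinarith
  obtain ⟨y, hy⟩ : ∃ y, y = 2 * r * e.re / (1 - r ^ 2) := ⟨_, rfl⟩
  have hn : e.re ^ 2 + e.im ^ 2 = 1 := by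
    have := Complex.sq_norm e
    rw [he, Complex.normSq_apply] at this
    nlinarith
  obtain ⟨D, hD⟩ : ∃ D, D = (1 + r * e.im) ^ 2 + (r * e.re) ^ 2 := ⟨_, rfl⟩
  have him : |e.im| ≤ 1 := by rw [← he]; exact Complex.abs_im_le_norm e
  have h1 : 0 < 1 + r * e.im := by
    have h2 := (abs_le.1 him).1
    nlinarith
  have hD0 : 0 < D := by rw [hD]; positivity
  have hw : (1 + (r : ℂ) * e * I) / (1 - (r : ℂ) * e * I) = (((1 - r ^ 2) / D : ℝ) : ℂ) * (1 + (y : ℂ) * I) := by
    have hden : (1 - (r : ℂ) * e * I) ≠ 0 := by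
      intro h
      have := congrArg Complex.re h
      simp at this
      linarith
    rw [div_eq_iff hden]
    obtain ⟨a, ha⟩ : ∃ a, a = (1 - r ^ 2) / D := ⟨_, rfl⟩
    have ha1 : a * D = 1 - r ^ 2 := by rw [ha]; field_simp
    have ha2 : a * y * D = 2 * r * e.re := by
      have : a * y * D = (a * D) * y := by ring
      rw [this, ha1, hy]
      field_simp
    rw [← ha]
    apply Complex.ext
    · simp only [Complex.add_re, Complex.sub_re, Complex.mul_re, Complex.mul_im, Complex.add_im, Complex.sub_im, Complex.ofReal_re,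
        Complex.ofReal_im, Complex.I_re, Complex.I_im, Complex.one_re, Complex.one_im]
      apply mul_right_cancel₀ hD0.ne'
      have h5 : (1 - r * e.im) * D = (1 - r ^ 2) * (1 + r * e.im) + 2 * r * e.re * (r * e.re) := by
        rw [hD]
        linear_combination (-r ^ 2 - r ^ 3 * e.im) * hn
      linear_combination h5 - (1 + r * e.im) * ha1 - (r * e.re) * ha2
    · simp only [Complex.add_re, Complex.sub_re, Complex.mul_re, Complex.mul_im, Complex.add_im, Complex.sub_im, Complex.ofReal_re,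
        Complex.ofReal_im, Complex.I_re, Complex.I_im, Complex.one_re, Complex.one_im]
      apply mul_right_cancel₀ hD0.ne'
      have h5 : (r * e.re) * D = 2 * r * e.re * (1 + r * e.im) - (1 - r ^ 2) * (r * e.re) := by
        rw [hD]
        linear_combination (r ^ 3 * e.re) * hn
      linear_combination h5 - (1 + r * e.im) * ha2 + (r * e.re) * ha1
  unfold Complex.arctan
  rw [hw, ← hy]
  have e1 : (-I / 2 * Complex.log ((((1 - r ^ 2) / D : ℝ) : ℂ) * (1 + (y : ℂ) * I))).re =
      1 / 2 * Complex.arg ((((1 - r ^ 2) / D : ℝ) : ℂ) * (1 + (y : ℂ) * I)) := by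
    rw [Complex.mul_re]
    simp [Complex.log_im]
    ring
  rw [e1]
  congr 1
  obtain ⟨s, hs⟩ : ∃ s, s = √(1 + y ^ 2) := ⟨_, rfl⟩
  have hs0 : 0 < s := by rw [hs]; positivity
  have e2 : (1 + (y : ℂ) * I) = (s : ℂ) * (Complex.cos ((Real.arctan y : ℝ) : ℂ) + Complex.sin ((Real.arctan y : ℝ) : ℂ) * I) := by
    rw [← Complex.ofReal_cos, ← Complex.ofReal_sin, Real.cos_arctan, Real.sin_arctan, ← hs]
    have : (s : ℂ) ≠ 0 := by exact_mod_cast hs0.ne'
    push_cast
    field_simp
  rw [e2, ← mul_assoc, ← Complex.ofReal_mul]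
  apply Complex.arg_mul_cos_add_sin_mul_I
  · positivity
  · constructor
    · have := Real.neg_pi_div_two_lt_arctan y
      have := Real.pi_pos
      linarith
    · have := Real.arctan_lt_pi_div_two y
      have := Real.pi_pos
      linarith

lemma arctan_lim (x : ℝ) : Tendsto (fun r : ℝ => 1 / 2 * Real.arctan (2 * r * x / (1 - r ^ 2))) (𝓝[<] 1)
    (𝓝 (Real.pi / 4 * Real.sign x)) := by
  have h0 : Tendsto (fun r : ℝ => (1 - r ^ 2)⁻¹) (𝓝[<] 1) atTop := by
    apply Tendsto.inv_tendsto_nhdsGT_zero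
    rw [tendsto_nhdsWithin_iff]
    constructor
    · have : Tendsto (fun r : ℝ => 1 - r ^ 2) (𝓝 1) (𝓝 (1 - 1 ^ 2)) := by
        apply Continuous.tendsto
        fun_prop
      norm_num at this
      exact this.mono_left nhdsWithin_le_nhds
    · filter_upwards [self_mem_nhdsWithin, nhdsWithin_le_nhds (Ioi_mem_nhds (by norm_num : (0:ℝ) < 1))] with r hr hr2
      rw [mem_Iio] at hr
      rw [mem_Ioi] at hr2 ⊢
      nlinarith
  have h1 : Tendsto (fun r : ℝ => 2 * r * x) (𝓝[<] 1) (𝓝 (2 * x)) := by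
    have : Tendsto (fun r : ℝ => 2 * r * x) (𝓝 1) (𝓝 (2 * 1 * x)) := by
      apply Continuous.tendsto
      fun_prop
    norm_num at this
    exact this.mono_left nhdsWithin_le_nhds
  rcases lt_trichotomy x 0 with h | h | h
  · have h2 : Tendsto (fun r : ℝ => 2 * r * x / (1 - r ^ 2)) (𝓝[<] 1) atBot := by
      simp only [div_eq_mul_inv]
      exact Tendsto.neg_mul_atTop (by linarith) h1 h0
    have h3 := (Real.tendsto_arctan_atBot.mono_right nhdsWithin_le_nhds).comp h2
    have h4 := h3.const_mul (1 / 2)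
    rw [Real.sign_of_neg h]
    have e : Real.pi / 4 * -1 = 1 / 2 * -(Real.pi / 2) := by ring
    rw [e]
    exact h4
  · subst h
    simp
  · have h2 : Tendsto (fun r : ℝ => 2 * r * x / (1 - r ^ 2)) (𝓝[<] 1) atTop := by
      simp only [div_eq_mul_inv]
      exact Tendsto.pos_mul_atTop (by linarith) h1 h0
    have h3 := (Real.tendsto_arctan_atTop.mono_right nhdsWithin_le_nhds).comp h2
    have h4 := h3.const_mul (1 / 2)
    rw [Real.sign_of_pos h]
    have e : Real.pi / 4 * 1 = 1 / 2 * (Real.pi / 2) := by ring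
    rw [e]
    exact h4

variable {μ : Measure ℝ} {W : ℝ → ℝ} {e : ℝ → ℂ}

lemma abel_series (hW : Integrable W μ) (he : Measurable e) (hWe : ∀ t, W t = 0 ∨ ‖e t‖ = 1) {r : ℝ} (hr0 : 0 ≤ r) (hr : r < 1) :
    HasSum (fun j : ℕ => (-1) ^ j * r ^ (2 * j + 1) / (2 * j + 1) * (∫ t, ((W t : ℝ) : ℂ) * e t ^ (2 * j + 1) ∂μ).re)
      (∫ t, W t * (1 / 2 * Real.arctan (2 * r * (e t).re / (1 - r ^ 2))) ∂μ) := by
  obtain ⟨F, hF⟩ : ∃ F : ℕ → ℝ → ℂ, F = fun j t => ((W t : ℝ) : ℂ) * ((-1) ^ j * ((r : ℂ) * e t) ^ (2 * j + 1) / ((2 * j + 1 : ℕ) : ℂ)) :=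
    ⟨_, rfl⟩
  have hFm : ∀ j, AEStronglyMeasurable (F j) μ := by
    intro j
    rw [hF]
    have h1 : AEStronglyMeasurable (fun t => ((W t : ℝ) : ℂ)) μ := hW.ofReal.aestronglyMeasurable
    have h2 : Measurable (fun t => ((-1 : ℂ) ^ j * ((r : ℂ) * e t) ^ (2 * j + 1) / ((2 * j + 1 : ℕ) : ℂ))) := by fun_prop
    exact h1.mul h2.aestronglyMeasurable
  have hFb : ∀ j t, ‖F j t‖ ≤ r ^ (2 * j + 1) * |W t| := by
    intro j t
    rw [hF]
    simp only
    rcases hWe t with h | h
    · rw [h]; simp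
    · rw [norm_mul, norm_div, norm_mul, norm_pow, norm_pow, norm_mul, h, Complex.norm_real, Complex.norm_real, Real.norm_eq_abs,
        Real.norm_of_nonneg hr0, norm_neg, norm_one, one_pow, one_mul, mul_one, Complex.norm_natCast, mul_comm]
      apply mul_le_mul_of_nonneg_right _ (abs_nonneg _)
      apply div_le_self (by positivity)
      push_cast
      have : (0:ℝ) ≤ j := Nat.cast_nonneg j
      linarith
  have hFi : ∀ j, Integrable (F j) μ := by
    intro j
    refine Integrable.mono' (hW.abs.const_mul (r ^ (2 * j + 1))) (hFm j) ?_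
    exact Eventually.of_forall fun t => hFb j t
  have hsum : Summable fun j : ℕ => ∫ t, ‖F j t‖ ∂μ := by
    have hg : Summable fun j : ℕ => r ^ (2 * j + 1) * ∫ t, |W t| ∂μ := by
      apply Summable.mul_right
      have h1 : ∀ j : ℕ, r ^ (2 * j + 1) = r * (r ^ 2) ^ j := by
        intro j
        rw [← pow_mul]; ring
      simp only [h1]
      apply Summable.mul_left
      apply summable_geometric_of_lt_one (by positivity)
      nlinarith
    refine Summable.of_nonneg_of_le (fun j => integral_nonneg fun t => norm_nonneg _) (fun j => ?_) hg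
    rw [← integral_const_mul]
    exact integral_mono (hFi j).norm (hW.abs.const_mul _) (fun t => hFb j t)
  have h1 := hasSum_integral_of_summable_integral_norm hFi hsum
  have h2 := Complex.hasSum_re h1
  have e1 : ∀ j, (∫ t, F j t ∂μ).re = (-1) ^ j * r ^ (2 * j + 1) / (2 * j + 1) * (∫ t, ((W t : ℝ) : ℂ) * e t ^ (2 * j + 1) ∂μ).re := by
    intro j
    have e2 : ∫ t, F j t ∂μ = (((-1) ^ j * r ^ (2 * j + 1) / (2 * j + 1) : ℝ) : ℂ) * ∫ t, ((W t : ℝ) : ℂ) * e t ^ (2 * j + 1) ∂μ := by
      rw [← integral_const_mul, hF]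
      apply integral_congr_ae
      refine Eventually.of_forall fun t => ?_
      simp only
      push_cast
      rw [mul_pow]
      ring
    rw [e2, Complex.re_ofReal_mul]
  simp only [e1] at h2
  have e3 : (∫ t, ∑' j, F j t ∂μ).re = ∫ t, W t * (1 / 2 * Real.arctan (2 * r * (e t).re / (1 - r ^ 2))) ∂μ := by
    have e4 : ∀ t, ∑' j, F j t = ((W t : ℝ) : ℂ) * Complex.arctan ((if W t = 0 then 0 else (r : ℂ) * e t)) := by
      intro t
      by_cases hw : W t = 0
      · rw [hF]
        simp [hw]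
      · have hn : ‖e t‖ = 1 := (hWe t).resolve_left hw
        have hre : ‖(r : ℂ) * e t‖ < 1 := by
          rw [norm_mul, hn, Complex.norm_real, Real.norm_of_nonneg hr0, mul_one]; exact hr
        rw [if_neg hw]
        have := (Complex.hasSum_arctan hre).mul_left ((W t : ℝ) : ℂ)
        rw [hF]
        exact this.tsum_eq
    have hint : Integrable (fun t => ∑' j, F j t) μ := by
      have hm : AEStronglyMeasurable (fun t => ∑' j, F j t) μ := by
        have : (fun t => ∑' j, F j t) = fun t => ((W t : ℝ) : ℂ) * (-I / 2 * Complex.log ((1 + (if W t = 0 then 0 else (r : ℂ) * e t) * I) /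
            (1 - (if W t = 0 then 0 else (r : ℂ) * e t) * I))) := by
          funext t
          rw [e4 t]
          rfl
        have h5 : (fun t => ∑' j, F j t) = fun t => ((W t : ℝ) : ℂ) * (-I / 2 * Complex.log ((1 + ((r : ℂ) * e t) * I) /
            (1 - ((r : ℂ) * e t) * I))) := by
          rw [this]
          funext t
          by_cases hw : W t = 0
          · simp [hw]
          · simp [hw]
        rw [h5]
        have h6 : Measurable (fun t => (-I / 2 * Complex.log ((1 + ((r : ℂ) * e t) * I) / (1 - ((r : ℂ) * e t) * I)))) := by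
          apply Measurable.const_mul
          apply Complex.measurable_log.comp
          fun_prop
        exact hW.ofReal.aestronglyMeasurable.mul h6.aestronglyMeasurable
      obtain ⟨S, hS⟩ : ∃ S, S = ∑' j : ℕ, r ^ (2 * j + 1) := ⟨_, rfl⟩
      have hs : Summable fun j : ℕ => r ^ (2 * j + 1) := by
        have h1 : ∀ j : ℕ, r ^ (2 * j + 1) = r * (r ^ 2) ^ j := by
          intro j
          rw [← pow_mul]; ring
        simp only [h1]
        apply Summable.mul_left
        apply summable_geometric_of_lt_one (by positivity)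
        nlinarith
      refine Integrable.mono' (hW.abs.const_mul S) hm ?_
      refine Eventually.of_forall fun t => ?_
      have h7 : HasSum (fun j : ℕ => r ^ (2 * j + 1) * |W t|) (S * |W t|) := by
        rw [hS]; exact hs.hasSum.mul_right _
      exact tsum_of_norm_bounded h7 (fun j => hFb j t)
    rw [← RCLike.re_eq_complex_re, ← integral_re hint]
    apply integral_congr_ae
    refine Eventually.of_forall fun t => ?_
    simp only [RCLike.re_eq_complex_re]
    rw [e4 t, Complex.re_ofReal_mul]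
    by_cases hw : W t = 0
    · rw [hw]; simp
    · rw [if_neg hw, re_arctan ((hWe t).resolve_left hw) hr0 hr]
  rw [e3] at h2
  exact h2

/-- the constant -/
noncomputable def Sq : ℝ := ∑' j : ℕ, 1 / ((j : ℝ) + 1) ^ 2

lemma sq_summable : Summable fun j : ℕ => 1 / ((j : ℝ) + 1) ^ 2 := by
  have := (summable_nat_add_iff 1).2 (Real.summable_one_div_nat_pow.2 (by norm_num : 1 < 2))
  simpa using this

lemma Sq_nonneg : 0 ≤ Sq := tsum_nonneg fun j => by positivity

/-- the square wave against a measure -/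
theorem square (hW : Integrable W μ) (he : Measurable e) (hWe : ∀ t, W t = 0 ∨ ‖e t‖ = 1) (J : ℕ) {η : ℝ} (hη : 0 ≤ η)
    (hc : ∀ j : ℕ, J ≤ j → ‖∫ t, ((W t : ℝ) : ℂ) * e t ^ (2 * j + 1) ∂μ‖ ≤ η / (j + 1)) :
    |Real.pi / 4 * (∫ t, W t * Real.sign (e t).re ∂μ) -
      ∑ j ∈ Finset.range J, (-1) ^ j / (2 * j + 1) * (∫ t, ((W t : ℝ) : ℂ) * e t ^ (2 * j + 1) ∂μ).re| ≤ η * Sq := by
  obtain ⟨c, hcd⟩ : ∃ c : ℕ → ℝ, c = fun j => (∫ t, ((W t : ℝ) : ℂ) * e t ^ (2 * j + 1) ∂μ).re := ⟨_, rfl⟩
  have hc2 : ∀ j : ℕ, J ≤ j → |c j| ≤ η / (j + 1) := by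
    intro j hj
    rw [hcd]
    exact (Complex.abs_re_le_norm _).trans (hc j hj)
  -- for `r < 1`
  have h1 : ∀ r : ℝ, 0 ≤ r → r < 1 → |(∫ t, W t * (1 / 2 * Real.arctan (2 * r * (e t).re / (1 - r ^ 2))) ∂μ) -
      ∑ j ∈ Finset.range J, (-1) ^ j * r ^ (2 * j + 1) / (2 * j + 1) * c j| ≤ η * Sq := by
    intro r hr0 hr
    have h2 := abel_series hW he hWe hr0 hr
    have h3 : HasSum (fun j : ℕ => (-1) ^ j * r ^ (2 * j + 1) / (2 * j + 1) * c j)
        (∫ t, W t * (1 / 2 * Real.arctan (2 * r * (e t).re / (1 - r ^ 2))) ∂μ) := by rw [hcd]; exact h2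
    have h4 := h3.summable.sum_add_tsum_nat_add J
    rw [h3.tsum_eq] at h4
    rw [← h4, add_sub_cancel_left, ← Real.norm_eq_abs]
    have h5 : HasSum (fun j : ℕ => η * (1 / ((j : ℝ) + 1) ^ 2)) (η * Sq) := sq_summable.hasSum.mul_left η
    apply tsum_of_norm_bounded h5
    intro j
    have h6 := hc2 (j + J) (by omega)
    rw [Real.norm_eq_abs, abs_mul, abs_div, abs_mul, abs_pow, abs_neg, abs_one, one_pow, one_mul, abs_of_nonneg (by positivity : 0 ≤ r ^ (2 * (j + J) + 1))]
    have h7 : r ^ (2 * (j + J) + 1) ≤ 1 := pow_le_one₀ hr0 hr.le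
    have hj0 : (0 : ℝ) ≤ j := Nat.cast_nonneg j
    have hJ0 : (0 : ℝ) ≤ J := Nat.cast_nonneg J
    have h8 : r ^ (2 * (j + J) + 1) / |2 * ((j + J : ℕ) : ℝ) + 1| ≤ 1 / ((j : ℝ) + 1) := by
      rw [abs_of_nonneg (by positivity), div_le_div_iff₀ (by positivity) (by positivity)]
      push_cast
      nlinarith
    have h9 : |c (j + J)| ≤ η * (1 / ((j : ℝ) + 1)) := by
      refine h6.trans ?_
      rw [div_eq_mul_one_div]
      apply mul_le_mul_of_nonneg_left _ hη
      apply one_div_le_one_div_of_le (by positivity)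
      push_cast
      linarith
    calc _ ≤ 1 / ((j : ℝ) + 1) * (η * (1 / ((j : ℝ) + 1))) := mul_le_mul h8 h9 (abs_nonneg _) (by positivity)
      _ = _ := by field_simp
  -- limit
  have hlim : Tendsto (fun r : ℝ => (∫ t, W t * (1 / 2 * Real.arctan (2 * r * (e t).re / (1 - r ^ 2))) ∂μ)) (𝓝[<] 1)
      (𝓝 (∫ t, W t * (Real.pi / 4 * Real.sign (e t).re) ∂μ)) := by
    apply tendsto_integral_filter_of_dominated_convergence (fun t => |W t| * Real.pi)
    · refine Eventually.of_forall fun r => ?_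
      have h2 : Measurable (fun t => (1 / 2 * Real.arctan (2 * r * (e t).re / (1 - r ^ 2)))) := by
        apply Measurable.const_mul
        apply Real.continuous_arctan.measurable.comp
        fun_prop
      exact hW.aestronglyMeasurable.mul h2.aestronglyMeasurable
    · refine Eventually.of_forall fun r => Eventually.of_forall fun t => ?_
      rw [norm_mul, Real.norm_eq_abs, Real.norm_eq_abs]
      apply mul_le_mul_of_nonneg_left _ (abs_nonneg _)
      rw [abs_le]
      have h2 := Real.neg_pi_div_two_lt_arctan (2 * r * (e t).re / (1 - r ^ 2))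
      have h3 := Real.arctan_lt_pi_div_two (2 * r * (e t).re / (1 - r ^ 2))
      have := Real.pi_pos
      constructor <;> linarith
    · exact hW.abs.mul_const _
    · exact Eventually.of_forall fun t => (arctan_lim _).const_mul _
  have hlim2 : Tendsto (fun r : ℝ => ∑ j ∈ Finset.range J, (-1) ^ j * r ^ (2 * j + 1) / (2 * j + 1) * c j) (𝓝[<] 1)
      (𝓝 (∑ j ∈ Finset.range J, (-1) ^ j / (2 * j + 1) * c j)) := by
    have : Tendsto (fun r : ℝ => ∑ j ∈ Finset.range J, (-1) ^ j * r ^ (2 * j + 1) / (2 * j + 1) * c j) (𝓝 1)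
      (𝓝 (∑ j ∈ Finset.range J, (-1) ^ j * 1 ^ (2 * j + 1) / (2 * j + 1) * c j)) := by
      apply Continuous.tendsto
      fun_prop
    simp only [one_pow, mul_one] at this
    exact this.mono_left nhdsWithin_le_nhds
  have hfin := (hlim.sub hlim2).abs
  have e9 : Real.pi / 4 * (∫ t, W t * Real.sign (e t).re ∂μ) = ∫ t, W t * (Real.pi / 4 * Real.sign (e t).re) ∂μ := by
    rw [← integral_const_mul]
    apply integral_congr_ae
    refine Eventually.of_forall fun t => ?_
    simp only
    ring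
  have e10 : ∀ j, (∫ t, ((W t : ℝ) : ℂ) * e t ^ (2 * j + 1) ∂μ).re = c j := fun j => by rw [hcd]
  rw [e9]
  simp only [e10]
  apply le_of_tendsto hfin
  filter_upwards [self_mem_nhdsWithin, nhdsWithin_le_nhds (Ioi_mem_nhds (by norm_num : (0:ℝ) < 1))] with r hr hr2
  exact h1 r (le_of_lt hr2) hr

end Pool.Agent.N30.OD
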