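import Pool.Agent.N30.OD.Tq
import Pool.Agent.N30.OD.Ab
import Pool.Agent.N30.MZ.Eq

set_option autoImplicit false

/-! The exact formula for the signed moments. -/

open Complex MeasureTheory Set Filter Topology

namespace Pool.Agent.N30.OD

open Pool.Agent.W188.QS Pool.Agent.N30.MZ

/-- zeta on the critical line -/
noncomputable def zz (t : ℝ) : ℂ := riemannZeta (cp t)

lemma zz_cont : Continuous zz := zeta_cp_cont

/-- the weight -/
noncomputable def WW (k : ℕ) (T Δ t : ℝ) : ℝ := ‖zz t‖ ^ k * gg T Δ t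

lemma WW_cont (k : ℕ) (T Δ : ℝ) : Continuous (WW k T Δ) := (zz_cont.norm.pow _).mul (Pool.Agent.N30.MZ.gg_cont T Δ)

lemma WW_nonneg (k : ℕ) (T Δ t : ℝ) : 0 ≤ WW k T Δ t := mul_nonneg (by positivity) (Real.exp_pos _).le

/-- the twisted moment -/
noncomputable def CC (k m : ℕ) (T Δ : ℝ) : ℂ :=
  ∫ t in (T / 2)..(3 * T / 2), ((WW k T Δ t : ℝ) : ℂ) * (zz t / (‖zz t‖ : ℂ)) ^ m

lemma unit_sq {t : ℝ} (ht : 1 ≤ t) (hz : zz t ≠ 0) : (zz t / (‖zz t‖ : ℂ)) ^ 2 = (XX (cp t))⁻¹ := by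
  have hX : ‖XX (cp t)‖ = 1 := a_line.2.1 t
  have hX0 : XX (cp t) ≠ 0 := by
    intro h
    rw [h] at hX
    simp at hX
  have hfe : (starRingEnd ℂ) (zz t) = XX (cp t) * zz t := a_line.2.2.1 t ht
  have h3 : (zz t) * (starRingEnd ℂ) (zz t) = ((‖zz t‖ : ℂ)) ^ 2 := by
    rw [Complex.mul_conj, Complex.normSq_eq_norm_sq]
    push_cast
    rfl
  rw [hfe] at h3
  rw [div_pow, ← h3]
  field_simp

lemma CC_eq {p κ n : ℕ} (h1 : 1 ≤ p + 2 * κ) {T Δ : ℝ} (hT : 2 ≤ T) : CC (p + 2 * κ) (p + 2 * n) T Δ = TP p κ n T Δ := by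
  unfold CC TP
  apply intervalIntegral.integral_congr
  intro t ht
  rw [uIcc_of_le (by linarith)] at ht
  have ht1 : 1 ≤ t := by linarith [ht.1]
  simp only
  unfold WW Zk
  change ((‖zz t‖ ^ (p + 2 * κ) * gg T Δ t : ℝ) : ℂ) * (zz t / (‖zz t‖ : ℂ)) ^ (p + 2 * n) =
    zz t ^ p * ((‖zz t‖ ^ (2 * κ) : ℝ) : ℂ) * (XX (cp t))⁻¹ ^ n * ((gg T Δ t : ℝ) : ℂ)
  by_cases hz : zz t = 0
  · rw [hz, norm_zero, zero_pow (by omega)]
    rcases Nat.eq_zero_or_pos p with h | h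
    · rw [zero_pow (by omega : 2 * κ ≠ 0)]
      simp
    · rw [zero_pow (by omega : p ≠ 0)]
      simp
  · have hn : (‖zz t‖ : ℂ) ≠ 0 := by exact_mod_cast norm_ne_zero_iff.2 hz
    rw [pow_add (zz t / _), pow_mul (zz t / _), unit_sq ht1 hz, div_pow, pow_add]
    push_cast
    field_simp

/-- the phase -/
noncomputable def ph (N : ℕ) (u : ℂ) (t : ℝ) : ℂ := (((‖u‖ : ℂ) / u) * (zz t / (‖zz t‖ : ℂ))) ^ N

lemma ph_meas (N : ℕ) (u : ℂ) : Measurable (ph N u) := by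
  unfold ph
  have h1 : Measurable zz := zz_cont.measurable
  have h2 : Measurable (fun t => (‖zz t‖ : ℂ)) := Complex.measurable_ofReal.comp h1.norm
  exact ((h1.div h2).const_mul _).pow_const _

lemma ph_norm {N : ℕ} {u : ℂ} (hu : u ≠ 0) {t : ℝ} (hz : zz t ≠ 0) : ‖ph N u t‖ = 1 := by
  have h1 : ‖u‖ ≠ 0 := norm_ne_zero_iff.2 hu
  have h2 : ‖zz t‖ ≠ 0 := norm_ne_zero_iff.2 hz
  unfold ph
  rw [norm_pow, norm_mul, norm_div, norm_div, Complex.norm_real, Complex.norm_real, norm_norm, norm_norm, div_self h1, div_self h2]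
  simp

lemma ph_sign {N : ℕ} {u : ℂ} (hu : u ≠ 0) {t : ℝ} (hz : zz t ≠ 0) :
    Real.sign (ph N u t).re = Real.sign ((zz t / u) ^ N).re := by
  have h1 : 0 < ‖u‖ := norm_pos_iff.2 hu
  have h2 : 0 < ‖zz t‖ := norm_pos_iff.2 hz
  have e : ph N u t = (((‖u‖ / ‖zz t‖) ^ N : ℝ) : ℂ) * (zz t / u) ^ N := by
    unfold ph
    push_cast
    rw [← mul_pow]
    congr 1
    have : (‖zz t‖ : ℂ) ≠ 0 := by exact_mod_cast h2.ne'
    field_simp
  rw [e, Complex.re_ofReal_mul]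
  have h3 : 0 < (‖u‖ / ‖zz t‖) ^ N := by positivity
  rcases lt_trichotomy ((zz t / u) ^ N).re 0 with h | h | h
  · rw [Real.sign_of_neg h, Real.sign_of_neg (mul_neg_of_pos_of_neg h3 h)]
  · rw [h, mul_zero]
  · rw [Real.sign_of_pos h, Real.sign_of_pos (mul_pos h3 h)]

lemma WW_sign {k : ℕ} (hk : 1 ≤ k) {N : ℕ} {u : ℂ} (hu : u ≠ 0) (T Δ t : ℝ) :
    WW k T Δ t * Real.sign (ph N u t).re = WW k T Δ t * Real.sign ((zz t / u) ^ N).re := by
  by_cases hz : zz t = 0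
  · have : WW k T Δ t = 0 := by
      unfold WW
      rw [hz, norm_zero, zero_pow (by omega), zero_mul]
    rw [this, zero_mul, zero_mul]
  · rw [ph_sign hu hz]

/-- the signed moment -/
noncomputable def SG (k N : ℕ) (u : ℂ) (T Δ : ℝ) : ℝ :=
  ∫ t in (T / 2)..(3 * T / 2), ‖zz t‖ ^ k * Real.sign ((zz t / u) ^ N).re * gg T Δ t

lemma SG_eq {k : ℕ} (hk : 1 ≤ k) (N : ℕ) {u : ℂ} (hu : u ≠ 0) {T : ℝ} (hT : 0 ≤ T) (Δ : ℝ) :
    SG k N u T Δ = ∫ t in Ioc (T / 2) (3 * T / 2), WW k T Δ t * Real.sign (ph N u t).re := by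
  unfold SG
  rw [intervalIntegral.integral_of_le (by linarith)]
  apply integral_congr_ae
  refine Eventually.of_forall fun t => ?_
  simp only
  rw [WW_sign hk hu]
  unfold WW
  ring

lemma cj_eq (k N j : ℕ) (u : ℂ) {T : ℝ} (hT : 0 ≤ T) (Δ : ℝ) :
    ∫ t in Ioc (T / 2) (3 * T / 2), ((WW k T Δ t : ℝ) : ℂ) * ph N u t ^ (2 * j + 1) =
      ((‖u‖ : ℂ) / u) ^ (N * (2 * j + 1)) * CC k (N * (2 * j + 1)) T Δ := by
  unfold CC
  rw [intervalIntegral.integral_of_le (by linarith), ← integral_const_mul]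
  apply integral_congr_ae
  refine Eventually.of_forall fun t => ?_
  simp only
  unfold ph
  rw [← pow_mul, mul_pow]
  ring

/-- high twists are negligible -/
theorem CC_big (k : ℕ) (hk : 1 ≤ k) : ∃ C B T₀ : ℝ, 0 ≤ C ∧ 1 ≤ B ∧ 100 ≤ T₀ ∧ ∀ T Δ : ℝ, T₀ ≤ T → 1 ≤ Δ →
    B * Δ * √(Real.log T) ≤ T → ∀ m : ℕ, k + 1 ≤ m → m % 2 = k % 2 → ‖CC k m T Δ‖ ≤ C * T ^ (-(2 : ℝ)) / (m + 1) := by
  obtain ⟨C, B, T₀, hC, hB, hT₀, h⟩ := tp_big (k % 2) (k / 2)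
  refine ⟨3 * C, B, T₀, by positivity, hB, hT₀, fun T Δ hT hΔ hBT m hm hmk => ?_⟩
  have e1 : k = k % 2 + 2 * (k / 2) := (Nat.mod_add_div k 2).symm
  have e2 : m = k % 2 + 2 * (m / 2) := by rw [← hmk]; exact (Nat.mod_add_div m 2).symm
  have h1 := h T Δ hT hΔ hBT (m / 2) (by omega)
  have e3 : CC k m T Δ = TP (k % 2) (k / 2) (m / 2) T Δ := by
    have := CC_eq (p := k % 2) (κ := k / 2) (n := m / 2) (by omega) (T := T) (Δ := Δ) (by linarith)
    rw [← e1, ← e2] at this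
    exact this
  rw [e3]
  refine h1.trans ?_
  have hT0 : 0 ≤ T ^ (-(2 : ℝ)) := Real.rpow_nonneg (by linarith) _
  rw [div_le_div_iff₀ (by positivity) (by positivity)]
  have h2 : (m : ℝ) + 1 ≤ 3 * (((m / 2 : ℕ) : ℝ) + 1) := by
    have h3 : m + 1 ≤ 3 * (m / 2 + 1) := by omega
    have h4 : ((m + 1 : ℕ) : ℝ) ≤ ((3 * (m / 2 + 1) : ℕ) : ℝ) := by exact_mod_cast h3
    push_cast at h4 ⊢
    linarith
  calc C * T ^ (-(2 : ℝ)) * ((m : ℝ) + 1) ≤ C * T ^ (-(2 : ℝ)) * (3 * (((m / 2 : ℕ) : ℝ) + 1)) := by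
        apply mul_le_mul_of_nonneg_left h2 (by positivity)
    _ = _ := by ring

/-- the exact formula for the signed moments -/
theorem exact (k : ℕ) (hk : 1 ≤ k) : ∃ C B T₀ : ℝ, 0 ≤ C ∧ 1 ≤ B ∧ 100 ≤ T₀ ∧ ∀ (N : ℕ) (u : ℂ) (T Δ : ℝ), 1 ≤ N → N % 2 = k % 2 →
    u ≠ 0 → T₀ ≤ T → 1 ≤ Δ → B * Δ * √(Real.log T) ≤ T →
    |SG k N u T Δ - 4 / Real.pi * ∑ j ∈ (Finset.range k).filter (fun j => N * (2 * j + 1) ≤ k),
      (-1) ^ j / (2 * j + 1) * (((‖u‖ : ℂ) / u) ^ (N * (2 * j + 1)) * CC k (N * (2 * j + 1)) T Δ).re| ≤ C * T ^ (-(2 : ℝ)) := by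
  obtain ⟨C, B, T₀, hC, hB, hT₀, h⟩ := CC_big k hk
  refine ⟨4 / Real.pi * (C * Sq + k * C), B, T₀, ?_, hB, hT₀, fun N u T Δ hN hNk hu hT hΔ hBT => ?_⟩
  · have := Sq_nonneg
    have := Real.pi_pos
    positivity
  have hT100 : 100 ≤ T := hT₀.trans hT
  have hb := h T Δ hT hΔ hBT
  obtain ⟨η, hη⟩ : ∃ η, η = C * T ^ (-(2 : ℝ)) := ⟨_, rfl⟩
  have hη0 : 0 ≤ η := by
    rw [hη]
    exact mul_nonneg hC (Real.rpow_nonneg (by linarith) _)
  have hu1 : ‖((‖u‖ : ℂ) / u)‖ = 1 := by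
    have : ‖u‖ ≠ 0 := norm_ne_zero_iff.2 hu
    rw [norm_div, Complex.norm_real, norm_norm, div_self this]
  have hbig : ∀ j : ℕ, k + 1 ≤ N * (2 * j + 1) →
      ‖((‖u‖ : ℂ) / u) ^ (N * (2 * j + 1)) * CC k (N * (2 * j + 1)) T Δ‖ ≤ η / (j + 1) := by
    intro j hj
    have h1 := hb (N * (2 * j + 1)) hj (by
      rw [Nat.mul_mod, hNk]
      have : (2 * j + 1) % 2 = 1 := by omega
      rw [this, mul_one, Nat.mod_mod])
    rw [norm_mul, norm_pow, hu1, one_pow, one_mul]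
    refine h1.trans ?_
    rw [hη]
    apply div_le_div_of_nonneg_left (by rw [← hη]; exact hη0) (by positivity)
    have h2 : j ≤ N * (2 * j + 1) := by nlinarith
    have h3 : (j : ℝ) ≤ ((N * (2 * j + 1) : ℕ) : ℝ) := by exact_mod_cast h2
    linarith
  have hsq := square (μ := volume.restrict (Ioc (T / 2) (3 * T / 2))) (W := WW k T Δ) (e := ph N u)
    ((WW_cont k T Δ).integrableOn_Ioc) (ph_meas N u) (fun t => by
      by_cases hz : zz t = 0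
      · left
        unfold WW
        rw [hz, norm_zero, zero_pow (by omega), zero_mul]
      · right; exact ph_norm hu hz) k hη0 (fun j hj => by
      rw [cj_eq k N j u (by linarith) Δ]
      apply hbig
      nlinarith)
  simp only [cj_eq k N _ u (by linarith : 0 ≤ T) Δ] at hsq
  rw [← SG_eq hk N hu (by linarith) Δ] at hsq
  obtain ⟨f, hf⟩ : ∃ f : ℕ → ℝ, f = fun j : ℕ => (-1) ^ j / (2 * (j : ℝ) + 1) *
      (((‖u‖ : ℂ) / u) ^ (N * (2 * j + 1)) * CC k (N * (2 * j + 1)) T Δ).re := ⟨_, rfl⟩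
  have hf1 : ∑ j ∈ Finset.range k, (-1) ^ j / (2 * (j : ℝ) + 1) *
      (((‖u‖ : ℂ) / u) ^ (N * (2 * j + 1)) * CC k (N * (2 * j + 1)) T Δ).re = ∑ j ∈ Finset.range k, f j := by rw [hf]
  have hf2 : ∑ j ∈ (Finset.range k).filter (fun j => N * (2 * j + 1) ≤ k), (-1) ^ j / (2 * (j : ℝ) + 1) *
      (((‖u‖ : ℂ) / u) ^ (N * (2 * j + 1)) * CC k (N * (2 * j + 1)) T Δ).re =
      ∑ j ∈ (Finset.range k).filter (fun j => N * (2 * j + 1) ≤ k), f j := by rw [hf]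
  rw [hf1] at hsq
  rw [hf2]
  have hsplit := Finset.sum_filter_add_sum_filter_not (Finset.range k) (fun j => N * (2 * j + 1) ≤ k) f
  have hrest : |∑ j ∈ (Finset.range k).filter (fun j => ¬ N * (2 * j + 1) ≤ k), f j| ≤ k * η := by
    refine (Finset.abs_sum_le_sum_abs _ _).trans ?_
    have h1 : ∀ j ∈ (Finset.range k).filter (fun j => ¬ N * (2 * j + 1) ≤ k), |f j| ≤ η := by
      intro j hj
      rw [Finset.mem_filter] at hj
      have h2 := hbig j (by omega)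
      have h3 : |(((‖u‖ : ℂ) / u) ^ (N * (2 * j + 1)) * CC k (N * (2 * j + 1)) T Δ).re| ≤ η := by
        refine (Complex.abs_re_le_norm _).trans (h2.trans (div_le_self hη0 ?_))
        have : (0 : ℝ) ≤ j := Nat.cast_nonneg j
        linarith
      rw [hf]
      simp only
      rw [abs_mul, abs_div, abs_pow, abs_neg, abs_one, one_pow]
      have h4 : 1 / |2 * (j : ℝ) + 1| ≤ 1 := by
        rw [abs_of_nonneg (by positivity)]
        apply div_le_one_of_le₀ _ (by positivity)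
        have : (0 : ℝ) ≤ j := Nat.cast_nonneg j
        linarith
      calc _ ≤ 1 * η := mul_le_mul h4 h3 (abs_nonneg _) (by norm_num)
        _ = η := one_mul _
    refine (Finset.sum_le_sum h1).trans ?_
    rw [Finset.sum_const, nsmul_eq_mul]
    apply mul_le_mul_of_nonneg_right _ hη0
    exact_mod_cast (Finset.card_filter_le _ _).trans (le_of_eq (Finset.card_range k))
  obtain ⟨S, hS⟩ : ∃ S, S = SG k N u T Δ := ⟨_, rfl⟩
  obtain ⟨a, ha⟩ : ∃ a, a = ∑ j ∈ (Finset.range k).filter (fun j => N * (2 * j + 1) ≤ k), f j := ⟨_, rfl⟩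
  obtain ⟨b, hb'⟩ : ∃ b, b = ∑ j ∈ (Finset.range k).filter (fun j => ¬ N * (2 * j + 1) ≤ k), f j := ⟨_, rfl⟩
  rw [← ha, ← hb'] at hsplit
  rw [← hS, ← hsplit] at hsq
  rw [← hb'] at hrest
  rw [← hS, ← ha]
  have hpi := Real.pi_pos
  have e5 : S - 4 / Real.pi * a = 4 / Real.pi * ((Real.pi / 4 * S - (a + b)) + b) := by
    field_simp
    ring
  rw [e5, abs_mul, abs_of_pos (by positivity : 0 < 4 / Real.pi)]
  have e6 : 4 / Real.pi * (C * Sq + k * C) * T ^ (-(2 : ℝ)) = 4 / Real.pi * (η * Sq + k * η) := by rw [hη]; ring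
  rw [e6]
  apply mul_le_mul_of_nonneg_left _ (by positivity)
  exact (abs_add_le _ _).trans (add_le_add hsq hrest)

/-- the twists `m = k` and `m = k - 2` -/
theorem CC_low (k : ℕ) (hk : 1 ≤ k) : ∃ K δ B T₀ : ℝ, 0 ≤ K ∧ 0 < δ ∧ δ ≤ 1 / 4 ∧ 4 ≤ B ∧ 100 ≤ T₀ ∧ ∀ T Δ : ℝ, T₀ ≤ T →
    T ^ (1 - δ) ≤ Δ → B * Δ * √(Real.log T) ≤ T →
    ‖CC k k T Δ - ((√Real.pi * Δ : ℝ) : ℂ)‖ ≤ K * T ^ (-(2 : ℝ)) ∧
    (2 ≤ k → ‖CC k (k - 2) T Δ - ((√Real.pi * Δ * (Real.log T ^ (k - 1) / ((k - 1).factorial : ℝ)) : ℝ) : ℂ)‖ ≤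
      K * (Δ * Real.log T ^ (k - 2))) := by
  have e1 : k = k % 2 + 2 * (k / 2) := (Nat.mod_add_div k 2).symm
  obtain ⟨K2, B2, T2, hK2, hB2, hT2, h2⟩ := tp_eq (k % 2) (k / 2) (by omega)
  obtain ⟨K1, δ1, B1, T1, hK1, hδ1, hB1, hT1, h1⟩ : ∃ K δ B T₀ : ℝ, 0 ≤ K ∧ 0 < δ ∧ 1 ≤ B ∧ 100 ≤ T₀ ∧ ∀ T Δ : ℝ, T₀ ≤ T →
      T ^ (1 - δ) ≤ Δ → B * Δ * √(Real.log T) ≤ T → (2 ≤ k →
      ‖CC k (k - 2) T Δ - ((√Real.pi * Δ * (Real.log T ^ (k - 1) / ((k - 1).factorial : ℝ)) : ℝ) : ℂ)‖ ≤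
      K * (Δ * Real.log T ^ (k - 2))) := by
    by_cases hk2 : 2 ≤ k
    · obtain ⟨K1, δ1, B1, T1, hK1, hδ1, -, hB1, hT1, h1⟩ := tp_main (k % 2) (k / 2) (by omega)
      refine ⟨K1, δ1, B1, T1, hK1, hδ1, hB1, hT1, fun T Δ hT hΔ hBT _ => ?_⟩
      have h3 := h1 T Δ hT hΔ hBT
      have e3 : CC k (k - 2) T Δ = TP (k % 2) (k / 2) (k / 2 - 1) T Δ := by
        have := CC_eq (p := k % 2) (κ := k / 2) (n := k / 2 - 1) (by omega) (T := T) (Δ := Δ) (by linarith)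
        rw [← e1] at this
        have e4 : k % 2 + 2 * (k / 2 - 1) = k - 2 := by omega
        rw [e4] at this
        exact this
      rw [← e1, ← e3] at h3
      exact h3
    · exact ⟨0, 1, 1, 100, le_rfl, one_pos, le_rfl, le_rfl, fun T Δ _ _ _ h => absurd h hk2⟩
  obtain ⟨T4, hT4⟩ := eventually_atTop.1 ((isLittleO_log_rpow_atTop (by norm_num : (0:ℝ) < 1 / 8)).bound (by norm_num : (0:ℝ) < 1))
  refine ⟨max K1 K2, min δ1 (1 / 4), max (max B1 B2) 4, max (max T1 T2) T4,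
    hK1.trans (le_max_left _ _), lt_min hδ1 (by norm_num), min_le_right _ _, le_max_right _ _,
    hT1.trans ((le_max_left _ _).trans (le_max_left _ _)), fun T Δ hT hΔ hBT => ?_⟩
  have t1 : T1 ≤ T := ((le_max_left _ _).trans (le_max_left _ _)).trans hT
  have t2 : T2 ≤ T := ((le_max_right _ _).trans (le_max_left _ _)).trans hT
  have t4 : T4 ≤ T := (le_max_right _ _).trans hT
  have hT100 : 100 ≤ T := hT1.trans t1
  have hT0 : 0 < T := by linarith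
  have hL1 : 1 ≤ Real.log T := by
    rw [Real.le_log_iff_exp_le hT0]
    have := Real.exp_one_lt_d9
    linarith
  have hd1 : T ^ (1 - δ1) ≤ Δ := by
    refine le_trans ?_ hΔ
    exact Real.rpow_le_rpow_of_exponent_le (by linarith) (by linarith [min_le_left δ1 (1 / 4)])
  have hd2 : T ^ (3 / 4 : ℝ) ≤ Δ := by
    refine le_trans ?_ hΔ
    exact Real.rpow_le_rpow_of_exponent_le (by linarith) (by linarith [min_le_right δ1 (1 / 4)])
  have hΔ1 : 1 ≤ Δ := (Real.one_le_rpow (by linarith) (by norm_num)).trans hd2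
  have hΔ0 : 0 < Δ := by linarith
  have hLT : Real.log T ≤ Δ := by
    have := hT4 T t4
    rw [Real.norm_of_nonneg (by linarith), Real.norm_of_nonneg (by positivity), one_mul] at this
    exact this.trans ((Real.rpow_le_rpow_of_exponent_le (by linarith) (by norm_num)).trans hd2)
  have hBB : ∀ b : ℝ, b ≤ max (max B1 B2) 4 → b * Δ * √(Real.log T) ≤ T := by
    intro b hb
    refine le_trans ?_ hBT
    apply mul_le_mul_of_nonneg_right _ (Real.sqrt_nonneg _)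
    exact mul_le_mul_of_nonneg_right hb hΔ0.le
  constructor
  · have h3 := h2 T Δ t2 hLT (hBB B2 ((le_max_right _ _).trans (le_max_left _ _)))
    have e3 : CC k k T Δ = TP (k % 2) (k / 2) (k / 2) T Δ := by
      have := CC_eq (p := k % 2) (κ := k / 2) (n := k / 2) (by omega) (T := T) (Δ := Δ) (by linarith)
      rw [← e1] at this
      exact this
    rw [e3]
    refine h3.trans ?_
    apply mul_le_mul_of_nonneg_right (le_max_right _ _)
    positivity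
  · intro hk2
    refine (h1 T Δ t1 hd1 (hBB B1 ((le_max_left _ _).trans (le_max_left _ _))) hk2).trans ?_
    apply mul_le_mul_of_nonneg_right (le_max_left _ _)
    positivity

end Pool.Agent.N30.OD
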