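import Pool.Agent.N30.MZ.Tw2

set_option autoImplicit false

/-! Asymptotics for the integral of `ζ^j X` and of `ζ^j` on the line `Re s = 4`, all exponents `j`. -/

open Complex MeasureTheory Set Filter Topology

namespace Pool.Agent.N30.OD

open Pool.Agent.W188.QS Pool.Agent.N30.MZ
open Pool.Agent.W131.QSJJ (dd dd_nonneg dd_zero dd_cast norm_cp series In_le2)
open Pool.Agent.W885.QS (norm_zeta_le_two gg_integrable gg_integral gg_pos GG_norm fp_re fp_im fp_cont GG_cont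
  zeta_cont zeta_bd bound_int bound_compl pw tail_pt)

theorem Jg (j : ℕ) (hj : 2 ≤ j) : ∃ K δ B T₀ : ℝ, 0 ≤ K ∧ 0 < δ ∧ 4 ≤ B ∧ ∀ T Δ : ℝ, T₀ ≤ T →
    T ^ (1 - δ) ≤ Δ → B * Δ * √(Real.log T) ≤ T →
    ‖(∫ t : ℝ, riemannZeta (fp t) ^ j * XX (fp t) * GG T Δ (fp t)) -
      ((√Real.pi * Δ * (Real.log T ^ (j - 1) / ((j - 1).factorial : ℝ)) : ℝ) : ℂ)‖ ≤
      K * (Δ * Real.log T ^ (j - 2)) := by
  obtain ⟨_, B0, T1, hB0, h2b⟩ := Pool.Agent.W975.QSKe.qs_ke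
  obtain ⟨C3, -, h3b⟩ := Pool.Agent.W253.QS.qs_i3
  obtain ⟨Cd, hCd, hsum, hbd, hz⟩ := Pool.Agent.W32.QS.qs_div j (by omega)
  obtain ⟨K0, δ0, hK0, hδ0, hgs⟩ := gs (j - 1) (by omega)
  have hmel := Pool.Agent.W372.QS.qs_mel
  have hC3 : 0 ≤ C3 := by
    have := (norm_nonneg _).trans (h3b 1 1 le_rfl le_rfl 1 le_rfl).2
    simpa using this
  have e2k : j - 1 + 1 = j := by omega
  have e2k' : j - 1 - 1 = j - 2 := by omega
  rw [e2k, e2k'] at hgs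
  obtain ⟨δ, hδd⟩ : ∃ δ, δ = min (δ0 / 2) (1 / 4) := ⟨_, rfl⟩
  have hδ : 0 < δ := by rw [hδd]; exact lt_min (by positivity) (by norm_num)
  have hδ1 : δ ≤ 1 / 4 := by rw [hδd]; exact min_le_right _ _
  have hδ2 : 2 * δ ≤ δ0 := by
    have : δ ≤ δ0 / 2 := by rw [hδd]; exact min_le_left _ _
    linarith
  have hSn0 : 0 ≤ ∑' n : ℕ, (n : ℝ) ^ (-(3 / 2 : ℝ)) :=
    tsum_nonneg fun n => Real.rpow_nonneg (Nat.cast_nonneg _) _
  obtain ⟨C1, hC1⟩ : ∃ C1, C1 = Cd * 2 * 2 ^ (j - 1) := ⟨_, rfl⟩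
  obtain ⟨C2, hC2⟩ : ∃ C2, C2 = √Real.pi * 2 * Cd * 10 ^ (j - 1) +
        Cd * C3 * ∑' n : ℕ, (n : ℝ) ^ (-(3 / 2 : ℝ)) := ⟨_, rfl⟩
  have hC10 : 0 ≤ C1 := by rw [hC1]; positivity
  have hC20 : 0 ≤ C2 := by rw [hC2]; positivity
  -- `log T ≤ T^{1/8}` eventually, in the form needed
  obtain ⟨T2, hT2⟩ := eventually_atTop.1 ((isLittleO_log_rpow_atTop (by norm_num : (0:ℝ) < 1 / 8)).bound (by norm_num : (0:ℝ) < 1))
  refine ⟨C1 * 40000 + C2 + 4 * Real.pi * K0, δ, max B0 4, max (max T1 T2) 20, by positivity, hδ, le_max_right _ _, fun T Δ hT hΔ1 hBT => ?_⟩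
  have hTT1 : T1 ≤ T := ((le_max_left _ _).trans (le_max_left _ _)).trans hT
  have hTT2 : T2 ≤ T := ((le_max_right _ _).trans (le_max_left _ _)).trans hT
  have hT20 : 20 ≤ T := (le_max_right _ _).trans hT
  have hT0 : 0 < T := by linarith
  obtain ⟨L, hLd⟩ : ∃ L, L = Real.log T := ⟨_, rfl⟩
  have hL1 : 1 ≤ L := by
    rw [hLd, Real.le_log_iff_exp_le hT0]
    have := Real.exp_one_lt_d9
    linarith
  have hLT : L ≤ T ^ (1 / 8 : ℝ) := by
    have := hT2 T hTT2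
    rw [Real.norm_of_nonneg (by rw [← hLd]; linarith), Real.norm_of_nonneg (by positivity), one_mul, ← hLd] at this
    exact this
  have hΔ34 : T ^ (3 / 4 : ℝ) ≤ Δ := (Real.rpow_le_rpow_of_exponent_le (by linarith) (by linarith)).trans hΔ1
  have hLΔ : L ≤ Δ := hLT.trans ((Real.rpow_le_rpow_of_exponent_le (by linarith) (by norm_num)).trans hΔ34)
  have hΔ4 : 4 ≤ Δ := by
    have h1 : (4:ℝ) = 16 ^ (1 / 2 : ℝ) := by
      rw [← Real.sqrt_eq_rpow, show (16:ℝ) = 4 ^ 2 by norm_num, Real.sqrt_sq (by norm_num)]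
    rw [h1]
    calc (16:ℝ) ^ (1 / 2 : ℝ) ≤ T ^ (1 / 2 : ℝ) := Real.rpow_le_rpow (by norm_num) (by linarith) (by norm_num)
      _ ≤ T ^ (3 / 4 : ℝ) := Real.rpow_le_rpow_of_exponent_le (by linarith) (by norm_num)
      _ ≤ Δ := hΔ34
  have hΔ0 : 0 < Δ := by linarith
  have hs1 : 1 ≤ √L := by rw [Real.one_le_sqrt]; exact hL1
  have hB0T : B0 * Δ * √(Real.log T) ≤ T := by
    refine le_trans ?_ hBT
    apply mul_le_mul_of_nonneg_right _ (Real.sqrt_nonneg _)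
    exact mul_le_mul_of_nonneg_right (le_max_left _ _) hΔ0.le
  have h4T : 4 * Δ * √(Real.log T) ≤ T := by
    refine le_trans ?_ hBT
    apply mul_le_mul_of_nonneg_right _ (Real.sqrt_nonneg _)
    exact mul_le_mul_of_nonneg_right (le_max_right _ _) hΔ0.le
  have h4T' : 4 * Δ ≤ T := by
    have : 4 * Δ * 1 ≤ 4 * Δ * √(Real.log T) := mul_le_mul_of_nonneg_left (by rw [← hLd]; exact hs1) (by positivity)
    linarith
  have hΔT : Δ ≤ T := by linarith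
  -- the corrected terms
  obtain ⟨J, hJ⟩ : ∃ J : ℕ → ℂ, J = fun n => if n ∈ Finset.Icc 1 ⌊2 * T⌋₊ then ((2 * Real.pi * ge T Δ n : ℝ) : ℂ) else 0 := ⟨_, rfl⟩
  obtain ⟨η, hη⟩ : ∃ η, η = 40000 * (T / Δ ^ 2) := ⟨_, rfl⟩
  have hη0 : 0 ≤ η := by rw [hη]; positivity
  have hfl : (⌊2 * T⌋₊ : ℝ) ≤ 2 * T := Nat.floor_le (by linarith)
  have hI1 : ∀ n : ℕ, 1 ≤ n → n ≤ ⌊2 * T⌋₊ → ‖In T Δ n - J n‖ ≤ η := by
    intro n hn hn2
    have hn2' : (n : ℝ) ≤ 2 * T := le_trans (by exact_mod_cast hn2) hfl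
    have h1 := In_asym hmel T hΔ4 n hn
    have hJn : J n = ((2 * Real.pi * ge T Δ n : ℝ) : ℂ) := by rw [hJ]; exact if_pos (Finset.mem_Icc.2 ⟨hn, hn2⟩)
    rw [hJn]
    have e : In T Δ n - ((2 * Real.pi * ge T Δ n : ℝ) : ℂ) = (In T Δ n - ((2 * Real.pi * (ge T Δ n + ge T Δ (-n)) : ℝ) : ℂ)) +
        ((2 * Real.pi * ge T Δ (-n) : ℝ) : ℂ) := by push_cast; ring
    rw [e]
    have h2 : ge T Δ (-n) ≤ T ^ (-(1 : ℝ)) := by
      rw [ge_def, Real.rpow_def_of_pos hT0]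
      apply Real.exp_le_exp.2
      have h3 : Real.log T ≤ (uu T Δ (-n)) ^ 2 := by
        unfold uu
        rw [div_pow, le_div_iff₀ (by positivity)]
        have h4 : (4 * Δ * √(Real.log T)) ^ 2 ≤ T ^ 2 := pow_le_pow_left₀ (by positivity) h4T 2
        rw [mul_pow, Real.sq_sqrt (by rw [← hLd]; linarith)] at h4
        have h5 : T ^ 2 ≤ (T - 2 * Real.pi * (-(n : ℝ))) ^ 2 := by
          apply pow_le_pow_left₀ hT0.le
          have : 0 ≤ 2 * Real.pi * n := by positivity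
          linarith
        have h6 : 0 ≤ Real.log T * Δ ^ 2 := by rw [← hLd]; positivity
        nlinarith
      linarith
    have h3 : 2 * Real.pi * ge T Δ (-n) ≤ 8 * (T / Δ ^ 2) := by
      have h4 : T ^ (-(1 : ℝ)) ≤ T / Δ ^ 2 := by
        rw [Real.rpow_neg_one, inv_eq_one_div, div_le_div_iff₀ hT0 (by positivity)]
        nlinarith
      have h5 := Real.pi_lt_d2
      have h6 : 0 ≤ ge T Δ (-n) := by rw [ge_def]; exact (Real.exp_pos _).le
      have h7 : 0 ≤ T / Δ ^ 2 := by positivity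
      nlinarith
    have h4 : ‖((2 * Real.pi * ge T Δ (-n) : ℝ) : ℂ)‖ ≤ 8 * (T / Δ ^ 2) := by
      rw [Complex.norm_real, Real.norm_of_nonneg]
      · exact h3
      · have h6 : 0 ≤ ge T Δ (-n) := by rw [ge_def]; exact (Real.exp_pos _).le
        positivity
    refine (norm_add_le _ _).trans ((add_le_add h1 h4).trans ?_)
    have h5 : 4 / Δ ≤ T / Δ ^ 2 := by
      rw [div_le_div_iff₀ hΔ0 (by positivity)]
      nlinarith
    have h6 : 128 * n / Δ ^ 2 ≤ 256 * (T / Δ ^ 2) := by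
      rw [mul_div_assoc', div_le_div_iff_of_pos_right (by positivity)]
      linarith
    rw [hη]
    have h7 : 0 ≤ T / Δ ^ 2 := by positivity
    linarith
  have hJ0 : ∀ n : ℕ, 2 * T < n → J n = 0 := by
    intro n hn
    rw [hJ]
    apply if_neg
    rw [Finset.mem_Icc, not_and]
    intro _ h
    have : (n : ℝ) ≤ 2 * T := le_trans (by exact_mod_cast h) hfl
    linarith
  have hfin := final' j Cd C3 η hCd hC3 hη0 hsum hbd T Δ (by linarith) (by rw [← hLd]; exact hL1) hΔT (by linarith)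
    (fun n => In T Δ n - J n) hI1
    (fun n hn hn2 => by
      show ‖In T Δ n - J n‖ ≤ _
      rw [hJ0 n hn2, sub_zero]
      exact In_le2 hmel T Δ (by linarith) n hn _ (fun ε σ hε hσ => h2b T Δ ε σ hTT1 (by rw [← hLd]; exact hLΔ) hB0T hε hσ n hn2.le))
    (fun n hn hn2 => by
      show ‖In T Δ n - J n‖ ≤ _
      rw [hJ0 n hn2, sub_zero]
      exact (h3b T Δ (by linarith) hΔT n hn).2)
  -- the two series
  rw [series j Cd hbd (fun s hs => by rw [(hz s hs).2]; simp only [dd_cast]) T Δ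
    (fun n hn => (h3b T Δ (by linarith) hΔT n hn).1)]
  have hJsum : Summable (fun n : ℕ => ((dd j n : ℝ) : ℂ) * J n) := by
    apply summable_of_ne_finset_zero (s := Finset.Icc 1 ⌊2 * T⌋₊)
    intro n hn
    rw [hJ]
    simp only [if_neg hn, mul_zero]
  have hIsum : Summable (fun n : ℕ => ((dd j n : ℝ) : ℂ) * In T Δ n) := by
    have hs : Summable fun n : ℕ => (Cd * C3 * T ^ 5) * (n : ℝ) ^ (-(2 : ℝ)) :=
      (Real.summable_nat_rpow.2 (by norm_num)).mul_left _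
    refine Summable.of_norm_bounded hs fun n => ?_
    rw [norm_mul, Complex.norm_real, Real.norm_of_nonneg (dd_nonneg _ n)]
    rcases Nat.eq_zero_or_pos n with h | h
    · subst h
      rw [dd_zero, zero_mul]
      positivity
    · have hn : (0 : ℝ) < n := Nat.cast_pos.2 h
      have e : (n : ℝ) ^ 2 * (n : ℝ) ^ (-(4 : ℝ)) = (n : ℝ) ^ (-(2 : ℝ)) := by
        rw [← Real.rpow_natCast, ← Real.rpow_add hn]
        norm_num
      calc dd j n * ‖In T Δ n‖ ≤ (Cd * (n : ℝ) ^ 2) * (C3 * (n : ℝ) ^ (-(4 : ℝ)) * T ^ 5) :=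
            mul_le_mul (hbd n) (h3b T Δ (by linarith) hΔT n h).2 (norm_nonneg _) (by positivity)
        _ = Cd * C3 * T ^ 5 * ((n : ℝ) ^ 2 * (n : ℝ) ^ (-(4 : ℝ))) := by ring
        _ = _ := by rw [e]
  have hJval : ∑' n : ℕ, ((dd j n : ℝ) : ℂ) * J n =
      ((2 * Real.pi * ∑ n ∈ Finset.Icc 1 ⌊2 * T⌋₊, dd j n * ge T Δ n : ℝ) : ℂ) := by
    rw [tsum_eq_sum (s := Finset.Icc 1 ⌊2 * T⌋₊)]
    · rw [Finset.mul_sum]
      push_cast
      apply Finset.sum_congr rfl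
      intro n hn
      rw [hJ]
      simp only [if_pos hn]
      push_cast
      ring
    · intro n hn
      rw [hJ]
      simp only [if_neg hn, mul_zero]
  have hsub : ∑' n : ℕ, ((dd j n : ℝ) : ℂ) * (In T Δ n - J n) = (∑' n : ℕ, ((dd j n : ℝ) : ℂ) * In T Δ n) -
      ∑' n : ℕ, ((dd j n : ℝ) : ℂ) * J n := by
    rw [← hIsum.tsum_sub hJsum]
    exact tsum_congr fun n => by ring
  rw [hsub, hJval, ← hLd, ← hC1, ← hC2] at hfin
  have hg := hgs T Δ hT20 (by linarith) h4T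
  rw [← hLd] at hg ⊢
  obtain ⟨S, hS⟩ : ∃ S, S = ∑ n ∈ Finset.Icc 1 ⌊2 * T⌋₊, dd j n * ge T Δ n := ⟨_, rfl⟩
  rw [← hS] at hg hfin
  obtain ⟨f, hf⟩ : ∃ f : ℝ, f = ((j - 1).factorial : ℝ) := ⟨_, rfl⟩
  rw [← hf] at hg ⊢
  obtain ⟨A, hA⟩ : ∃ A : ℂ, A = ∑' n : ℕ, ((dd j n : ℝ) : ℂ) * In T Δ n := ⟨_, rfl⟩
  rw [← hA] at hfin ⊢
  have hsq : √Real.pi * √Real.pi = Real.pi := Real.mul_self_sqrt Real.pi_pos.le
  have hsp : 0 < √Real.pi := Real.sqrt_pos.2 Real.pi_pos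
  have e1 : √Real.pi * Δ * (L ^ (j - 1) / f) = 2 * Real.pi * (Δ / (2 * √Real.pi) * (L ^ (j - 1) / f)) := by
    have : 2 * Real.pi * (Δ / (2 * √Real.pi)) = √Real.pi * Δ := by
      rw [mul_div_assoc', div_eq_iff (by positivity)]
      calc 2 * Real.pi * Δ = 2 * (√Real.pi * √Real.pi) * Δ := by rw [hsq]
        _ = _ := by ring
    rw [← mul_assoc, this]
  have e2 : A - ((√Real.pi * Δ * (L ^ (j - 1) / f) : ℝ) : ℂ) = (A - ((2 * Real.pi * S : ℝ) : ℂ)) +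
      ((2 * Real.pi * (S - Δ / (2 * √Real.pi) * (L ^ (j - 1) / f)) : ℝ) : ℂ) := by
    rw [e1]; push_cast; ring
  rw [e2]
  have h1 : ‖((2 * Real.pi * (S - Δ / (2 * √Real.pi) * (L ^ (j - 1) / f)) : ℝ) : ℂ)‖ ≤
      2 * Real.pi * (K0 * (Δ * L ^ (j - 2) + T ^ (1 - δ0))) := by
    rw [Complex.norm_real, Real.norm_eq_abs, abs_mul, abs_of_pos (by positivity : 0 < 2 * Real.pi)]
    exact mul_le_mul_of_nonneg_left hg (by positivity)
  have hLp : 1 ≤ L ^ (j - 2) := one_le_pow₀ hL1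
  have h2 : T ^ (1 - δ0) ≤ Δ * L ^ (j - 2) := by
    calc T ^ (1 - δ0) ≤ T ^ (1 - δ) := Real.rpow_le_rpow_of_exponent_le (by linarith) (by linarith)
      _ ≤ Δ := hΔ1
      _ = Δ * 1 := (mul_one _).symm
      _ ≤ _ := mul_le_mul_of_nonneg_left hLp hΔ0.le
  -- `η T L^{2k-1} ≤ 40000 Δ L^{2k-2}` because `T² L ≤ Δ³`
  have h3 : T ^ 2 * L ≤ Δ ^ 3 := by
    have h31 : T ^ 2 * L ≤ T ^ 2 * T ^ (1 / 8 : ℝ) := mul_le_mul_of_nonneg_left hLT (by positivity)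
    have h32 : T ^ 2 * T ^ (1 / 8 : ℝ) ≤ T ^ (9 / 4 : ℝ) := by
      rw [← Real.rpow_natCast, ← Real.rpow_add hT0]
      apply Real.rpow_le_rpow_of_exponent_le (by linarith)
      norm_num
    have h33 : T ^ (9 / 4 : ℝ) = (T ^ (3 / 4 : ℝ)) ^ 3 := by
      rw [← Real.rpow_natCast, ← Real.rpow_mul hT0.le]
      norm_num
    rw [h33] at h32
    have h34 := pow_le_pow_left₀ (by positivity) hΔ34 3
    linarith
  have h4 : η * C1 * T * L ^ (j - 1) ≤ C1 * 40000 * (Δ * L ^ (j - 2)) := by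
    have e3 : L ^ (j - 1) = L * L ^ (j - 2) := by rw [← pow_succ']; congr 1; omega
    rw [e3, hη]
    have h5 : T / Δ ^ 2 * T * L ≤ Δ := by
      rw [div_mul_eq_mul_div, div_mul_eq_mul_div, div_le_iff₀ (by positivity)]
      calc T * T * L = T ^ 2 * L := by ring
        _ ≤ Δ ^ 3 := h3
        _ = Δ * Δ ^ 2 := by ring
    calc 40000 * (T / Δ ^ 2) * C1 * T * (L * L ^ (j - 2)) = C1 * 40000 * ((T / Δ ^ 2 * T * L) * L ^ (j - 2)) := by ring
      _ ≤ _ := by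
          apply mul_le_mul_of_nonneg_left _ (by positivity)
          exact mul_le_mul_of_nonneg_right h5 (by positivity)
  have h5 : C2 * L ^ (j - 1) ≤ C2 * (Δ * L ^ (j - 2)) := by
    have e3 : L ^ (j - 1) = L * L ^ (j - 2) := by rw [← pow_succ']; congr 1; omega
    rw [e3]
    apply mul_le_mul_of_nonneg_left _ hC20
    exact mul_le_mul_of_nonneg_right hLΔ (by positivity)
  refine (norm_add_le _ _).trans ((add_le_add hfin h1).trans ?_)
  have h6 : 2 * Real.pi * (K0 * (Δ * L ^ (j - 2) + T ^ (1 - δ0))) ≤ 2 * Real.pi * (K0 * (2 * (Δ * L ^ (j - 2)))) := by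
    apply mul_le_mul_of_nonneg_left _ (by positivity)
    apply mul_le_mul_of_nonneg_left _ hK0
    linarith
  calc _ ≤ C1 * 40000 * (Δ * L ^ (j - 2)) + C2 * (Δ * L ^ (j - 2)) + 2 * Real.pi * (K0 * (2 * (Δ * L ^ (j - 2)))) := by
        linarith
    _ = _ := by ring



theorem J0g (j : ℕ) (hj : 1 ≤ j) : ∃ C : ℝ, 0 ≤ C ∧ ∀ T Δ : ℝ, 1 ≤ T → 40 ≤ Δ → Real.log T ≤ Δ →
    ‖(∫ t : ℝ, riemannZeta (fp t) ^ j * GG T Δ (fp t)) - ((√Real.pi * Δ : ℝ) : ℂ)‖ ≤ C * (Δ * T ^ (-(4 : ℝ))) := by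
  obtain ⟨Cd, hCd, hsum, hbd, hz⟩ := Pool.Agent.W32.QS.qs_div j (by omega)
  have hS : Summable fun n : ℕ => (n : ℝ) ^ (-(2 : ℝ)) := Real.summable_nat_rpow.2 (by norm_num)
  have hS0 : 0 ≤ ∑' n : ℕ, (n : ℝ) ^ (-(2 : ℝ)) := tsum_nonneg fun n => Real.rpow_nonneg (Nat.cast_nonneg _) _
  refine ⟨√Real.pi * Cd * ∑' n : ℕ, (n : ℝ) ^ (-(2 : ℝ)), by positivity, fun T Δ hT hΔ hL => ?_⟩
  have hT0 : 0 < T := by linarith
  have hΔ0 : 0 < Δ := by linarith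
  rw [series2 j Cd hbd (fun s hs => by rw [(hz s hs).2]; simp only [dd_cast]) T Δ (by linarith)]
  obtain ⟨G, hG⟩ : ∃ G : ℕ → ℂ, G = fun n => ((dd j n : ℝ) : ℂ) * ∫ t : ℝ, (n : ℂ) ^ (-fp t) * GG T Δ (fp t) := ⟨_, rfl⟩
  obtain ⟨J, hJ⟩ : ∃ J : ℕ → ℂ, J = fun n => if n = 1 then ((√Real.pi * Δ : ℝ) : ℂ) else 0 := ⟨_, rfl⟩
  have hpt : ∀ n : ℕ, ‖G n - J n‖ ≤ √Real.pi * Cd * (Δ * T ^ (-(4 : ℝ))) * (n : ℝ) ^ (-(2 : ℝ)) := by
    intro n
    rw [hG, hJ]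
    simp only
    rcases Nat.lt_or_ge n 2 with h | h
    · interval_cases n
      · have : ((dd j 0 : ℝ) : ℂ) = 0 := by rw [dd_zero]; simp
        rw [this, zero_mul, if_neg (by norm_num), sub_zero, norm_zero]
        positivity
      · rw [if_pos rfl, dd_one, nG T hΔ0 1 le_rfl]
        simp only [Nat.cast_one, Real.log_one, Complex.ofReal_zero, Complex.ofReal_one, one_mul]
        norm_num
        positivity
    · rw [if_neg (by omega), sub_zero, nG T hΔ0 n (by omega), norm_mul, norm_mul, Complex.norm_real, Complex.norm_real,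
        Real.norm_of_nonneg (dd_nonneg _ _), Real.norm_of_nonneg (by positivity : 0 ≤ √Real.pi * Δ), Complex.norm_exp]
      have hn2 : (2 : ℝ) ≤ n := by exact_mod_cast h
      have hn0 : (0 : ℝ) < n := by linarith
      obtain ⟨l, hl⟩ : ∃ l, l = Real.log n := ⟨_, rfl⟩
      have hl2 : 0.69 ≤ l := by
        have h1 : Real.log 2 ≤ Real.log n := Real.log_le_log (by norm_num) hn2
        have h2 := Real.log_two_gt_d9
        rw [hl]
        linarith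
      have e : (-(1 / 2 + (T : ℂ) * I) * (Real.log n : ℂ) - (Δ : ℂ) ^ 2 * (Real.log n : ℂ) ^ 2 / 4).re = -(l / 2) - Δ ^ 2 * l ^ 2 / 4 := by
        rw [← hl]
        have e1 : (-(1 / 2 + (T : ℂ) * I) * (l : ℂ) - (Δ : ℂ) ^ 2 * (l : ℂ) ^ 2 / 4) =
            ((-(l / 2) - Δ ^ 2 * l ^ 2 / 4 : ℝ) : ℂ) + ((-(T * l) : ℝ) : ℂ) * I := by push_cast; ring
        rw [e1, Complex.add_re, Complex.re_ofReal_mul, Complex.I_re, mul_zero, add_zero, Complex.ofReal_re]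
      rw [e]
      have h3 : Real.exp (-(l / 2) - Δ ^ 2 * l ^ 2 / 4) ≤ (n : ℝ) ^ (-(4 : ℝ)) * T ^ (-(4 : ℝ)) := by
        rw [Real.rpow_def_of_pos hn0, Real.rpow_def_of_pos hT0, ← Real.exp_add, ← hl]
        apply Real.exp_le_exp.2
        have h4 : 27 ≤ Δ * l := by nlinarith
        have h5 : 4 * l ≤ Δ * l / 10 := by nlinarith
        have h6 : 4 * Δ ≤ 6 * (Δ * l) := by nlinarith
        have h7 : Δ ^ 2 * l ^ 2 = (Δ * l) * (Δ * l) := by ring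
        have h8 : 27 * (Δ * l) ≤ (Δ * l) * (Δ * l) := mul_le_mul_of_nonneg_right h4 (by positivity)
        rw [h7]
        nlinarith
      have e2 : (n : ℝ) ^ 2 * (n : ℝ) ^ (-(4 : ℝ)) = (n : ℝ) ^ (-(2 : ℝ)) := by
        rw [← Real.rpow_natCast, ← Real.rpow_add hn0]
        norm_num
      calc dd j n * (√Real.pi * Δ * Real.exp (-(l / 2) - Δ ^ 2 * l ^ 2 / 4)) ≤
          (Cd * (n : ℝ) ^ 2) * (√Real.pi * Δ * ((n : ℝ) ^ (-(4 : ℝ)) * T ^ (-(4 : ℝ)))) := by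
            apply mul_le_mul (hbd n) _ (by positivity) (by positivity)
            exact mul_le_mul_of_nonneg_left h3 (by positivity)
        _ = √Real.pi * Cd * (Δ * T ^ (-(4 : ℝ))) * ((n : ℝ) ^ 2 * (n : ℝ) ^ (-(4 : ℝ))) := by ring
        _ = _ := by rw [e2]
  have hb := hS.hasSum.mul_left (√Real.pi * Cd * (Δ * T ^ (-(4 : ℝ))))
  have hsd : Summable (fun n => G n - J n) := Summable.of_norm_bounded hb.summable hpt
  have hJs : HasSum J ((√Real.pi * Δ : ℝ) : ℂ) := by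
    have := hasSum_single (f := J) 1 (fun n hn => by rw [hJ]; exact if_neg hn)
    rw [hJ] at this ⊢
    simpa using this
  have hGs : Summable G := by
    have := hsd.add hJs.summable
    refine this.congr fun n => ?_
    simp
  have e : (∑' n, G n) - ((√Real.pi * Δ : ℝ) : ℂ) = ∑' n, (G n - J n) := by
    rw [hGs.tsum_sub hJs.summable, hJs.tsum_eq]
  have e0 : (∑' n : ℕ, ((dd j n : ℝ) : ℂ) * ∫ t : ℝ, (n : ℂ) ^ (-fp t) * GG T Δ (fp t)) = ∑' n, G n := by rw [hG]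
  rw [e0, e]
  refine (tsum_of_norm_bounded hb hpt).trans (le_of_eq ?_)
  ring


end Pool.Agent.N30.OD
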