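import Pool.Agent.N30.OD.Cu

set_option autoImplicit false

/-! Sharp cut-off for the signed moments of order at most three: dyadic intervals and summation. -/

open Complex MeasureTheory Set Filter Topology

namespace Pool.Agent.N30.OD

open Pool.Agent.W188.QS Pool.Agent.N30.MZ

/-- the main term of the signed moment -/
noncomputable def bb (N : ℕ) (u : ℂ) : ℝ := 4 / Real.pi * (((‖u‖ : ℂ) / u) ^ N).re

/-- the Gaussian signed moment is `√π Δ b m(τ)` up to `Δ E(τ)` -/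
def Hyp (k N : ℕ) (m E : ℝ → ℝ) : Prop := ∃ δ B T₀ : ℝ, 0 < δ ∧ δ ≤ 1 / 4 ∧ 0 < B ∧ ∀ (u : ℂ) (T Δ : ℝ), u ≠ 0 → T₀ ≤ T →
    T ^ (1 - δ) ≤ Δ → B * Δ * √(Real.log T) ≤ T → |SG k N u T Δ - √Real.pi * Δ * (bb N u * m T)| ≤ Δ * E T

theorem step {k N : ℕ} (hk : 1 ≤ k) (hk3 : k ≤ 3) (hN : 1 ≤ N) {m E E' : ℝ → ℝ} (hm : ContinuousOn m (Ioi 0))
    (hH : Hyp k N m E) (hE : ∀ᶠ X : ℝ in atTop, 0 ≤ E' X ∧ ∀ τ ∈ Icc X (2 * X), E τ ≤ E' X) :
    ∃ δ : ℝ, 0 < δ ∧ δ ≤ 1 / 4 ∧ ∀ᶠ X : ℝ in atTop, ∀ u : ℂ, u ≠ 0 →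
      |Sn k N u X (2 * X) - bb N u * ∫ τ in X..(2 * X), m τ| ≤ X * E' X + X ^ (1 - δ) := by
  obtain ⟨δ, B, T₀, hδ, hδ4, hB, h⟩ := hH
  refine ⟨δ / 64, by positivity, by linarith, ?_⟩
  have l1 := edges hk3 (δ := δ / 2) (by positivity) (by linarith)
  have l2 := (isLittleO_log_rpow_atTop (by positivity : (0:ℝ) < 2 * δ)).bound (by positivity : (0:ℝ) < (1 / (4 * B)) ^ 2)
  have l3 := (isLittleO_log_rpow_atTop (by positivity : (0:ℝ) < δ)).bound (by positivity : (0:ℝ) < 1 / (4 * (4 * k + 8)))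
  have l4 : ∀ᶠ X : ℝ in atTop, (6 : ℝ) ≤ X ^ (δ / 64) := (tendsto_rpow_atTop (by positivity : 0 < δ / 64)).eventually_ge_atTop 6
  have l2' := (tendsto_id.const_mul_atTop (by norm_num : (0:ℝ) < 2)).eventually l2
  filter_upwards [l1, l2', l3, l4, hE, eventually_ge_atTop (max 200 T₀)] with X h1 h2 h3 h4 hE hX u hu
  have hX200 : 200 ≤ X := (le_max_left _ _).trans hX
  have hXT : T₀ ≤ X := (le_max_right _ _).trans hX
  have hX0 : 0 < X := by linarith
  have hL1 : 1 ≤ Real.log X := by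
    rw [Real.le_log_iff_exp_le hX0]
    have := Real.exp_one_lt_d9
    linarith
  obtain ⟨Δ, hΔ⟩ : ∃ Δ, Δ = (2 * X) ^ (1 - δ) := ⟨_, rfl⟩
  have hΔ0 : 0 < Δ := by rw [hΔ]; positivity
  obtain ⟨r, hr⟩ : ∃ r, r = X ^ (1 - δ / 2) := ⟨_, rfl⟩
  rw [← hr] at h1
  have hr0 : 0 ≤ r := by rw [hr]; positivity
  obtain ⟨q1, q2⟩ := cut_signed hk hN hu hX200 hΔ0 hr0 h1.1
  have hsp0 : 0 < √Real.pi := Real.sqrt_pos.2 Real.pi_pos
  have hsp1 : 1 ≤ √Real.pi := by
    rw [Real.one_le_sqrt]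
    have := Real.pi_gt_three
    linarith
  -- condition on `Δ`
  have hwin : ∀ τ ∈ Icc X (2 * X), τ ^ (1 - δ) ≤ Δ ∧ B * Δ * √(Real.log τ) ≤ τ := by
    intro τ hτ
    have hτ0 : 0 < τ := by linarith [hτ.1]
    constructor
    · rw [hΔ]
      exact Real.rpow_le_rpow hτ0.le hτ.2 (by linarith)
    · simp only [id_eq] at h2
      have hl0 : 0 ≤ Real.log (2 * X) := Real.log_nonneg (by linarith)
      rw [Real.norm_of_nonneg hl0, Real.norm_of_nonneg (by positivity)] at h2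
      have h5 : √(Real.log τ) ≤ 1 / (4 * B) * (2 * X) ^ δ := by
        apply Real.sqrt_le_iff.2
        refine ⟨by positivity, ?_⟩
        refine (Real.log_le_log hτ0 hτ.2).trans (h2.trans (le_of_eq ?_))
        rw [mul_pow, ← Real.rpow_natCast ((2 * X) ^ δ), ← Real.rpow_mul (by positivity)]
        congr 2
        push_cast
        ring
      have h6 : Δ * (2 * X) ^ δ = 2 * X := by
        rw [hΔ, ← Real.rpow_add (by positivity)]
        norm_num
      calc B * Δ * √(Real.log τ) ≤ B * Δ * (1 / (4 * B) * (2 * X) ^ δ) := mul_le_mul_of_nonneg_left h5 (by positivity)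
        _ = 1 / 4 * (Δ * (2 * X) ^ δ) := by field_simp
        _ = X / 2 := by rw [h6]; ring
        _ ≤ τ := by linarith [hτ.1]
  -- main term
  have hmi : IntervalIntegrable m volume X (2 * X) := by
    apply ContinuousOn.intervalIntegrable
    apply hm.mono
    rw [uIcc_of_le (by linarith)]
    intro τ hτ
    exact lt_of_lt_of_le hX0 hτ.1
  have h5 : |(∫ τ in X..(2 * X), SG k N u τ Δ) - √Real.pi * Δ * (bb N u * ∫ τ in X..(2 * X), m τ)| ≤ Δ * E' X * X := by
    have e1 : (∫ τ in X..(2 * X), SG k N u τ Δ) - √Real.pi * Δ * (bb N u * ∫ τ in X..(2 * X), m τ) =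
        ∫ τ in X..(2 * X), (SG k N u τ Δ - √Real.pi * Δ * (bb N u * m τ)) := by
      rw [intervalIntegral.integral_sub q2 ((hmi.const_mul _).const_mul _), intervalIntegral.integral_const_mul,
        intervalIntegral.integral_const_mul]
    rw [e1]
    have h6 : ∀ τ ∈ uIoc X (2 * X), ‖SG k N u τ Δ - √Real.pi * Δ * (bb N u * m τ)‖ ≤ Δ * E' X := by
      intro τ hτ
      rw [uIoc_of_le (by linarith)] at hτ
      have hτ' : τ ∈ Icc X (2 * X) := ⟨hτ.1.le, hτ.2⟩
      obtain ⟨w1, w2⟩ := hwin τ hτ'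
      rw [Real.norm_eq_abs]
      refine (h u τ Δ hu (hXT.trans hτ'.1) w1 w2).trans ?_
      exact mul_le_mul_of_nonneg_left (hE.2 τ hτ') hΔ0.le
    have := intervalIntegral.norm_integral_le_of_norm_le_const h6
    rw [show |2 * X - X| = X by rw [two_mul, add_sub_cancel_right, abs_of_pos hX0]] at this
    rw [← Real.norm_eq_abs]
    exact this
  -- tails
  have h6 : Real.exp (-(r / Δ) ^ 2) * (mo k).real (Ioo (X / 2) (3 * X)) ≤ 1 := by
    have h7 : (mo k).real (Ioo (X / 2) (3 * X)) ≤ (3 * X) ^ (2 * k + 1) := by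
      have h8 : (mo k).real (Ioo (X / 2) (3 * X)) ≤ (mo k).real (Ioc 100 (3 * X)) := by
        apply measureReal_mono
        · intro t ht
          exact ⟨by linarith [ht.1], ht.2.le⟩
        · exact (lt_of_le_of_lt (measure_mono fun t h => h.2) (mo_Iic k (3 * X))).ne
      refine h8.trans ?_
      rw [mo_dy k le_rfl (by linarith)]
      have := growk k (T := 3 * X) (by linarith)
      rwa [Real.rpow_natCast] at this
    have h8 : (4 * k + 8) * Real.log X ≤ (r / Δ) ^ 2 := by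
      rw [Real.norm_of_nonneg (by linarith), Real.norm_of_nonneg (by positivity)] at h3
      have h9 : (4 * (k : ℝ) + 8) * Real.log X ≤ 1 / 4 * X ^ δ := by
        have : (4 * (k : ℝ) + 8) * Real.log X ≤ (4 * k + 8) * (1 / (4 * (4 * k + 8)) * X ^ δ) :=
          mul_le_mul_of_nonneg_left h3 (by positivity)
        refine this.trans (le_of_eq ?_)
        field_simp
      refine h9.trans ?_
      have h10 : Δ ≤ 2 * X ^ (1 - δ) := by
        rw [hΔ, Real.mul_rpow (by norm_num) hX0.le]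
        apply mul_le_mul_of_nonneg_right _ (by positivity)
        calc (2:ℝ) ^ (1 - δ) ≤ 2 ^ (1 : ℝ) := Real.rpow_le_rpow_of_exponent_le (by norm_num) (by linarith)
          _ = 2 := Real.rpow_one 2
      have h11 : 1 / 2 * X ^ (δ / 2) ≤ r / Δ := by
        rw [le_div_iff₀ hΔ0]
        calc 1 / 2 * X ^ (δ / 2) * Δ ≤ 1 / 2 * X ^ (δ / 2) * (2 * X ^ (1 - δ)) := mul_le_mul_of_nonneg_left h10 (by positivity)
          _ = X ^ (δ / 2) * X ^ (1 - δ) := by ring
          _ = r := by rw [hr, ← Real.rpow_add hX0]; congr 1; ring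
      calc 1 / 4 * X ^ δ = (1 / 2 * X ^ (δ / 2)) ^ 2 := by
            rw [mul_pow, ← Real.rpow_natCast (X ^ (δ / 2)), ← Real.rpow_mul hX0.le]
            congr 1
            · norm_num
            · congr 1
              push_cast
              ring
        _ ≤ (r / Δ) ^ 2 := pow_le_pow_left₀ (by positivity) h11 2
    have h9 : Real.exp (-(r / Δ) ^ 2) ≤ (X ^ (4 * k + 8))⁻¹ := by
      have e1 : (X ^ (4 * k + 8))⁻¹ = Real.exp (-((4 * k + 8) * Real.log X)) := by
        rw [Real.exp_neg]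
        congr 1
        have e2 : ((4 * (k : ℝ) + 8) * Real.log X) = ((4 * k + 8 : ℕ) : ℝ) * Real.log X := by push_cast; ring
        rw [e2, Real.exp_nat_mul, Real.exp_log hX0]
      rw [e1]
      apply Real.exp_le_exp.2
      linarith
    have h10 : (3 * X) ^ (2 * k + 1) ≤ X ^ (4 * k + 8) := by
      calc (3 * X) ^ (2 * k + 1) ≤ (X ^ 2) ^ (2 * k + 1) := pow_le_pow_left₀ (by positivity) (by nlinarith) _
        _ = X ^ (4 * k + 2) := by rw [← pow_mul]; congr 1; ring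
        _ ≤ X ^ (4 * k + 8) := pow_le_pow_right₀ (by linarith) (by omega)
    calc _ ≤ (X ^ (4 * k + 8))⁻¹ * X ^ (4 * k + 8) := by
          apply mul_le_mul h9 (h7.trans h10) measureReal_nonneg (by positivity)
      _ = 1 := inv_mul_cancel₀ (by positivity)
  obtain ⟨S, hS⟩ : ∃ S, S = Sn k N u X (2 * X) := ⟨_, rfl⟩
  obtain ⟨G, hG⟩ : ∃ G, G = ∫ τ in X..(2 * X), SG k N u τ Δ := ⟨_, rfl⟩
  obtain ⟨Mm, hMm⟩ : ∃ Mm, Mm = bb N u * ∫ τ in X..(2 * X), m τ := ⟨_, rfl⟩
  rw [← hS, ← hG] at q1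
  rw [← hG, ← hMm] at h5
  rw [← hS, ← hMm]
  have e2 : S - Mm = (S - 1 / (√Real.pi * Δ) * G) + 1 / (√Real.pi * Δ) * (G - √Real.pi * Δ * Mm) := by
    field_simp
    ring
  rw [e2]
  refine (abs_add_le _ _).trans ?_
  rw [abs_mul, abs_of_pos (by positivity : 0 < 1 / (√Real.pi * Δ))]
  have h7 : 1 / (√Real.pi * Δ) * |G - √Real.pi * Δ * Mm| ≤ X * E' X := by
    calc _ ≤ 1 / (√Real.pi * Δ) * (Δ * E' X * X) := mul_le_mul_of_nonneg_left h5 (by positivity)
      _ = X * E' X / √Real.pi := by field_simp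
      _ ≤ X * E' X := div_le_self (mul_nonneg hX0.le hE.1) hsp1
  have h8 : X ^ (1 - δ / 2 / 16) = X ^ (1 - δ / 32) := by congr 1; ring
  have h9 : 3 * (X ^ (1 - δ / 32) + 1) ≤ X ^ (1 - δ / 64) := by
    have e1 : X ^ (1 - δ / 32) * X ^ (δ / 64) = X ^ (1 - δ / 64) := by
      rw [← Real.rpow_add hX0]; congr 1; ring
    have h10 : 1 ≤ X ^ (1 - δ / 32) := Real.one_le_rpow (by linarith) (by linarith)
    nlinarith
  have h10 := h1.2
  rw [h8] at h10
  linarith

/-- dyadic summation -/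
lemma dyad {h D : ℝ → ℝ} {θ X₀ K : ℝ} (hθ0 : 0 ≤ θ) (hθ : θ < 1) (hX₀ : 0 < X₀) (hh : ∀ X, X₀ ≤ X → 0 ≤ h X ∧ h X ≤ θ * h (2 * X))
    (hK : ∀ T, X₀ ≤ T → T ≤ 2 * X₀ → |D T| ≤ K) (hD : ∀ X, X₀ ≤ X → |D (2 * X) - D X| ≤ h X) :
    ∀ T, X₀ ≤ T → |D T| ≤ K + h T / (1 - θ) := by
  have h1θ : 0 < 1 - θ := by linarith
  have key : ∀ n : ℕ, ∀ T, X₀ ≤ T → T ≤ 2 ^ (n + 1) * X₀ → |D T| ≤ K + h T / (1 - θ) := by
    intro n
    induction n with
    | zero =>
      intro T h1 h2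
      have := hK T h1 (by simpa using h2)
      have h3 : 0 ≤ h T / (1 - θ) := div_nonneg (hh T h1).1 h1θ.le
      linarith
    | succ n ih =>
      intro T h1 h2
      by_cases h3 : T ≤ 2 * X₀
      · have := hK T h1 h3
        have h4 : 0 ≤ h T / (1 - θ) := div_nonneg (hh T h1).1 h1θ.le
        linarith
      · rw [not_le] at h3
        have h4 : X₀ ≤ T / 2 := by linarith
        have h5 := ih (T / 2) h4 (by rw [pow_succ] at h2; linarith)
        have h6 := hD (T / 2) h4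
        have e : 2 * (T / 2) = T := by ring
        rw [e] at h6
        obtain ⟨h7, h8⟩ := hh (T / 2) h4
        rw [e] at h8
        have h9 : |D T| ≤ |D (T / 2)| + h (T / 2) := by
          have := abs_add_le (D T - D (T / 2)) (D (T / 2))
          rw [sub_add_cancel] at this
          linarith
        have h10 : h (T / 2) / (1 - θ) + h (T / 2) ≤ h T / (1 - θ) := by
          have h11 : h (T / 2) / (1 - θ) + h (T / 2) = h (T / 2) * (2 - θ) / (1 - θ) := by
            field_simp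
            ring
          rw [h11]
          apply div_le_div_of_nonneg_right _ h1θ.le
          have h12 : 0 ≤ h T := (hh T h1).1
          have h13 : h (T / 2) * (2 - θ) ≤ θ * h T * (2 - θ) := mul_le_mul_of_nonneg_right h8 (by linarith)
          nlinarith [mul_nonneg h12 (sq_nonneg (1 - θ))]
        linarith
  intro T hT
  obtain ⟨n, hn⟩ := pow_unbounded_of_one_lt (T / X₀) (by norm_num : (1:ℝ) < 2)
  apply key n T hT
  rw [div_lt_iff₀ hX₀] at hn
  have : (2:ℝ) ^ n * X₀ ≤ 2 ^ (n + 1) * X₀ := by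
    apply mul_le_mul_of_nonneg_right _ hX₀.le
    exact pow_le_pow_right₀ (by norm_num) (by omega)
  linarith

lemma Sn_ii (k N : ℕ) (u : ℂ) (a b : ℝ) : IntervalIntegrable (fun t => Zp k t * Real.sign ((zz t / u) ^ N).re) volume a b := by
  have hm : Measurable fun t => ((zz t / u) ^ N).re := Complex.measurable_re.comp ((zz_cont.measurable.div_const _).pow_const _)
  have hsgn : Measurable Real.sign := by
    unfold Real.sign
    exact Measurable.ite (measurableSet_lt measurable_id measurable_const) measurable_const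
      (Measurable.ite (measurableSet_lt measurable_const measurable_id) measurable_const measurable_const)
  have hI : IntervalIntegrable (Zp k) volume a b := (Zp_cont k).intervalIntegrable _ _
  refine hI.mono_fun ?_ ?_
  · exact ((Zp_cont k).measurable.mul (hsgn.comp hm)).aestronglyMeasurable
  · refine Eventually.of_forall fun t => ?_
    simp only [norm_mul]
    have : ‖Real.sign ((zz t / u) ^ N).re‖ ≤ 1 := by
      rcases Real.sign_apply_eq ((zz t / u) ^ N).re with h | h | h <;> rw [h] <;> norm_num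
    exact mul_le_of_le_one_right (norm_nonneg _) this

lemma Sn_abs (k N : ℕ) (u : ℂ) {a b : ℝ} (hab : a ≤ b) : |Sn k N u a b| ≤ ∫ t in a..b, Zp k t := by
  unfold Sn
  rw [← Real.norm_eq_abs]
  apply intervalIntegral.norm_integral_le_of_norm_le hab
  · refine Eventually.of_forall fun t _ => ?_
    rw [norm_mul, Real.norm_of_nonneg (Zp_nonneg k t)]
    have : ‖Real.sign ((zz t / u) ^ N).re‖ ≤ 1 := by
      rcases Real.sign_apply_eq ((zz t / u) ^ N).re with h | h | h <;> rw [h] <;> norm_num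
    exact mul_le_of_le_one_right (Zp_nonneg k t) this
  · exact (Zp_cont k).intervalIntegrable _ _

lemma bb_abs (N : ℕ) {u : ℂ} (hu : u ≠ 0) : |bb N u| ≤ 2 := by
  have hu1 : ‖((‖u‖ : ℂ) / u)‖ = 1 := by
    have : ‖u‖ ≠ 0 := norm_ne_zero_iff.2 hu
    rw [norm_div, Complex.norm_real, norm_norm, div_self this]
  have h1 : |(((‖u‖ : ℂ) / u) ^ N).re| ≤ 1 := by
    refine (Complex.abs_re_le_norm _).trans ?_
    rw [norm_pow, hu1, one_pow]
  unfold bb
  have hpi := Real.pi_gt_three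
  rw [abs_mul, abs_of_pos (by positivity)]
  have h2 : 4 / Real.pi ≤ 2 := by
    rw [div_le_iff₀ (by linarith)]
    linarith
  calc _ ≤ 2 * 1 := mul_le_mul h2 h1 (abs_nonneg _) (by norm_num)
    _ = 2 := by norm_num

/-- the signed moment on `[0, T]` -/
theorem total {k N : ℕ} (hk : 1 ≤ k) (hk3 : k ≤ 3) (hN : 1 ≤ N) {m E E' : ℝ → ℝ} (hm : ContinuousOn m (Ioi 0))
    (hH : Hyp k N m E) (hE : ∀ᶠ X : ℝ in atTop, 0 ≤ E' X ∧ ∀ τ ∈ Icc X (2 * X), E τ ≤ E' X)
    (hE2 : ∀ᶠ X : ℝ in atTop, X * E' X ≤ 3 / 4 * (2 * X * E' (2 * X))) :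
    ∃ δ K T₀ : ℝ, 0 < δ ∧ δ ≤ 1 / 4 ∧ 0 ≤ K ∧ ∀ (u : ℂ) (T : ℝ), u ≠ 0 → T₀ ≤ T →
      |Sn k N u 0 T - bb N u * ∫ τ in (1 : ℝ)..T, m τ| ≤ K + 4 * (T * E' T + T ^ (1 - δ)) := by
  obtain ⟨δ, hδ, hδ4, hs⟩ := step hk hk3 hN hm hH hE
  obtain ⟨X₀, hX₀⟩ := eventually_atTop.1 (hs.and (hE2.and (hE.and (eventually_ge_atTop 1))))
  obtain ⟨X1, hX1⟩ : ∃ X1, X1 = max X₀ 1 := ⟨_, rfl⟩
  have h11 : 1 ≤ X1 := by rw [hX1]; exact le_max_right _ _
  have h01 : X₀ ≤ X1 := by rw [hX1]; exact le_max_left _ _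
  have hmi : ∀ a b : ℝ, 1 ≤ a → 1 ≤ b → IntervalIntegrable m volume a b := by
    intro a b ha hb
    apply ContinuousOn.intervalIntegrable
    apply hm.mono
    intro τ hτ
    have := hτ.1
    exact lt_of_lt_of_le (by norm_num : (0:ℝ) < 1) ((le_min ha hb).trans this)
  obtain ⟨K, hK⟩ : ∃ K, K = (∫ t in (0:ℝ)..(2 * X1), Zp k t) + 2 * ∫ τ in (1:ℝ)..(2 * X1), |m τ| := ⟨_, rfl⟩
  have hK0 : 0 ≤ K := by
    rw [hK]
    have h1 : 0 ≤ ∫ t in (0:ℝ)..(2 * X1), Zp k t := intervalIntegral.integral_nonneg (by linarith) fun t _ => Zp_nonneg k t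
    have h2 : 0 ≤ ∫ τ in (1:ℝ)..(2 * X1), |m τ| := intervalIntegral.integral_nonneg (by linarith) fun t _ => abs_nonneg _
    linarith
  refine ⟨δ, K, X1, hδ, hδ4, hK0, fun u T hu hT => ?_⟩
  have hrp : ∀ X : ℝ, X1 ≤ X → X ^ (1 - δ) ≤ 3 / 4 * (2 * X) ^ (1 - δ) := by
    intro X hX
    have hX0 : 0 < X := by linarith
    rw [Real.mul_rpow (by norm_num) hX0.le, ← mul_assoc]
    apply le_mul_of_one_le_left (by positivity)
    have h1 : (2:ℝ) ^ (3 / 4 : ℝ) ≤ 2 ^ (1 - δ) := Real.rpow_le_rpow_of_exponent_le (by norm_num) (by linarith)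
    have h2 : (4 / 3 : ℝ) ≤ 2 ^ (3 / 4 : ℝ) := by
      have h3 : ((4 / 3 : ℝ) ^ (4 : ℕ)) ≤ ((2:ℝ) ^ (3 / 4 : ℝ)) ^ (4 : ℕ) := by
        rw [← Real.rpow_natCast ((2:ℝ) ^ (3 / 4 : ℝ)), ← Real.rpow_mul (by norm_num)]
        norm_num
      exact le_of_pow_le_pow_left₀ (by norm_num) (by positivity) h3
    linarith
  have hd := dyad (h := fun X => X * E' X + X ^ (1 - δ)) (D := fun T => Sn k N u 0 T - bb N u * ∫ τ in (1 : ℝ)..T, m τ)
    (θ := 3 / 4) (X₀ := X1) (K := K) (by norm_num) (by norm_num) (by linarith) (fun X hX => by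
      obtain ⟨-, g1, g2, g3⟩ := hX₀ X (h01.trans hX)
      have hX0 : 0 < X := by linarith
      have h1 : 0 ≤ X * E' X := mul_nonneg hX0.le g2.1
      have h2 : 0 ≤ X ^ (1 - δ) := by positivity
      refine ⟨by positivity, ?_⟩
      have := hrp X hX
      linarith) (fun T' h1 h2 => by
      have h3 : |Sn k N u 0 T'| ≤ ∫ t in (0:ℝ)..(2 * X1), Zp k t := by
        refine (Sn_abs k N u (by linarith)).trans ?_
        apply intervalIntegral.integral_mono_interval le_rfl (by linarith) h2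
        · exact Eventually.of_forall fun t => Zp_nonneg k t
        · exact (Zp_cont k).intervalIntegrable _ _
      have h4 : |bb N u * ∫ τ in (1 : ℝ)..T', m τ| ≤ 2 * ∫ τ in (1:ℝ)..(2 * X1), |m τ| := by
        rw [abs_mul]
        apply mul_le_mul (bb_abs N hu) _ (abs_nonneg _) (by norm_num)
        refine (intervalIntegral.abs_integral_le_integral_abs (by linarith)).trans ?_
        apply intervalIntegral.integral_mono_interval le_rfl (by linarith) h2
        · exact Eventually.of_forall fun t => abs_nonneg _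
        · exact (hmi 1 (2 * X1) le_rfl (by linarith)).abs
      rw [hK]
      exact (abs_sub _ _).trans (add_le_add h3 h4)) (fun X hX => by
      obtain ⟨g0, -, -, g3⟩ := hX₀ X (h01.trans hX)
      have g4 := g0 u hu
      have e1 : Sn k N u 0 (2 * X) - Sn k N u 0 X = Sn k N u X (2 * X) := by
        unfold Sn
        rw [← intervalIntegral.integral_add_adjacent_intervals (Sn_ii k N u 0 X) (Sn_ii k N u X (2 * X))]
        ring
      have e2 : (∫ τ in (1 : ℝ)..(2 * X), m τ) - ∫ τ in (1 : ℝ)..X, m τ = ∫ τ in X..(2 * X), m τ := by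
        rw [← intervalIntegral.integral_add_adjacent_intervals (hmi 1 X le_rfl g3) (hmi X (2 * X) g3 (by linarith))]
        ring
      have e3 : Sn k N u 0 (2 * X) - bb N u * (∫ τ in (1 : ℝ)..(2 * X), m τ) - (Sn k N u 0 X - bb N u * ∫ τ in (1 : ℝ)..X, m τ) =
          Sn k N u X (2 * X) - bb N u * ∫ τ in X..(2 * X), m τ := by
        rw [← e1, ← e2]; ring
      rw [e3]
      exact g4) T hT
  refine hd.trans (le_of_eq ?_)
  ring

end Pool.Agent.N30.OD
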