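import Pool.Agent.N30.OD.De
import Pool.Agent.TH158.FM.Main

set_option autoImplicit false

/-! Sharp cut-off for the signed moments of order at most three. -/

open Complex MeasureTheory Set Filter Topology

namespace Pool.Agent.N30.OD

open Pool.Agent.W188.QS Pool.Agent.N30.MZ

/-- the measures between `0` and `mo k` -/
lemma real_le {k : ℕ} {ν : Measure ℝ} (hν : ν ≤ mo k) {S : Set ℝ} {x : ℝ} (hS : S ⊆ Iic x) : ν.real S ≤ (mo k).real S := by
  rw [measureReal_def, measureReal_def]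
  apply ENNReal.toReal_mono
  · exact (lt_of_le_of_lt (measure_mono hS) (mo_Iic k x)).ne
  · exact hν S

/-- the edges -/
def Ed (X r : ℝ) : Set ℝ := Ioo (X - r) (X + r) ∪ Ioo (2 * X - r) (2 * X + r)

lemma cut {k : ℕ} {ν : Measure ℝ} (hν : ν ≤ mo k) {X Δ r : ℝ} (hX : 0 < X) (hΔ : 0 < Δ) (hr : 0 ≤ r) (hrX : r ≤ X / 4) :
    |ν.real (Ioc X (2 * X)) - 1 / (√Real.pi * Δ) * ∫ τ in X..(2 * X), (∫ t in Ioo (τ / 2) (3 * τ / 2), gg τ Δ t ∂ν)| ≤
      (mo k).real (Ed X r) + Real.exp (-(r / Δ) ^ 2) * (mo k).real (Ioo (X / 2) (3 * X)) := by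
  have hfin : ∀ x : ℝ, ν (Iic x) < ⊤ := fun x => lt_of_le_of_lt (hν _) (mo_Iic k x)
  have hfin' : ∀ {S : Set ℝ} {x : ℝ}, S ⊆ Iic x → ν S < ⊤ := fun hS => lt_of_le_of_lt (measure_mono hS) (hfin _)
  obtain ⟨f1, -, f3⟩ := Pool.Agent.W928.QS.qs_fub ν hfin X (2 * X) Δ hX (by linarith) hΔ
  have hsp : 0 < √Real.pi * Δ := by
    have := Real.sqrt_pos.2 Real.pi_pos
    positivity
  rw [f3, ← mul_assoc, one_div, inv_mul_cancel₀ hsp.ne', one_mul]
  obtain ⟨E, hE⟩ : ∃ E, E = Real.exp (-(r / Δ) ^ 2) := ⟨_, rfl⟩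
  have hE0 : 0 < E := by rw [hE]; exact Real.exp_pos _
  rw [← hE]
  have hEdm : MeasurableSet (Ed X r) := measurableSet_Ioo.union measurableSet_Ioo
  have hEds : Ed X r ⊆ Iic (3 * X) := by
    rintro t (h | h)
    · exact (h.2.trans_le (by linarith)).le
    · exact (h.2.trans_le (by linarith)).le
  -- pointwise
  have hpt : ∀ t, |(Ioc X (2 * X)).indicator (fun _ => (1 : ℝ)) t - PC X (2 * X) Δ t| ≤
      (Ed X r).indicator (fun _ => (1 : ℝ)) t + (Ioo (X / 2) (3 * X)).indicator (fun _ => E) t := by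
    intro t
    obtain ⟨p1, p2, p3, p4, p5, p6⟩ := Pool.Agent.W864.QS.qs_pc X (2 * X) Δ r t hX (by linarith) (by linarith) hΔ hr hrX
    rw [← hE] at p5 p6
    have i1 : 0 ≤ (Ioo (X / 2) (3 * X)).indicator (fun _ => E) t := indicator_nonneg (fun _ _ => hE0.le) t
    have i2 : 0 ≤ (Ed X r).indicator (fun _ => (1 : ℝ)) t := indicator_nonneg (fun _ _ => by norm_num) t
    by_cases hEt : t ∈ Ed X r
    · rw [indicator_of_mem hEt]
      have : |(Ioc X (2 * X)).indicator (fun _ => (1 : ℝ)) t - PC X (2 * X) Δ t| ≤ 1 := by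
        rw [abs_le]
        by_cases h : t ∈ Ioc X (2 * X)
        · rw [indicator_of_mem h]; constructor <;> linarith
        · rw [indicator_of_notMem h]; constructor <;> linarith
      linarith
    · rw [indicator_of_notMem hEt, zero_add]
      have hE1 : ¬ (X - r < t ∧ t < X + r) := fun h => hEt (Or.inl h)
      have hE2 : ¬ (2 * X - r < t ∧ t < 2 * X + r) := fun h => hEt (Or.inr h)
      by_cases h : t ∈ Ioc X (2 * X)
      · rw [indicator_of_mem h]
        have g1 : X + r ≤ t := by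
          by_contra hc
          rw [not_le] at hc
          by_cases hr0 : r = 0
          · subst hr0
            linarith [h.1]
          · exact hE1 ⟨by have := h.1; have : 0 < r := lt_of_le_of_ne hr (Ne.symm hr0); linarith, hc⟩
        by_cases hr0 : r = 0
        · have e1 : E = 1 := by rw [hE, hr0]; simp
          have hm : t ∈ Ioo (X / 2) (3 * X) := ⟨by linarith [h.1], by linarith [h.2]⟩
          rw [indicator_of_mem hm, e1, abs_le]
          constructor <;> linarith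
        · have hr1 : 0 < r := lt_of_le_of_ne hr (Ne.symm hr0)
          have g2 : t ≤ 2 * X - r := by
            by_contra hc
            rw [not_le] at hc
            exact hE2 ⟨hc, by linarith [h.2]⟩
          have hm : t ∈ Ioo (X / 2) (3 * X) := ⟨by linarith [h.1], by linarith [h.2]⟩
          rw [indicator_of_mem hm, abs_le]
          have := p5 g1 g2
          constructor <;> linarith
      · rw [indicator_of_notMem h, zero_sub, abs_neg, abs_of_nonneg p1]
        have g1 : t ≤ X ∨ 2 * X < t := by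
          by_contra hc
          rw [not_or, not_le, not_lt] at hc
          exact h hc
        have g2 : t ≤ X - r ∨ 2 * X + r ≤ t := by
          rcases g1 with g | g
          · left
            by_contra hc
            rw [not_le] at hc
            by_cases hr0 : r = 0
            · subst hr0; linarith
            · have hr1 : 0 < r := lt_of_le_of_ne hr (Ne.symm hr0)
              exact hE1 ⟨hc, by linarith⟩
          · right
            by_contra hc
            rw [not_le] at hc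
            exact hE2 ⟨by linarith, hc⟩
        by_cases hm : t ∈ Ioo (X / 2) (3 * X)
        · rw [indicator_of_mem hm]
          exact p6 g2
        · rw [indicator_of_notMem hm]
          rw [mem_Ioo, not_and_or, not_lt, not_lt] at hm
          rcases hm with hm | hm
          · exact (p3 hm).le
          · exact (p4 (by linarith)).le
  have hI1 : Integrable ((Ioc X (2 * X)).indicator (fun _ => (1 : ℝ))) ν := by
    rw [integrable_indicator_iff measurableSet_Ioc, integrableOn_const_iff (by norm_num)]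
    right
    exact hfin' (x := 2 * X) fun t h => h.2
  have hI2 : Integrable ((Ed X r).indicator (fun _ => (1 : ℝ))) ν := by
    rw [integrable_indicator_iff hEdm, integrableOn_const_iff (by norm_num)]
    right
    exact hfin' hEds
  have hI3 : Integrable ((Ioo (X / 2) (3 * X)).indicator (fun _ => E)) ν := by
    rw [integrable_indicator_iff measurableSet_Ioo, integrableOn_const_iff (by simp)]
    right
    exact hfin' (x := 3 * X) fun t h => h.2.le
  have e1 : ν.real (Ioc X (2 * X)) = ∫ t, (Ioc X (2 * X)).indicator (fun _ => (1 : ℝ)) t ∂ν := by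
    rw [integral_indicator measurableSet_Ioc, setIntegral_const, smul_eq_mul, mul_one]
  rw [e1, ← integral_sub hI1 f1, ← Real.norm_eq_abs]
  calc ‖∫ t, ((Ioc X (2 * X)).indicator (fun _ => (1 : ℝ)) t - PC X (2 * X) Δ t) ∂ν‖ ≤
      ∫ t, ((Ed X r).indicator (fun _ => (1 : ℝ)) t + (Ioo (X / 2) (3 * X)).indicator (fun _ => E) t) ∂ν := by
        apply norm_integral_le_of_norm_le (hI2.add hI3)
        exact Eventually.of_forall fun t => by rw [Real.norm_eq_abs]; exact hpt t
    _ = ν.real (Ed X r) + E * ν.real (Ioo (X / 2) (3 * X)) := by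
        rw [integral_add hI2 hI3, integral_indicator hEdm, integral_indicator measurableSet_Ioo, setIntegral_const, setIntegral_const,
          smul_eq_mul, smul_eq_mul, mul_one, mul_comm E]
    _ ≤ _ := add_le_add (real_le hν hEds) (mul_le_mul_of_nonneg_left (real_le hν (x := 3 * X) fun t h => h.2.le) hE0.le)

/-- the signed integral -/
noncomputable def Sn (k N : ℕ) (u : ℂ) (a b : ℝ) : ℝ := ∫ t in a..b, Zp k t * Real.sign ((zz t / u) ^ N).re

lemma nus_le (k N : ℕ) (u : ℂ) : nus k N u ≤ mo k := Measure.restrict_le_self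

lemma cut_signed {k N : ℕ} (hk : 1 ≤ k) (hN : 1 ≤ N) {u : ℂ} (hu : u ≠ 0) {X Δ r : ℝ} (hX : 200 ≤ X) (hΔ : 0 < Δ) (hr : 0 ≤ r)
    (hrX : r ≤ X / 4) :
    |Sn k N u X (2 * X) - 1 / (√Real.pi * Δ) * ∫ τ in X..(2 * X), SG k N u τ Δ| ≤
      3 * ((mo k).real (Ed X r) + Real.exp (-(r / Δ) ^ 2) * (mo k).real (Ioo (X / 2) (3 * X))) ∧
    IntervalIntegrable (fun τ => SG k N u τ Δ) volume X (2 * X) := by
  have h1 := cut (k := k) (ν := nus k N u) (nus_le k N u) (X := X) (Δ := Δ) (r := r) (by linarith) hΔ hr hrX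
  have h2 := cut (k := k) (ν := mo k) le_rfl (X := X) (Δ := Δ) (r := r) (by linarith) hΔ hr hrX
  have hf1 : ∀ x : ℝ, nus k N u (Iic x) < ⊤ := nus_fin k N u
  obtain ⟨-, i1, -⟩ := Pool.Agent.W928.QS.qs_fub (nus k N u) hf1 X (2 * X) Δ (by linarith) (by linarith) hΔ
  obtain ⟨-, i2, -⟩ := Pool.Agent.W928.QS.qs_fub (mo k) (mo_Iic k) X (2 * X) Δ (by linarith) (by linarith) hΔ
  have eSG : ∀ τ ∈ uIcc X (2 * X), SG k N u τ Δ = 2 * (∫ t in Ioo (τ / 2) (3 * τ / 2), gg τ Δ t ∂(nus k N u)) -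
      ∫ t in Ioo (τ / 2) (3 * τ / 2), gg τ Δ t ∂(mo k) := by
    intro τ hτ
    rw [uIcc_of_le (by linarith)] at hτ
    have hτ1 : 200 ≤ τ := by linarith [hτ.1]
    have hsub' : Ioo (τ / 2) (3 * τ / 2) ⊆ Ioi (100 : ℝ) := fun t ht => by
      have := ht.1
      simp only [mem_Ioi]
      linarith
    have e3 : ∫ t in Ioo (τ / 2) (3 * τ / 2) ∩ Sd N u, Zp k t * gg τ Δ t =
        ∫ t in Ioc (τ / 2) (3 * τ / 2) ∩ Sd N u, Zp k t * gg τ Δ t := by
      apply setIntegral_congr_set
      exact Ioo_ae_eq_Ioc.inter (ae_eq_refl _)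
    rw [nus_int k N u _ measurableSet_Ioo hsub', e3, side_int hk hN hu (Pool.Agent.N30.MZ.gg_cont τ Δ) (by linarith),
      mo_int k _ measurableSet_Ioo hsub', ← integral_Ioc_eq_integral_Ioo]
    unfold SG
    rw [intervalIntegral.integral_of_le (by linarith)]
    change (∫ t in Ioc (τ / 2) (3 * τ / 2), Zp k t * Real.sign ((zz t / u) ^ N).re * gg τ Δ t) = _
    ring
  have eS : Sn k N u X (2 * X) = 2 * (nus k N u).real (Ioc X (2 * X)) - (mo k).real (Ioc X (2 * X)) := by
    have h3 := side_int hk hN hu (f := fun _ => 1) continuous_const (a := X) (b := 2 * X) (by linarith)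
    simp only [mul_one] at h3
    rw [nus_dy k N u (by linarith), h3, mo_dy k (by linarith) (by linarith)]
    unfold Sn
    rw [intervalIntegral.integral_of_le (by linarith), intervalIntegral.integral_of_le (by linarith)]
    ring
  have hint : IntervalIntegrable (fun τ => SG k N u τ Δ) volume X (2 * X) := by
    have h4 := (i1.const_mul 2).sub i2
    refine h4.congr ?_
    intro τ hτ
    exact (eSG τ (uIoc_subset_uIcc hτ)).symm
  refine ⟨?_, hint⟩
  have e4 : ∫ τ in X..(2 * X), SG k N u τ Δ = 2 * (∫ τ in X..(2 * X), ∫ t in Ioo (τ / 2) (3 * τ / 2), gg τ Δ t ∂(nus k N u)) -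
      ∫ τ in X..(2 * X), ∫ t in Ioo (τ / 2) (3 * τ / 2), gg τ Δ t ∂(mo k) := by
    rw [intervalIntegral.integral_congr eSG, intervalIntegral.integral_sub (i1.const_mul 2) i2, intervalIntegral.integral_const_mul]
  rw [eS, e4]
  obtain ⟨a, ha⟩ : ∃ a, a = (nus k N u).real (Ioc X (2 * X)) := ⟨_, rfl⟩
  obtain ⟨b, hb⟩ : ∃ b, b = (mo k).real (Ioc X (2 * X)) := ⟨_, rfl⟩
  obtain ⟨c, hc⟩ : ∃ c, c = ∫ τ in X..(2 * X), ∫ t in Ioo (τ / 2) (3 * τ / 2), gg τ Δ t ∂(nus k N u) := ⟨_, rfl⟩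
  obtain ⟨d, hd⟩ : ∃ d, d = ∫ τ in X..(2 * X), ∫ t in Ioo (τ / 2) (3 * τ / 2), gg τ Δ t ∂(mo k) := ⟨_, rfl⟩
  rw [← ha, ← hc] at h1
  rw [← hb, ← hd] at h2
  rw [← ha, ← hb, ← hc, ← hd]
  have e5 : 2 * a - b - 1 / (√Real.pi * Δ) * (2 * c - d) = 2 * (a - 1 / (√Real.pi * Δ) * c) - (b - 1 / (√Real.pi * Δ) * d) := by ring
  rw [e5]
  refine (abs_sub _ _).trans ?_
  rw [abs_mul, abs_of_pos (by norm_num : (0:ℝ) < 2)]
  linarith

/-- interpolation -/
lemma Zp_interp {k : ℕ} (hk : k ≤ 3) (t : ℝ) {e : ℝ} (he : 0 < e) (he1 : e ≤ 1) : Zp k t ≤ e * Zp 4 t + 2 / e ^ 3 := by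
  unfold Zp
  obtain ⟨x, hx⟩ : ∃ x, x = ‖zz t‖ := ⟨_, rfl⟩
  rw [← hx]
  have hx0 : 0 ≤ x := by rw [hx]; exact norm_nonneg _
  have h1 : x ^ k ≤ 1 + x ^ 3 := by
    rcases le_total x 1 with h | h
    · have : x ^ k ≤ 1 := pow_le_one₀ hx0 h
      have : 0 ≤ x ^ 3 := by positivity
      linarith
    · have : x ^ k ≤ x ^ 3 := pow_le_pow_right₀ h hk
      linarith
  have h2 : x ^ 3 ≤ e * x ^ 4 + 1 / e ^ 3 := by
    rcases le_total x (1 / e) with h | h
    · have h3 : x ^ 3 ≤ (1 / e) ^ 3 := pow_le_pow_left₀ hx0 h 3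
      have h4 : (1 / e) ^ 3 = 1 / e ^ 3 := by rw [div_pow, one_pow]
      have h5 : 0 ≤ e * x ^ 4 := by positivity
      linarith
    · have h3 : 1 ≤ e * x := by
        rw [div_le_iff₀ he] at h
        linarith
      have h4 : x ^ 3 ≤ e * x ^ 4 := by
        have : x ^ 3 * 1 ≤ x ^ 3 * (e * x) := mul_le_mul_of_nonneg_left h3 (by positivity)
        linarith [this, (by ring : x ^ 3 * (e * x) = e * x ^ 4)]
      have h5 : 0 ≤ 1 / e ^ 3 := by positivity
      linarith
  have h3 : 1 ≤ 1 / e ^ 3 := by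
    rw [le_div_iff₀ (by positivity), one_mul]
    exact pow_le_one₀ he.le he1
  have h4 : 2 / e ^ 3 = 1 / e ^ 3 + 1 / e ^ 3 := by ring
  linarith

/-- the edges are negligible -/
theorem edges {k : ℕ} (hk : k ≤ 3) {δ : ℝ} (hδ : 0 < δ) (hδ1 : δ ≤ 1 / 2) : ∀ᶠ X : ℝ in atTop,
    X ^ (1 - δ) ≤ X / 4 ∧ (mo k).real (Ed X (X ^ (1 - δ))) ≤ X ^ (1 - δ / 16) := by
  have l1 := (isLittleO_log_rpow_rpow_atTop 4 (by positivity : (0:ℝ) < δ / 16)).bound (by norm_num : (0:ℝ) < 1 / 10000)
  have l2 : ∀ᶠ X : ℝ in atTop, (32 : ℝ) ≤ X ^ (δ / 8) := (tendsto_rpow_atTop (by positivity : 0 < δ / 8)).eventually_ge_atTop 32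
  filter_upwards [l1, l2, eventually_ge_atTop 2000] with X h1 h2 hX
  have hX0 : 0 < X := by linarith
  have hL1 : 0 ≤ Real.log X := Real.log_nonneg (by linarith)
  have hsmall : X ^ (1 - δ) ≤ X / 4 := by
    have h3 : X ^ (1 - δ) * X ^ δ = X := by rw [← Real.rpow_add hX0]; norm_num
    have h4 : X ^ (δ / 8) ≤ X ^ δ := Real.rpow_le_rpow_of_exponent_le (by linarith) (by linarith)
    have h5 : 0 < X ^ (1 - δ) := by positivity
    nlinarith
  refine ⟨hsmall, ?_⟩
  obtain ⟨r, hr⟩ : ∃ r, r = X ^ (1 - δ) := ⟨_, rfl⟩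
  have hr0 : 0 < r := by rw [hr]; positivity
  rw [← hr] at hsmall ⊢
  have hEdm : MeasurableSet (Ed X r) := measurableSet_Ioo.union measurableSet_Ioo
  have hsub : Ed X r ⊆ Ioc 100 (3 * X) := by
    rintro t (h | h)
    · exact ⟨by linarith [h.1], by linarith [h.2]⟩
    · exact ⟨by linarith [h.1], by linarith [h.2]⟩
  rw [mo_real k hEdm (hsub.trans fun t h => h.1)]
  obtain ⟨e, he⟩ : ∃ e, e = X ^ (-(δ / 8)) := ⟨_, rfl⟩
  have he0 : 0 < e := by rw [he]; positivity
  have he1 : e ≤ 1 := by rw [he]; exact Real.rpow_le_one_of_one_le_of_nonpos (by linarith) (by linarith)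
  have hZi : ∀ j : ℕ, IntegrableOn (Zp j) (Ed X r) := fun j => ((Zp_cont j).integrableOn_Ioc (a := 100) (b := 3 * X)).mono_set hsub
  have hvol : (volume.restrict (Ed X r)).real univ ≤ 4 * r := by
    rw [measureReal_restrict_apply MeasurableSet.univ, univ_inter]
    unfold Ed
    refine (measureReal_union_le _ _).trans ?_
    rw [Real.volume_real_Ioo_of_le (by linarith), Real.volume_real_Ioo_of_le (by linarith)]
    linarith
  have hfinE : IntegrableOn (fun _ : ℝ => 2 / e ^ 3) (Ed X r) := by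
    rw [integrableOn_const_iff (by simp)]
    right
    refine lt_of_le_of_lt (measure_mono hsub) ?_
    rw [Real.volume_Ioc]
    exact ENNReal.ofReal_lt_top
  have h3 : ∫ t in Ed X r, Zp k t ≤ e * (∫ t in Ed X r, Zp 4 t) + 2 / e ^ 3 * (4 * r) := by
    calc ∫ t in Ed X r, Zp k t ≤ ∫ t in Ed X r, (e * Zp 4 t + 2 / e ^ 3) := by
          apply integral_mono (hZi k) (((hZi 4).const_mul e).add hfinE)
          intro t
          exact Zp_interp hk t he0 he1
      _ = e * (∫ t in Ed X r, Zp 4 t) + (volume.restrict (Ed X r)).real univ * (2 / e ^ 3) := by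
          rw [integral_add ((hZi 4).const_mul e) hfinE, integral_const_mul, integral_const, smul_eq_mul]
      _ ≤ _ := by
          rw [mul_comm ((volume.restrict (Ed X r)).real univ)]
          apply add_le_add le_rfl
          exact mul_le_mul_of_nonneg_left hvol (by positivity)
  have h4 : ∫ t in Ed X r, Zp 4 t ≤ ∫ t in (0:ℝ)..(3 * X), Zp 4 t := by
    rw [intervalIntegral.integral_of_le (by linarith)]
    apply setIntegral_mono_set ((Zp_cont 4).integrableOn_Ioc)
    · exact Eventually.of_forall fun t => Zp_nonneg 4 t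
    · exact (hsub.trans (Ioc_subset_Ioc_left (by norm_num))).eventuallyLE
  have h5 : ∫ t in (0:ℝ)..(3 * X), Zp 4 t ≤ 4 / 5 * (3 * X * Real.log (3 * X) ^ 4) := by
    have := Pool.Agent.TH158.FM.fourth_all (3 * X) (by linarith)
    have e1 : ∀ t : ℝ, ‖riemannZeta (Pool.Agent.TH158.FM.pt (1 / 2) t)‖ ^ 4 = Zp 4 t := by
      intro t
      unfold Zp zz cp Pool.Agent.TH158.FM.pt
      push_cast
      rfl
    simp only [e1] at this
    exact this
  have hlog : Real.log (3 * X) ≤ 2 * Real.log X := by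
    rw [Real.log_mul (by norm_num) hX0.ne']
    have : Real.log 3 ≤ Real.log X := Real.log_le_log (by norm_num) (by linarith)
    linarith
  have h6 : Real.log (3 * X) ^ 4 ≤ 16 * Real.log X ^ 4 := by
    calc _ ≤ (2 * Real.log X) ^ 4 := pow_le_pow_left₀ (Real.log_nonneg (by linarith)) hlog 4
      _ = _ := by ring
  have h7 : Real.log X ^ 4 ≤ 1 / 10000 * X ^ (δ / 16) := by
    rw [Real.norm_of_nonneg (by positivity), Real.norm_of_nonneg (by positivity)] at h1
    have e1 : Real.log X ^ (4 : ℝ) = Real.log X ^ 4 := by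
      rw [show (4 : ℝ) = ((4 : ℕ) : ℝ) by norm_num, Real.rpow_natCast]
    rw [e1] at h1
    exact h1
  have h8 : e * (4 / 5 * (3 * X * (16 * (1 / 10000 * X ^ (δ / 16))))) ≤ 1 / 2 * X ^ (1 - δ / 16) := by
    have e1 : e * X * X ^ (δ / 16) = X ^ (1 - δ / 16) := by
      rw [he]
      nth_rewrite 2 [← Real.rpow_one X]
      rw [← Real.rpow_add hX0, ← Real.rpow_add hX0]
      congr 1
      ring
    have : 0 < X ^ (1 - δ / 16) := by positivity
    calc _ = (4 / 5 * 3 * 16 / 10000) * (e * X * X ^ (δ / 16)) := by ring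
      _ = (4 / 5 * 3 * 16 / 10000) * X ^ (1 - δ / 16) := by rw [e1]
      _ ≤ _ := by nlinarith
  have h9 : 2 / e ^ 3 * (4 * r) ≤ 1 / 2 * X ^ (1 - δ / 16) := by
    have e1 : 1 / e ^ 3 = X ^ (3 * δ / 8) := by
      rw [he, ← Real.rpow_natCast, ← Real.rpow_mul hX0.le, one_div, ← Real.rpow_neg hX0.le]
      congr 1
      push_cast
      ring
    have e2 : 2 / e ^ 3 * (4 * r) = 8 * (X ^ (3 * δ / 8) * X ^ (1 - δ)) := by
      rw [← e1, ← hr]; ring
    rw [e2, ← Real.rpow_add hX0]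
    have e3 : X ^ (3 * δ / 8 + (1 - δ)) * X ^ (δ / 8) ≤ X ^ (1 - δ / 16) := by
      rw [← Real.rpow_add hX0]
      apply Real.rpow_le_rpow_of_exponent_le (by linarith)
      linarith
    have h10 : 0 < X ^ (3 * δ / 8 + (1 - δ)) := by positivity
    nlinarith
  calc ∫ t in Ed X r, Zp k t ≤ e * (∫ t in Ed X r, Zp 4 t) + 2 / e ^ 3 * (4 * r) := h3
    _ ≤ e * (4 / 5 * (3 * X * (16 * (1 / 10000 * X ^ (δ / 16))))) + 2 / e ^ 3 * (4 * r) := by
        apply add_le_add _ le_rfl
        apply mul_le_mul_of_nonneg_left _ he0.le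
        refine h4.trans (h5.trans ?_)
        apply mul_le_mul_of_nonneg_left _ (by norm_num)
        apply mul_le_mul_of_nonneg_left _ (by positivity)
        refine h6.trans ?_
        exact mul_le_mul_of_nonneg_left h7 (by norm_num)
    _ ≤ _ := by linarith

end Pool.Agent.N30.OD
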