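import Pool.Agent.N30.OD.Cv

set_option autoImplicit false

/-! The signed moments of order at most three on `[0, T]`. -/

open Complex MeasureTheory Set Filter Topology

namespace Pool.Agent.N30.OD

open Pool.Agent.W188.QS Pool.Agent.N30.MZ

lemma qq_le {k N : ℕ} (hk : 1 ≤ k) (hk3 : k ≤ 3) (hN : 1 ≤ N) : qq k N + 1 / 4 ≤ (k : ℝ) ^ 2 / 4 := by
  unfold qq
  split_ifs with h
  · have : k = 3 := by omega
    subst this
    norm_num
  · have : (1 : ℝ) ≤ k := by exact_mod_cast hk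
    nlinarith

/-- all odd (even) numbers of lines -/
theorem signed_all {k N : ℕ} (hk : 1 ≤ k) (hk3 : k ≤ 3) (hN : 1 ≤ N) (hNk : N % 2 = k % 2) :
    ∃ C T₀ : ℝ, 0 ≤ C ∧ ∀ (u : ℂ) (T : ℝ), u ≠ 0 → T₀ ≤ T → |Sn k N u 0 T| ≤ C * (T * Real.log T ^ (qq k N)) := by
  obtain ⟨K, δ, B, T₁, hK, hδ, hδ4, hB, hT₁, h⟩ := SG_bound hk hN hNk (by omega)
  have hq := qq_nonneg k N
  have hH : Hyp k N (fun _ => 0) (fun T => K * Real.log T ^ (qq k N)) := by
    refine ⟨δ, B, T₁, hδ, hδ4, by linarith, fun u T Δ hu hT hΔ hBT => ?_⟩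
    have := h u T Δ hu hT hΔ hBT
    simp only [mul_zero, sub_zero]
    refine this.trans (le_of_eq ?_)
    ring
  obtain ⟨δ', K', T₀, hδ', hδ'4, hK', ht⟩ := total hk hk3 hN continuousOn_const hH
    (E' := fun X => K * (2 * Real.log X) ^ (qq k N)) (by
      filter_upwards [eventually_ge_atTop 10] with X hX
      have hL : 0 ≤ Real.log X := Real.log_nonneg (by linarith)
      refine ⟨by positivity, fun τ hτ => ?_⟩
      apply mul_le_mul_of_nonneg_left _ hK
      apply Real.rpow_le_rpow (Real.log_nonneg (by linarith [hτ.1])) _ hq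
      have h1 : Real.log τ ≤ Real.log (2 * X) := Real.log_le_log (by linarith [hτ.1]) hτ.2
      rw [Real.log_mul (by norm_num) (by linarith)] at h1
      have h2 : Real.log 2 ≤ Real.log X := Real.log_le_log (by norm_num) (by linarith)
      linarith) (by
      filter_upwards [eventually_ge_atTop 10] with X hX
      have hL : 0 ≤ Real.log X := Real.log_nonneg (by linarith)
      have h1 : Real.log X ≤ Real.log (2 * X) := Real.log_le_log (by linarith) (by linarith)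
      have h2 : (2 * Real.log X) ^ (qq k N) ≤ (2 * Real.log (2 * X)) ^ (qq k N) :=
        Real.rpow_le_rpow (by positivity) (by linarith) hq
      have h3 : 0 ≤ (2 * Real.log (2 * X)) ^ (qq k N) := Real.rpow_nonneg (by linarith) _
      have h4 : X * (K * (2 * Real.log X) ^ (qq k N)) ≤ X * (K * (2 * Real.log (2 * X)) ^ (qq k N)) := by
        apply mul_le_mul_of_nonneg_left _ (by linarith)
        exact mul_le_mul_of_nonneg_left h2 hK
      have h5 : 0 ≤ X * (K * (2 * Real.log (2 * X)) ^ (qq k N)) := by positivity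
      linarith)
  refine ⟨K' + 4 * (K * 2 ^ (qq k N) + 1), max T₀ 3, by positivity, fun u T hu hT => ?_⟩
  have h1 := ht u T hu ((le_max_left _ _).trans hT)
  have hT3 : 3 ≤ T := (le_max_right _ _).trans hT
  have hT0 : 0 < T := by linarith
  have hL1 : 1 ≤ Real.log T := by
    rw [Real.le_log_iff_exp_le hT0]
    have := Real.exp_one_lt_d9
    linarith
  rw [intervalIntegral.integral_const, smul_zero, mul_zero, sub_zero] at h1
  refine h1.trans ?_
  obtain ⟨L, hL⟩ : ∃ L, L = Real.log T ^ (qq k N) := ⟨_, rfl⟩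
  have hLp : 1 ≤ L := by rw [hL]; exact Real.one_le_rpow hL1 hq
  rw [Real.mul_rpow (by norm_num) (by linarith), ← hL]
  have h2 : T ^ (1 - δ') ≤ T := by
    calc T ^ (1 - δ') ≤ T ^ (1 : ℝ) := Real.rpow_le_rpow_of_exponent_le (by linarith) (by linarith)
      _ = T := Real.rpow_one T
  have h3 : T ≤ T * L := le_mul_of_one_le_right hT0.le hLp
  have h4 : K' ≤ K' * (T * L) := le_mul_of_one_le_right hK' (by linarith)
  calc K' + 4 * (T * (K * (2 ^ qq k N * L)) + T ^ (1 - δ')) ≤ K' * (T * L) + 4 * (T * (K * (2 ^ qq k N * L)) + T * L) := by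
        linarith
    _ = _ := by ring

/-- the first moment -/
theorem signed_one : ∃ δ C T₀ : ℝ, 0 < δ ∧ 0 ≤ C ∧ ∀ (u : ℂ) (T : ℝ), u ≠ 0 → T₀ ≤ T → |Sn 1 1 u 0 T - bb 1 u * T| ≤ C * T ^ (1 - δ) := by
  obtain ⟨C1, B1, T1, hC1, hB1, hT1, h1⟩ := exact 1 le_rfl
  obtain ⟨K2, δ, B2, T2, hK2, hδ, hδ4, hB2, hT2, h2⟩ := CC_low 1 le_rfl
  obtain ⟨K, hK⟩ : ∃ K, K = C1 + 4 / Real.pi * K2 := ⟨_, rfl⟩
  have hpi := Real.pi_pos
  have hK0 : 0 ≤ K := by rw [hK]; positivity
  have hH : Hyp 1 1 (fun _ => 1) (fun T => K * T ^ (-(2 : ℝ))) := by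
    refine ⟨δ, max B1 B2, max T1 T2, hδ, hδ4, lt_of_lt_of_le (by linarith) (le_max_left B1 B2), fun u T Δ hu hT hΔ hBT => ?_⟩
    have t1 : T1 ≤ T := (le_max_left _ _).trans hT
    have t2 : T2 ≤ T := (le_max_right _ _).trans hT
    have hT100 : 100 ≤ T := hT1.trans t1
    have hT0 : 0 < T := by linarith
    have hΔ1 : 1 ≤ Δ := by
      refine le_trans ?_ hΔ
      exact Real.one_le_rpow (by linarith) (by linarith)
    have hΔ0 : 0 < Δ := by linarith
    have hBB : ∀ b : ℝ, b ≤ max B1 B2 → b * Δ * √(Real.log T) ≤ T := by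
      intro b hb
      refine le_trans ?_ hBT
      apply mul_le_mul_of_nonneg_right _ (Real.sqrt_nonneg _)
      exact mul_le_mul_of_nonneg_right hb hΔ0.le
    have h3 := h1 1 u T Δ le_rfl rfl hu t1 hΔ1 (hBB B1 (le_max_left _ _))
    have h4 := (h2 T Δ t2 hΔ (hBB B2 (le_max_right _ _))).1
    have e1 : (Finset.range 1).filter (fun j => 1 * (2 * j + 1) ≤ 1) = {0} := by decide
    rw [e1, Finset.sum_singleton] at h3
    simp only [pow_zero, Nat.cast_zero, mul_zero, zero_add, div_one, one_mul, mul_one, pow_one] at h3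
    have hu1 : ‖((‖u‖ : ℂ) / u)‖ = 1 := by
      have : ‖u‖ ≠ 0 := norm_ne_zero_iff.2 hu
      rw [norm_div, Complex.norm_real, norm_norm, div_self this]
    obtain ⟨e, he⟩ : ∃ e : ℂ, e = (‖u‖ : ℂ) / u := ⟨_, rfl⟩
    rw [← he] at h3 hu1
    have e2 : √Real.pi * Δ * (bb 1 u * 1) = 4 / Real.pi * (e * ((√Real.pi * Δ : ℝ) : ℂ)).re := by
      unfold bb
      rw [pow_one, ← he, mul_comm e, Complex.re_ofReal_mul]
      ring
    rw [e2]
    have h5 : |4 / Real.pi * (e * CC 1 1 T Δ).re - 4 / Real.pi * (e * ((√Real.pi * Δ : ℝ) : ℂ)).re| ≤ 4 / Real.pi * (K2 * T ^ (-(2 : ℝ))) := by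
      rw [← mul_sub, ← Complex.sub_re, ← mul_sub, abs_mul, abs_of_pos (by positivity : 0 < 4 / Real.pi)]
      apply mul_le_mul_of_nonneg_left _ (by positivity)
      refine (Complex.abs_re_le_norm _).trans ?_
      rw [norm_mul, hu1, one_mul]
      exact h4
    have h6 : 0 ≤ K * T ^ (-(2 : ℝ)) := by positivity
    calc _ ≤ C1 * T ^ (-(2 : ℝ)) + 4 / Real.pi * (K2 * T ^ (-(2 : ℝ))) := by
          have e3 : SG 1 1 u T Δ - 4 / Real.pi * (e * ((√Real.pi * Δ : ℝ) : ℂ)).re = (SG 1 1 u T Δ - 4 / Real.pi * (e * CC 1 1 T Δ).re) +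
            (4 / Real.pi * (e * CC 1 1 T Δ).re - 4 / Real.pi * (e * ((√Real.pi * Δ : ℝ) : ℂ)).re) := by ring
          rw [e3]
          exact (abs_add_le _ _).trans (add_le_add h3 h5)
      _ = K * T ^ (-(2 : ℝ)) := by rw [hK]; ring
      _ ≤ Δ * (K * T ^ (-(2 : ℝ))) := le_mul_of_one_le_left h6 hΔ1
  obtain ⟨δ', K', T₀, hδ', hδ'4, hK', ht⟩ := total le_rfl (by norm_num) le_rfl continuousOn_const hH
    (E' := fun X => K * X ^ (-(1 / 4) : ℝ)) (by
      filter_upwards [eventually_ge_atTop 10] with X hX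
      refine ⟨by positivity, fun τ hτ => ?_⟩
      apply mul_le_mul_of_nonneg_left _ hK0
      calc τ ^ (-(2 : ℝ)) ≤ X ^ (-(2 : ℝ)) := by
            rw [Real.rpow_neg (by linarith [hτ.1]), Real.rpow_neg (by linarith)]
            apply inv_anti₀ (by positivity)
            exact Real.rpow_le_rpow (by linarith) hτ.1 (by norm_num)
        _ ≤ X ^ (-(1 / 4) : ℝ) := Real.rpow_le_rpow_of_exponent_le (by linarith) (by norm_num)) (by
      filter_upwards [eventually_ge_atTop 10] with X hX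
      have hX0 : 0 < X := by linarith
      have e1 : ∀ Y : ℝ, 0 < Y → Y * (K * Y ^ (-(1 / 4) : ℝ)) = K * Y ^ (3 / 4 : ℝ) := by
        intro Y hY
        have : Y * (K * Y ^ (-(1 / 4) : ℝ)) = K * (Y ^ (1 : ℝ) * Y ^ (-(1 / 4) : ℝ)) := by rw [Real.rpow_one]; ring
        rw [this, ← Real.rpow_add hY]
        norm_num
      rw [e1 X hX0, e1 (2 * X) (by linarith), Real.mul_rpow (by norm_num) hX0.le]
      have h2 : (4 / 3 : ℝ) ≤ 2 ^ (3 / 4 : ℝ) := by
        have h3 : ((4 / 3 : ℝ) ^ (4 : ℕ)) ≤ ((2:ℝ) ^ (3 / 4 : ℝ)) ^ (4 : ℕ) := by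
          rw [← Real.rpow_natCast ((2:ℝ) ^ (3 / 4 : ℝ)), ← Real.rpow_mul (by norm_num)]
          norm_num
        exact le_of_pow_le_pow_left₀ (by norm_num) (by positivity) h3
      have h3 : 0 ≤ K * X ^ (3 / 4 : ℝ) := by positivity
      have h4 : 3 / 4 * (K * (2 ^ (3 / 4 : ℝ) * X ^ (3 / 4 : ℝ))) = (3 / 4 * 2 ^ (3 / 4 : ℝ)) * (K * X ^ (3 / 4 : ℝ)) := by ring
      rw [h4]
      apply le_mul_of_one_le_left h3
      linarith)
  refine ⟨δ', K' + 4 * (K + 1) + 2, max T₀ 3, hδ', by positivity, fun u T hu hT => ?_⟩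
  have h3 := ht u T hu ((le_max_left _ _).trans hT)
  have hT3 : 3 ≤ T := (le_max_right _ _).trans hT
  have hT0 : 0 < T := by linarith
  rw [intervalIntegral.integral_const, smul_eq_mul, mul_one] at h3
  have e1 : T * (K * T ^ (-(1 / 4) : ℝ)) = K * T ^ (3 / 4 : ℝ) := by
    have : T * (K * T ^ (-(1 / 4) : ℝ)) = K * (T ^ (1 : ℝ) * T ^ (-(1 / 4) : ℝ)) := by rw [Real.rpow_one]; ring
    rw [this, ← Real.rpow_add hT0]
    norm_num
  rw [e1] at h3
  have h4 : T ^ (3 / 4 : ℝ) ≤ T ^ (1 - δ') := Real.rpow_le_rpow_of_exponent_le (by linarith) (by linarith)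
  have h5 : 1 ≤ T ^ (1 - δ') := Real.one_le_rpow (by linarith) (by linarith)
  have h6 := bb_abs 1 hu
  have e2 : Sn 1 1 u 0 T - bb 1 u * T = (Sn 1 1 u 0 T - bb 1 u * (T - 1)) - bb 1 u := by ring
  rw [e2]
  refine (abs_sub _ _).trans ?_
  have h7 : K * T ^ (3 / 4 : ℝ) ≤ K * T ^ (1 - δ') := mul_le_mul_of_nonneg_left h4 hK0
  have h8 : K' ≤ K' * T ^ (1 - δ') := le_mul_of_one_le_right hK' h5
  calc _ ≤ (K' + 4 * (K * T ^ (3 / 4 : ℝ) + T ^ (1 - δ'))) + 2 := add_le_add h3 h6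
    _ ≤ (K' * T ^ (1 - δ') + 4 * (K * T ^ (1 - δ') + T ^ (1 - δ'))) + 2 * T ^ (1 - δ') := by linarith
    _ = _ := by ring

lemma int_log_sq {T : ℝ} (hT : 1 ≤ T) : ∫ τ in (1:ℝ)..T, Real.log τ ^ 2 / 2 = T * Real.log T ^ 2 / 2 - T * Real.log T + T - 1 := by
  have h1 : ∀ τ ∈ uIcc 1 T, HasDerivAt (fun τ => τ * Real.log τ ^ 2 / 2 - τ * Real.log τ + τ) (Real.log τ ^ 2 / 2) τ := by
    intro τ hτ
    rw [uIcc_of_le hT] at hτ
    have hτ0 : τ ≠ 0 := by linarith [hτ.1]
    have hl := Real.hasDerivAt_log hτ0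
    have h2 := (((hasDerivAt_id τ).mul (hl.pow 2)).div_const 2).sub ((hasDerivAt_id τ).mul hl)
    have h3 := h2.add (hasDerivAt_id τ)
    refine h3.congr_deriv ?_
    simp only [id_eq, Pi.pow_apply]
    field_simp
    ring
  rw [intervalIntegral.integral_eq_sub_of_hasDerivAt h1]
  · rw [Real.log_one]
    ring
  · apply ContinuousOn.intervalIntegrable
    intro τ hτ
    rw [uIcc_of_le hT] at hτ
    have hτ0 : τ ≠ 0 := by linarith [hτ.1]
    exact (((Real.continuousAt_log hτ0).pow 2).div_const 2).continuousWithinAt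

/-- the third moment -/
theorem signed_three : ∃ C T₀ : ℝ, 0 ≤ C ∧ ∀ (u : ℂ) (T : ℝ), u ≠ 0 → T₀ ≤ T →
    |Sn 3 1 u 0 T - bb 1 u * (T * Real.log T ^ 2 / 2)| ≤ C * (T * Real.log T) := by
  obtain ⟨C1, B1, T1, hC1, hB1, hT1, h1⟩ := exact 3 (by norm_num)
  obtain ⟨K2, δ, B2, T2, hK2, hδ, hδ4, hB2, hT2, h2⟩ := CC_low 3 (by norm_num)
  obtain ⟨K, hK⟩ : ∃ K, K = C1 + 4 / Real.pi * (K2 + (K2 + 2)) := ⟨_, rfl⟩
  have hpi := Real.pi_pos
  have hK0 : 0 ≤ K := by rw [hK]; positivity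
  have hH : Hyp 3 1 (fun τ => Real.log τ ^ 2 / 2) (fun T => K * Real.log T) := by
    refine ⟨δ, max B1 B2, max T1 T2, hδ, hδ4, lt_of_lt_of_le (by linarith) (le_max_left B1 B2), fun u T Δ hu hT hΔ hBT => ?_⟩
    have t1 : T1 ≤ T := (le_max_left _ _).trans hT
    have t2 : T2 ≤ T := (le_max_right _ _).trans hT
    have hT100 : 100 ≤ T := hT1.trans t1
    have hT0 : 0 < T := by linarith
    have hL1 : 1 ≤ Real.log T := by
      rw [Real.le_log_iff_exp_le hT0]
      have := Real.exp_one_lt_d9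
      linarith
    have hΔ1 : 1 ≤ Δ := by
      refine le_trans ?_ hΔ
      exact Real.one_le_rpow (by linarith) (by linarith)
    have hΔ0 : 0 < Δ := by linarith
    have hBB : ∀ b : ℝ, b ≤ max B1 B2 → b * Δ * √(Real.log T) ≤ T := by
      intro b hb
      refine le_trans ?_ hBT
      apply mul_le_mul_of_nonneg_right _ (Real.sqrt_nonneg _)
      exact mul_le_mul_of_nonneg_right hb hΔ0.le
    have h3 := h1 1 u T Δ le_rfl rfl hu t1 hΔ1 (hBB B1 (le_max_left _ _))
    obtain ⟨h4, h5⟩ := h2 T Δ t2 hΔ (hBB B2 (le_max_right _ _))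
    have h5 := h5 (by norm_num)
    have e1 : (Finset.range 3).filter (fun j => 1 * (2 * j + 1) ≤ 3) = {0, 1} := by decide
    rw [e1, Finset.sum_pair (by norm_num)] at h3
    have e10 : 1 * (2 * 0 + 1) = 1 := rfl
    have e11 : 1 * (2 * 1 + 1) = 3 := rfl
    simp only [e10, e11, pow_zero, pow_one, Nat.cast_zero, Nat.cast_one, mul_zero, zero_add, div_one, one_mul, mul_one] at h3
    have e12 : ((3 - 1).factorial : ℝ) = 2 := by norm_num
    have e13 : 3 - 1 = 2 := rfl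
    have e14 : 3 - 2 = 1 := rfl
    rw [e12, e13, e14, pow_one] at h5
    have hu1 : ‖((‖u‖ : ℂ) / u)‖ = 1 := by
      have : ‖u‖ ≠ 0 := norm_ne_zero_iff.2 hu
      rw [norm_div, Complex.norm_real, norm_norm, div_self this]
    obtain ⟨e, he⟩ : ∃ e : ℂ, e = (‖u‖ : ℂ) / u := ⟨_, rfl⟩
    rw [← he] at h3 hu1
    obtain ⟨M, hM⟩ : ∃ M, M = √Real.pi * Δ * (Real.log T ^ 2 / 2) := ⟨_, rfl⟩
    rw [← hM] at h5
    obtain ⟨c, hc⟩ : ∃ c, c = CC 3 1 T Δ := ⟨_, rfl⟩
    obtain ⟨d, hd⟩ : ∃ d, d = CC 3 3 T Δ := ⟨_, rfl⟩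
    rw [← hc] at h3 h5
    rw [← hd] at h3 h4
    have e2 : √Real.pi * Δ * (bb 1 u * (Real.log T ^ 2 / 2)) = 4 / Real.pi * (e * ((M : ℝ) : ℂ)).re := by
      unfold bb
      rw [pow_one, ← he, mul_comm e, Complex.re_ofReal_mul, hM]
      ring
    change |SG 3 1 u T Δ - √Real.pi * Δ * (bb 1 u * (Real.log T ^ 2 / 2))| ≤ Δ * (K * Real.log T)
    rw [e2]
    have hTm : T ^ (-(2 : ℝ)) ≤ 1 := Real.rpow_le_one_of_one_le_of_nonpos (by linarith) (by norm_num)
    have hTm0 : 0 < T ^ (-(2 : ℝ)) := Real.rpow_pos_of_pos hT0 _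
    have h5' : |(e * c).re - (e * ((M : ℝ) : ℂ)).re| ≤ K2 * (Δ * Real.log T) := by
      rw [← Complex.sub_re, ← mul_sub]
      refine (Complex.abs_re_le_norm _).trans ?_
      rw [norm_mul, hu1, one_mul]
      exact h5
    have hsp : √Real.pi ≤ 2 := by
      rw [Real.sqrt_le_left (by norm_num)]
      have := Real.pi_lt_four
      linarith
    have hd' : ‖d‖ ≤ K2 + 2 * Δ := by
      have e3 : d = (d - ((√Real.pi * Δ : ℝ) : ℂ)) + ((√Real.pi * Δ : ℝ) : ℂ) := by ring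
      rw [e3]
      refine (norm_add_le _ _).trans ?_
      apply add_le_add
      · refine h4.trans ?_
        exact mul_le_of_le_one_right hK2 hTm
      · rw [Complex.norm_real, Real.norm_of_nonneg (by positivity)]
        exact mul_le_mul_of_nonneg_right hsp hΔ0.le
    have hd'' : |(e ^ 3 * d).re| ≤ K2 + 2 * Δ := by
      refine (Complex.abs_re_le_norm _).trans ?_
      rw [norm_mul, norm_pow, hu1, one_pow, one_mul]
      exact hd'
    have hΔL : Δ ≤ Δ * Real.log T := le_mul_of_one_le_right hΔ0.le hL1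
    have hd3 : K2 + 2 * Δ ≤ (K2 + 2) * (Δ * Real.log T) := by
      have : K2 ≤ K2 * (Δ * Real.log T) := le_mul_of_one_le_right hK2 (by linarith)
      linarith
    have h6 : SG 3 1 u T Δ - 4 / Real.pi * (e * ((M : ℝ) : ℂ)).re =
      (SG 3 1 u T Δ - 4 / Real.pi * ((e * c).re + -1 / (2 + 1) * (e ^ 3 * d).re)) +
        (4 / Real.pi * ((e * c).re - (e * ((M : ℝ) : ℂ)).re) + 4 / Real.pi * (-1 / (2 + 1) * (e ^ 3 * d).re)) := by ring
    rw [h6]
    have h7 : |4 / Real.pi * ((e * c).re - (e * ((M : ℝ) : ℂ)).re)| ≤ 4 / Real.pi * (K2 * (Δ * Real.log T)) := by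
      rw [abs_mul, abs_of_pos (by positivity : 0 < 4 / Real.pi)]
      exact mul_le_mul_of_nonneg_left h5' (by positivity)
    have h8 : |4 / Real.pi * (-1 / (2 + 1) * (e ^ 3 * d).re)| ≤ 4 / Real.pi * ((K2 + 2) * (Δ * Real.log T)) := by
      rw [abs_mul, abs_of_pos (by positivity : 0 < 4 / Real.pi)]
      apply mul_le_mul_of_nonneg_left _ (by positivity)
      rw [abs_mul]
      have : |(-1 / (2 + 1) : ℝ)| ≤ 1 := by rw [abs_le]; constructor <;> norm_num
      calc |(-1 / (2 + 1) : ℝ)| * |(e ^ 3 * d).re| ≤ 1 * (K2 + 2 * Δ) := mul_le_mul this hd'' (abs_nonneg _) (by norm_num)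
        _ ≤ _ := by rw [one_mul]; exact hd3
    have h9 : C1 * T ^ (-(2 : ℝ)) ≤ C1 * (Δ * Real.log T) := mul_le_mul_of_nonneg_left (by linarith) hC1
    calc _ ≤ C1 * T ^ (-(2 : ℝ)) + (4 / Real.pi * (K2 * (Δ * Real.log T)) + 4 / Real.pi * ((K2 + 2) * (Δ * Real.log T))) :=
          (abs_add_le _ _).trans (add_le_add h3 ((abs_add_le _ _).trans (add_le_add h7 h8)))
      _ ≤ C1 * (Δ * Real.log T) + (4 / Real.pi * (K2 * (Δ * Real.log T)) + 4 / Real.pi * ((K2 + 2) * (Δ * Real.log T))) := by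
          linarith
      _ = Δ * (K * Real.log T) := by rw [hK]; ring
  obtain ⟨δ', K', T₀, hδ', hδ'4, hK', ht⟩ := total (by norm_num) le_rfl le_rfl
    (by
      intro τ hτ
      exact (((Real.continuousAt_log (ne_of_gt hτ)).pow 2).div_const 2).continuousWithinAt) hH
    (E' := fun X => K * (2 * Real.log X)) (by
      filter_upwards [eventually_ge_atTop 10] with X hX
      have hL : 0 ≤ Real.log X := Real.log_nonneg (by linarith)
      refine ⟨by positivity, fun τ hτ => ?_⟩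
      apply mul_le_mul_of_nonneg_left _ hK0
      have h1 : Real.log τ ≤ Real.log (2 * X) := Real.log_le_log (by linarith [hτ.1]) hτ.2
      rw [Real.log_mul (by norm_num) (by linarith)] at h1
      have h2 : Real.log 2 ≤ Real.log X := Real.log_le_log (by norm_num) (by linarith)
      linarith) (by
      filter_upwards [eventually_ge_atTop 10] with X hX
      have hL : 0 ≤ Real.log X := Real.log_nonneg (by linarith)
      have h1 : Real.log X ≤ Real.log (2 * X) := Real.log_le_log (by linarith) (by linarith)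
      have h4 : X * (K * (2 * Real.log X)) ≤ X * (K * (2 * Real.log (2 * X))) := by
        apply mul_le_mul_of_nonneg_left _ (by linarith)
        exact mul_le_mul_of_nonneg_left (by linarith) hK0
      have h5 : 0 ≤ X * (K * (2 * Real.log (2 * X))) := mul_nonneg (by linarith) (mul_nonneg hK0 (by linarith))
      linarith)
  refine ⟨K' + 4 * (2 * K + 1) + 8, max T₀ 3, by positivity, fun u T hu hT => ?_⟩
  have h3 := ht u T hu ((le_max_left _ _).trans hT)
  have hT3 : 3 ≤ T := (le_max_right _ _).trans hT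
  have hT0 : 0 < T := by linarith
  have hL1 : 1 ≤ Real.log T := by
    rw [Real.le_log_iff_exp_le hT0]
    have := Real.exp_one_lt_d9
    linarith
  rw [int_log_sq (by linarith)] at h3
  obtain ⟨L, hL⟩ : ∃ L, L = Real.log T := ⟨_, rfl⟩
  rw [← hL] at h3 hL1 ⊢
  have h4 : T ^ (1 - δ') ≤ T := by
    calc T ^ (1 - δ') ≤ T ^ (1 : ℝ) := Real.rpow_le_rpow_of_exponent_le (by linarith) (by linarith)
      _ = T := Real.rpow_one T
  have hTL : T ≤ T * L := le_mul_of_one_le_right hT0.le hL1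
  have h5 : K' ≤ K' * (T * L) := le_mul_of_one_le_right hK' (by linarith)
  have h6 := bb_abs 1 hu
  have e2 : Sn 3 1 u 0 T - bb 1 u * (T * L ^ 2 / 2) = (Sn 3 1 u 0 T - bb 1 u * (T * L ^ 2 / 2 - T * L + T - 1)) -
      bb 1 u * (T * L - T + 1) := by ring
  rw [e2]
  refine (abs_sub _ _).trans ?_
  have h7 : |bb 1 u * (T * L - T + 1)| ≤ 2 * (2 * (T * L)) := by
    rw [abs_mul]
    apply mul_le_mul h6 _ (abs_nonneg _) (by norm_num)
    rw [abs_of_nonneg (by linarith)]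
    linarith
  calc _ ≤ (K' + 4 * (T * (K * (2 * L)) + T ^ (1 - δ'))) + 2 * (2 * (T * L)) := add_le_add h3 h7
    _ ≤ (K' * (T * L) + 4 * (2 * K * (T * L) + T * L)) + 8 * (T * L) := by
        have : T * (K * (2 * L)) = 2 * K * (T * L) := by ring
        rw [this]
        have h9 : 0 ≤ T * L := by linarith
        linarith
    _ = _ := by ring

end Pool.Agent.N30.OD
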