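import Pool.Agent.N30.OD.Me

set_option autoImplicit false

/-! One half of the moment on each side, and the equivalence of the asymptotic formulas. -/

open Complex MeasureTheory Set Filter Topology

namespace Pool.Agent.N30.OD

open Pool.Agent.W188.QS Pool.Agent.N30.MZ

lemma mo_dy (k : ℕ) {a b : ℝ} (ha : 100 ≤ a) (hab : a ≤ b) : (mo k).real (Ioc a b) = ∫ t in a..b, Zp k t := by
  rw [mo_real k measurableSet_Ioc (fun t ht => lt_of_le_of_lt ha ht.1), intervalIntegral.integral_of_le hab]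

lemma mo_from0 (k : ℕ) {S : Set ℝ} {b : ℝ} (hb : 100 ≤ b) (ν : Measure ℝ) (hν : ν (Iic 100) = 0) :
    ν.real (Ioc 0 b) = ν.real (Ioc 100 b) := by
  have hun : Ioc (0 : ℝ) b = Ioc 0 100 ∪ Ioc 100 b := (Ioc_union_Ioc_eq_Ioc (by norm_num) hb).symm
  have hz : ν (Ioc 0 100) = 0 := measure_mono_null Ioc_subset_Iic_self hν
  rw [measureReal_def, measureReal_def, hun]
  congr 1
  apply le_antisymm
  · refine (measure_union_le _ _).trans ?_
    rw [hz, zero_add]
  · exact measure_mono subset_union_right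

lemma nus_dy (k N : ℕ) (u : ℂ) {a b : ℝ} (ha : 100 ≤ a) : (nus k N u).real (Ioc a b) = ∫ t in Ioc a b ∩ Sd N u, Zp k t :=
  nus_real k N u measurableSet_Ioc (fun t ht => lt_of_le_of_lt ha ht.1)

lemma nus_zero (k N : ℕ) (u : ℂ) : nus k N u (Iic 100) = 0 :=
  le_antisymm ((Measure.restrict_apply_le _ _).trans (le_of_eq (mo_zero k))) bot_le

lemma mus_low {k : ℕ} (hk : 1 ≤ k) : ∃ c : ℝ, 0 < c ∧ ∀ᶠ T : ℝ in atTop,
    c * (T * Real.log T ^ ((k : ℝ) ^ 2 / 4)) ≤ (mus k).real (Ioc T (2 * T)) := by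
  obtain ⟨c0, hc0, hlow⟩ := low_all hk
  refine ⟨1 / 2 * c0, by positivity, ?_⟩
  filter_upwards [hlow, eventually_ge_atTop 100] with T hT hT1
  rw [mus_real k, mo_dy k hT1 (by linarith), mul_assoc]
  exact mul_le_mul_of_nonneg_left hT (by positivity)

/-- upper bound for one side -/
theorem side_upper {k N : ℕ} (hk : 1 ≤ k) (hN : 1 ≤ N) (hNk : N % 2 = k % 2) (hkN : k ≤ N + 2) {u : ℂ} (hu : u ≠ 0) {ε : ℝ}
    (h0 : 0 < ε) (h1 : ε ≤ 1 / 2) : ∀ᶠ T : ℝ in atTop,
    ∫ t in Ioc T (2 * T) ∩ Sd N u, Zp k t ≤ (1 + ε) * (1 / 2 * ∫ t in ((1 - ε) * T)..((2 + ε) * T), Zp k t) := by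
  obtain ⟨c0, hc0, hlow⟩ := mus_low hk
  have h := a_maj ((2 * k + 1 : ℕ) : ℝ) c0 ((k : ℝ) ^ 2 / 4) (qq k N) ε hc0 h0 (by positivity)
    (qq_lt hk hN) _ _ (mus_fin k) (nus_fin k N u) (near_side hk hN hNk hkN hu) (by
      filter_upwards [eventually_ge_atTop 100] with T hT
      have h2 : (mo k).real (Ioc 0 T) = ∫ t in (100 : ℝ)..T, Zp k t := by
        rw [mo_from0 (S := univ) k hT _ (mo_zero k), mo_dy k le_rfl hT]
      rw [mus_real k, h2]
      have h3 := growk k hT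
      have h4 : 0 ≤ ∫ t in (100 : ℝ)..T, Zp k t := intervalIntegral.integral_nonneg hT fun t _ => Zp_nonneg k t
      linarith) hlow
  filter_upwards [h, eventually_ge_atTop 200] with T hT hT1
  rw [nus_dy k N u (by linarith), mus_real k, mo_dy k (by nlinarith) (by nlinarith)] at hT
  exact hT

/-- lower bound for one side -/
theorem side_lower {k N : ℕ} (hk : 1 ≤ k) (hN : 1 ≤ N) (hNk : N % 2 = k % 2) (hkN : k ≤ N + 2) {u : ℂ} (hu : u ≠ 0) {ε : ℝ}
    (h0 : 0 < ε) (h1 : ε ≤ 1 / 2) : ∀ᶠ T : ℝ in atTop,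
    1 / 2 * ∫ t in T..(2 * T), Zp k t ≤ (1 + ε) * ∫ t in Ioc ((1 - ε) * T) ((2 + ε) * T) ∩ Sd N u, Zp k t := by
  obtain ⟨c0, hc0, hlow⟩ := mus_low hk
  have h := a_maj2 ((2 * k + 2 : ℕ) : ℝ) c0 ((k : ℝ) ^ 2 / 4) (qq k N) ε hc0 h0 (by positivity)
    (qq_lt hk hN) _ _ (nus_fin k N u) (mus_fin k) (near_side hk hN hNk hkN hu).symm (by
      filter_upwards [eventually_ge_atTop 200, eventually_ge_atTop ((2 : ℝ) ^ (2 * k + 1))] with T hT1 hT2
      have hT0 : 0 < T := by linarith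
      have h2 : (nus k N u).real (Ioc T (2 * T)) ≤ (mo k).real (Ioc T (2 * T)) := by
        unfold nus
        rw [measureReal_def, measureReal_def]
        apply ENNReal.toReal_mono
        · exact (lt_of_le_of_lt (measure_mono Ioc_subset_Iic_self) (mo_Iic k (2 * T))).ne
        · exact Measure.restrict_apply_le _ _
      refine h2.trans ?_
      rw [mo_dy k (by linarith) (by linarith)]
      have h3 : ∫ t in T..(2 * T), Zp k t ≤ ∫ t in (100 : ℝ)..(2 * T), Zp k t := by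
        apply intervalIntegral.integral_mono_interval (by linarith) (by linarith) le_rfl
        · exact Filter.Eventually.of_forall fun t => Zp_nonneg k t
        · exact (Zp_cont k).intervalIntegrable _ _
      have h4 := growk k (T := 2 * T) (by linarith)
      have h5 : (2 * T) ^ ((2 * k + 1 : ℕ) : ℝ) = 2 ^ (2 * k + 1) * T ^ (2 * k + 1) := by
        rw [Real.rpow_natCast, mul_pow]
      rw [h5] at h4
      calc ∫ t in T..(2 * T), Zp k t ≤ 2 ^ (2 * k + 1) * T ^ (2 * k + 1) := h3.trans h4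
        _ ≤ T * T ^ (2 * k + 1) := mul_le_mul_of_nonneg_right hT2 (by positivity)
        _ = T ^ ((2 * k + 2 : ℕ) : ℝ) := by rw [Real.rpow_natCast]; ring) hlow
  filter_upwards [h, eventually_ge_atTop 200] with T hT hT1
  rw [nus_dy k N u (by nlinarith), mus_real k, mo_dy k (by linarith) (by linarith)] at hT
  exact hT

/-- the asymptotic formula in terms of the measure -/
lemma tend_iff {k : ℕ} (hk : 1 ≤ k) (ν : Measure ℝ) (F : ℝ → ℝ) (C : ℝ) (a : ℝ)
    (hF : ∀ T : ℝ, 100 ≤ T → F T = C + ν.real (Ioc 0 T)) :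
    Tendsto (fun T => F T / (T * Real.log T ^ ((k : ℝ) ^ 2 / 4))) atTop (𝓝 a) ↔
    Tendsto (fun T => ν.real (Ioc 0 T) / (T * Real.log T ^ ((k : ℝ) ^ 2 / 4))) atTop (𝓝 a) := by
  have h0 : Tendsto (fun T : ℝ => T * Real.log T ^ ((k : ℝ) ^ 2 / 4)) atTop atTop := by
    apply Tendsto.atTop_mul_atTop₀ tendsto_id
    exact (tendsto_rpow_atTop (by
      have : (1 : ℝ) ≤ k := by exact_mod_cast hk
      positivity)).comp Real.tendsto_log_atTop
  have h1 : Tendsto (fun T : ℝ => C / (T * Real.log T ^ ((k : ℝ) ^ 2 / 4))) atTop (𝓝 0) := h0.const_div_atTop _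
  have h2 : ∀ᶠ T : ℝ in atTop, F T / (T * Real.log T ^ ((k : ℝ) ^ 2 / 4)) = C / (T * Real.log T ^ ((k : ℝ) ^ 2 / 4)) +
      ν.real (Ioc 0 T) / (T * Real.log T ^ ((k : ℝ) ^ 2 / 4)) := by
    filter_upwards [eventually_ge_atTop 100] with T hT
    rw [hF T hT, ← add_div]
  constructor
  · intro h
    have h3 := h.sub h1
    rw [sub_zero] at h3
    refine h3.congr' ?_
    filter_upwards [h2] with T hT
    rw [hT]; ring
  · intro h
    have h3 := h1.add h
    rw [zero_add] at h3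
    refine h3.congr' ?_
    filter_upwards [h2] with T hT
    rw [hT]

/-- the asymptotic formula for the moment is equivalent to the one for one side -/
theorem side_equiv {k N : ℕ} (hk : 1 ≤ k) (hN : 1 ≤ N) (hNk : N % 2 = k % 2) (hkN : k ≤ N + 2) {u : ℂ} (hu : u ≠ 0) (a : ℝ) :
    Tendsto (fun T => (∫ t in (0 : ℝ)..T, Zp k t) / (T * Real.log T ^ ((k : ℝ) ^ 2 / 4))) atTop (𝓝 a) ↔
    Tendsto (fun T => (∫ t in Ioc 0 T ∩ Sd N u, Zp k t) / (T * Real.log T ^ ((k : ℝ) ^ 2 / 4))) atTop (𝓝 (1 / 2 * a)) := by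
  rw [tend_iff hk (mo k) _ (∫ t in (0 : ℝ)..100, Zp k t) a (by
      intro T hT
      rw [mo_from0 (S := univ) k hT _ (mo_zero k), mo_dy k le_rfl hT,
        intervalIntegral.integral_add_adjacent_intervals ((Zp_cont k).intervalIntegrable _ _) ((Zp_cont k).intervalIntegrable _ _)]),
    tend_iff hk (nus k N u) _ (∫ t in Ioc 0 100 ∩ Sd N u, Zp k t) (1 / 2 * a) (by
      intro T hT
      rw [mo_from0 (S := univ) k hT _ (nus_zero k N u), nus_dy k N u le_rfl]
      have hun : Ioc (0 : ℝ) T ∩ Sd N u = (Ioc 0 100 ∩ Sd N u) ∪ (Ioc 100 T ∩ Sd N u) := by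
        rw [← union_inter_distrib_right, Ioc_union_Ioc_eq_Ioc (by norm_num) hT]
      have hZi : ∀ a b : ℝ, IntegrableOn (Zp k) (Ioc a b ∩ Sd N u) := fun a b =>
        ((Zp_cont k).integrableOn_Ioc).mono_set inter_subset_left
      rw [hun, setIntegral_union _ (measurableSet_Ioc.inter (Sd_meas N u)) (hZi _ _) (hZi _ _)]
      rw [Set.disjoint_left]
      rintro t ⟨⟨_, h⟩, _⟩ ⟨⟨h', _⟩, _⟩
      linarith)]
  have hn := near_side hk hN hNk hkN hu
  have e : ∀ T, (mus k).real (Ioc 0 T) / (T * Real.log T ^ ((k : ℝ) ^ 2 / 4)) =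
      1 / 2 * ((mo k).real (Ioc 0 T) / (T * Real.log T ^ ((k : ℝ) ^ 2 / 4))) := by
    intro T
    rw [mus_real k, mul_div_assoc]
  constructor
  · intro h
    apply a_taub (1 / 2 * a) ((k : ℝ) ^ 2 / 4) (qq k N) (by positivity) (qq_lt hk hN) _ _ (mus_fin k) (nus_fin k N u) hn
    simp only [e]
    exact h.const_mul _
  · intro h
    have h1 := a_taub (1 / 2 * a) ((k : ℝ) ^ 2 / 4) (qq k N) (by positivity) (qq_lt hk hN) _ _ (nus_fin k N u) (mus_fin k) hn.symm h
    simp only [e] at h1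
    have h2 := h1.const_mul (2 : ℝ)
    have e2 : (2 : ℝ) * (1 / 2 * a) = a := by ring
    rw [e2] at h2
    refine h2.congr fun T => ?_
    ring

end Pool.Agent.N30.OD
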