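import Pool.Agent.N30.OD.Cw
import Pool.Agent.N30.OD.De

set_option autoImplicit false

/-! One half of the moment of order at most three on each side, on `[0, T]`. -/

open Complex MeasureTheory Set Filter Topology

namespace Pool.Agent.N30.OD

open Pool.Agent.W188.QS Pool.Agent.N30.MZ

/-- lower bound for the moment on `[0, T]` -/
lemma low_zero {k : ℕ} (hk : 1 ≤ k) : ∃ c : ℝ, 0 < c ∧ ∀ᶠ T : ℝ in atTop,
    c * (T * Real.log T ^ ((k : ℝ) ^ 2 / 4)) ≤ ∫ t in (0 : ℝ)..T, Zp k t := by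
  obtain ⟨c, hc, h⟩ := low_all hk
  have hq : (0 : ℝ) ≤ (k : ℝ) ^ 2 / 4 := by positivity
  refine ⟨c * (1 / 2) * (1 / 2) ^ ((k : ℝ) ^ 2 / 4), by positivity, ?_⟩
  have h1 := (tendsto_id.atTop_mul_const (by norm_num : (0:ℝ) < 1 / 2)).eventually h
  filter_upwards [h1, eventually_ge_atTop 4] with T hT hT4
  simp only [id_eq] at hT
  have e : 2 * (T * (1 / 2)) = T := by ring
  rw [e] at hT
  have hl : 1 / 2 * Real.log T ≤ Real.log (T * (1 / 2)) := by
    have e1 : 1 / 2 * Real.log T = Real.log (√T) := by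
      rw [Real.log_sqrt (by linarith)]; ring
    rw [e1]
    apply Real.log_le_log (Real.sqrt_pos.2 (by linarith))
    rw [Real.sqrt_le_left (by linarith)]
    nlinarith
  have hl0 : 0 ≤ Real.log T := Real.log_nonneg (by linarith)
  have h2 : (1 / 2 : ℝ) ^ ((k : ℝ) ^ 2 / 4) * Real.log T ^ ((k : ℝ) ^ 2 / 4) ≤ Real.log (T * (1 / 2)) ^ ((k : ℝ) ^ 2 / 4) := by
    rw [← Real.mul_rpow (by norm_num) hl0]
    exact Real.rpow_le_rpow (by positivity) hl hq
  have h3 : ∫ t in (T * (1 / 2))..T, Zp k t ≤ ∫ t in (0 : ℝ)..T, Zp k t := by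
    apply intervalIntegral.integral_mono_interval (by linarith) (by linarith) le_rfl
    · exact Filter.Eventually.of_forall fun t => Zp_nonneg k t
    · exact (Zp_cont k).intervalIntegrable _ _
  refine le_trans ?_ (hT.trans h3)
  have e2 : c * (1 / 2) * (1 / 2) ^ ((k : ℝ) ^ 2 / 4) * (T * Real.log T ^ ((k : ℝ) ^ 2 / 4)) =
    c * (T * (1 / 2) * ((1 / 2) ^ ((k : ℝ) ^ 2 / 4) * Real.log T ^ ((k : ℝ) ^ 2 / 4))) := by ring
  rw [e2]
  apply mul_le_mul_of_nonneg_left _ hc.le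
  exact mul_le_mul_of_nonneg_left h2 (by linarith)

/-- the difference of a side and one half is one half of the signed moment -/
lemma half_diff {k N : ℕ} (hk : 1 ≤ k) (hN : 1 ≤ N) {u : ℂ} (hu : u ≠ 0) {T : ℝ} (hT : 100 ≤ T) :
    |(∫ t in Ioc 0 T ∩ Sd N u, Zp k t) - 1 / 2 * ∫ t in (0 : ℝ)..T, Zp k t| ≤ (∫ t in (0 : ℝ)..100, Zp k t) + 1 / 2 * |Sn k N u 0 T| := by
  have hun : Ioc (0 : ℝ) T ∩ Sd N u = (Ioc 0 100 ∩ Sd N u) ∪ (Ioc 100 T ∩ Sd N u) := by
    rw [← union_inter_distrib_right, Ioc_union_Ioc_eq_Ioc (by norm_num) hT]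
  have hZi : ∀ a b : ℝ, IntegrableOn (Zp k) (Ioc a b ∩ Sd N u) := fun a b =>
    ((Zp_cont k).integrableOn_Ioc).mono_set inter_subset_left
  have hd : Disjoint (Ioc (0:ℝ) 100 ∩ Sd N u) (Ioc 100 T ∩ Sd N u) := by
    rw [Set.disjoint_left]
    rintro t ⟨⟨_, h⟩, _⟩ ⟨⟨h', _⟩, _⟩
    linarith
  rw [hun, setIntegral_union hd (measurableSet_Ioc.inter (Sd_meas N u)) (hZi _ _) (hZi _ _)]
  have h1 := side_int hk hN hu (f := fun _ => 1) continuous_const (a := 100) (b := T) le_rfl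
  simp only [mul_one] at h1
  rw [h1]
  obtain ⟨A, hA⟩ : ∃ A, A = ∫ t in (0 : ℝ)..100, Zp k t := ⟨_, rfl⟩
  obtain ⟨a, ha⟩ : ∃ a, a = ∫ t in Ioc 0 100 ∩ Sd N u, Zp k t := ⟨_, rfl⟩
  have ha0 : 0 ≤ a := by
    rw [ha]
    exact setIntegral_nonneg (measurableSet_Ioc.inter (Sd_meas N u)) fun t _ => Zp_nonneg k t
  have haA : a ≤ A := by
    rw [ha, hA, intervalIntegral.integral_of_le (by norm_num)]
    exact setIntegral_mono_set ((Zp_cont k).integrableOn_Ioc) (Filter.Eventually.of_forall fun t => Zp_nonneg k t)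
      (inter_subset_left.eventuallyLE)
  have e1 : ∫ t in (0 : ℝ)..T, Zp k t = A + ∫ t in Ioc 100 T, Zp k t := by
    rw [hA, ← intervalIntegral.integral_of_le hT, intervalIntegral.integral_add_adjacent_intervals
      ((Zp_cont k).intervalIntegrable _ _) ((Zp_cont k).intervalIntegrable _ _)]
  have e2 : Sn k N u 0 T = Sn k N u 0 100 + ∫ t in Ioc 100 T, Zp k t * Real.sign ((zz t / u) ^ N).re := by
    unfold Sn
    rw [← intervalIntegral.integral_of_le hT, intervalIntegral.integral_add_adjacent_intervals (Sn_ii k N u _ _) (Sn_ii k N u _ _)]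
  have h2 := Sn_abs k N u (a := 0) (b := 100) (by norm_num)
  rw [← hA] at h2
  obtain ⟨b, hb⟩ : ∃ b, b = ∫ t in Ioc 100 T, Zp k t * Real.sign ((zz t / u) ^ N).re := ⟨_, rfl⟩
  obtain ⟨d, hd'⟩ : ∃ d, d = ∫ t in Ioc 100 T, Zp k t := ⟨_, rfl⟩
  rw [e1, e2, ← ha, ← hA, ← hb, ← hd']
  obtain ⟨s, hs⟩ : ∃ s, s = Sn k N u 0 100 := ⟨_, rfl⟩
  rw [← hs] at h2 ⊢
  have h3 := abs_le.1 h2
  have h4 := neg_abs_le (s + b)
  have h5 := le_abs_self (s + b)
  rw [abs_le]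
  constructor <;> linarith [h3.1, h3.2]

/-- one half on each side -/
theorem halves {k N : ℕ} (hk : 1 ≤ k) (hk3 : k ≤ 3) (hN : 1 ≤ N) (hNk : N % 2 = k % 2) :
    ∃ C T₀ : ℝ, 0 ≤ C ∧ ∀ (u : ℂ) (T : ℝ), u ≠ 0 → T₀ ≤ T →
      |(∫ t in Ioc 0 T ∩ Sd N u, Zp k t) - 1 / 2 * ∫ t in (0 : ℝ)..T, Zp k t| ≤ C * (T * Real.log T ^ (qq k N)) ∧
      |(∫ t in Ioc 0 T ∩ Sd N u, Zp k t) - 1 / 2 * ∫ t in (0 : ℝ)..T, Zp k t| ≤
        C * Real.log T ^ (-(1 / 4) : ℝ) * ∫ t in (0 : ℝ)..T, Zp k t := by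
  obtain ⟨C, T₁, hC, h⟩ := signed_all hk hk3 hN hNk
  obtain ⟨c, hc, hl⟩ := low_zero hk
  obtain ⟨T₂, hT₂⟩ := eventually_atTop.1 hl
  obtain ⟨A, hA⟩ : ∃ A, A = ∫ t in (0 : ℝ)..100, Zp k t := ⟨_, rfl⟩
  have hA0 : 0 ≤ A := by
    rw [hA]
    exact intervalIntegral.integral_nonneg (by norm_num) fun t _ => Zp_nonneg k t
  have hq := qq_nonneg k N
  have hc1 : 0 ≤ (A + C) / c := by positivity
  refine ⟨(A + C) + (A + C) / c, max (max T₁ T₂) 100, by positivity, fun u T hu hT => ?_⟩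
  have hT1 : T₁ ≤ T := (le_max_left _ _).trans ((le_max_left _ _).trans hT)
  have hT2 : T₂ ≤ T := (le_max_right _ _).trans ((le_max_left _ _).trans hT)
  have hT100 : 100 ≤ T := (le_max_right _ _).trans hT
  have hT0 : 0 < T := by linarith
  have hL1 : 1 ≤ Real.log T := by
    rw [Real.le_log_iff_exp_le hT0]
    have := Real.exp_one_lt_d9
    linarith
  have h1 := half_diff hk hN hu hT100
  have h2 := h u T hu hT1
  have h3 := hT₂ T hT2
  rw [← hA] at h1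
  have hLq : 1 ≤ Real.log T ^ (qq k N) := Real.one_le_rpow hL1 hq
  have hTL : 1 ≤ T * Real.log T ^ (qq k N) := by nlinarith
  have h4 : A ≤ A * (T * Real.log T ^ (qq k N)) := le_mul_of_one_le_right hA0 hTL
  have h5 : |(∫ t in Ioc 0 T ∩ Sd N u, Zp k t) - 1 / 2 * ∫ t in (0 : ℝ)..T, Zp k t| ≤ (A + C) * (T * Real.log T ^ (qq k N)) := by
    refine h1.trans ?_
    have h6 : 0 ≤ C * (T * Real.log T ^ (qq k N)) := by positivity
    calc A + 1 / 2 * |Sn k N u 0 T| ≤ A * (T * Real.log T ^ (qq k N)) + C * (T * Real.log T ^ (qq k N)) := by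
          have := abs_nonneg (Sn k N u 0 T)
          linarith
      _ = _ := by ring
  have hI : 0 ≤ ∫ t in (0 : ℝ)..T, Zp k t := intervalIntegral.integral_nonneg hT0.le fun t _ => Zp_nonneg k t
  constructor
  · refine h5.trans ?_
    apply mul_le_mul_of_nonneg_right _ (by positivity)
    linarith
  · refine h5.trans ?_
    have h7 : Real.log T ^ (qq k N) ≤ Real.log T ^ (-(1 / 4) : ℝ) * Real.log T ^ ((k : ℝ) ^ 2 / 4) := by
      rw [← Real.rpow_add (by linarith)]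
      apply Real.rpow_le_rpow_of_exponent_le hL1
      have := qq_le hk hk3 hN
      linarith
    obtain ⟨l, hl'⟩ : ∃ l, l = Real.log T ^ (-(1 / 4) : ℝ) := ⟨_, rfl⟩
    have hl0 : 0 ≤ l := by rw [hl']; positivity
    obtain ⟨I, hI'⟩ : ∃ I, I = ∫ t in (0 : ℝ)..T, Zp k t := ⟨_, rfl⟩
    rw [← hl'] at h7 ⊢
    rw [← hI'] at h3 hI ⊢
    obtain ⟨G, hG⟩ : ∃ G, G = Real.log T ^ ((k : ℝ) ^ 2 / 4) := ⟨_, rfl⟩
    rw [← hG] at h3 h7
    have h8 : T * Real.log T ^ (qq k N) ≤ l * (I / c) := by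
      calc T * Real.log T ^ (qq k N) ≤ T * (l * G) := mul_le_mul_of_nonneg_left h7 hT0.le
        _ = l * (T * G) := by ring
        _ ≤ l * (I / c) := by
          apply mul_le_mul_of_nonneg_left _ hl0
          rw [le_div_iff₀ hc]
          linarith
    calc (A + C) * (T * Real.log T ^ (qq k N)) ≤ (A + C) * (l * (I / c)) := mul_le_mul_of_nonneg_left h8 (by positivity)
      _ = (A + C) / c * l * I := by ring
      _ ≤ ((A + C) + (A + C) / c) * l * I := by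
        apply mul_le_mul_of_nonneg_right _ hI
        apply mul_le_mul_of_nonneg_right _ hl0
        linarith

end Pool.Agent.N30.OD
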