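import Pool.Agent.N30.OD.Cx

set_option autoImplicit false

/-! The signed moments of order `k ≤ 3` for `N ≥ k` lines, with a power saving. -/

open Complex MeasureTheory Set Filter Topology

namespace Pool.Agent.N30.OD

open Pool.Agent.W188.QS Pool.Agent.N30.MZ

/-- the signed moments of order `k ≤ 3` for `N ≥ k` lines -/
theorem signed_pow {k N : ℕ} (hk : 1 ≤ k) (hk3 : k ≤ 3) (hkN : k ≤ N) (hNk : N % 2 = k % 2) :
    ∃ δ C T₀ : ℝ, 0 < δ ∧ δ ≤ 1 ∧ 0 ≤ C ∧ ∀ (u : ℂ) (T : ℝ), u ≠ 0 → T₀ ≤ T →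
      |Sn k N u 0 T - bb N u * ((if N = k then 1 else 0) * T)| ≤ C * T ^ (1 - δ) := by
  have hN : 1 ≤ N := hk.trans hkN
  obtain ⟨C1, B1, T1, hC1, hB1, hT1, h1⟩ := exact k hk
  obtain ⟨K2, δ, B2, T2, hK2, hδ, hδ4, hB2, hT2, h2⟩ := CC_low k hk
  obtain ⟨mm, hmm⟩ : ∃ mm : ℝ, mm = if N = k then 1 else 0 := ⟨_, rfl⟩
  rw [← hmm]
  obtain ⟨K, hK⟩ : ∃ K, K = C1 + 4 / Real.pi * K2 := ⟨_, rfl⟩
  have hpi := Real.pi_pos
  have hK0 : 0 ≤ K := by rw [hK]; positivity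
  have hH : Hyp k N (fun _ => mm) (fun T => K * T ^ (-(2 : ℝ))) := by
    refine ⟨δ, max B1 B2, max T1 T2, hδ, hδ4, lt_of_lt_of_le (by linarith) (le_max_left B1 B2), fun u T Δ hu hT hΔ hBT => ?_⟩
    have t1 : T1 ≤ T := (le_max_left _ _).trans hT
    have t2 : T2 ≤ T := (le_max_right _ _).trans hT
    have hT100 : 100 ≤ T := hT1.trans t1
    have hT0 : 0 < T := by linarith
    have hΔ1 : 1 ≤ Δ := by
      refine le_trans ?_ hΔ
      exact Real.one_le_rpow (by linarith) (by linarith)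
    have hΔ0 : 0 < Δ := by linarith
    have hBB : ∀ b : ℝ, b ≤ max B1 B2 → b * Δ * √(Real.log T) ≤ T := by
      intro b hb
      refine le_trans ?_ hBT
      apply mul_le_mul_of_nonneg_right _ (Real.sqrt_nonneg _)
      exact mul_le_mul_of_nonneg_right hb hΔ0.le
    have h3 := h1 N u T Δ hN hNk hu t1 hΔ1 (hBB B1 (le_max_left _ _))
    have h4 := (h2 T Δ t2 hΔ (hBB B2 (le_max_right _ _))).1
    have h6 : 0 ≤ K * T ^ (-(2 : ℝ)) := by positivity
    refine le_trans ?_ (le_mul_of_one_le_left h6 hΔ1)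
    change |SG k N u T Δ - √Real.pi * Δ * (bb N u * mm)| ≤ K * T ^ (-(2 : ℝ))
    by_cases hNe : N = k
    · rw [if_pos hNe] at hmm
      subst hNe
      have e1 : (Finset.range N).filter (fun j => N * (2 * j + 1) ≤ N) = {0} := by
        ext j
        rw [Finset.mem_filter, Finset.mem_range, Finset.mem_singleton]
        constructor
        · rintro ⟨-, h⟩
          by_contra hj
          have : N * 3 ≤ N * (2 * j + 1) := Nat.mul_le_mul_left _ (by omega)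
          omega
        · rintro rfl
          simp; omega
      rw [e1, Finset.sum_singleton] at h3
      have e10 : N * (2 * 0 + 1) = N := by ring
      rw [e10, pow_zero, Nat.cast_zero, mul_zero, zero_add, div_one, one_mul] at h3
      have hu1 : ‖((‖u‖ : ℂ) / u) ^ N‖ = 1 := by
        have : ‖u‖ ≠ 0 := norm_ne_zero_iff.2 hu
        rw [norm_pow, norm_div, Complex.norm_real, norm_norm, div_self this, one_pow]
      obtain ⟨e, he⟩ : ∃ e : ℂ, e = ((‖u‖ : ℂ) / u) ^ N := ⟨_, rfl⟩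
      rw [← he] at h3 hu1
      have e2 : √Real.pi * Δ * (bb N u * mm) = 4 / Real.pi * (e * ((√Real.pi * Δ : ℝ) : ℂ)).re := by
        unfold bb
        rw [← he, mul_comm e, Complex.re_ofReal_mul, hmm]
        ring
      rw [e2]
      have h5 : |4 / Real.pi * (e * CC N N T Δ).re - 4 / Real.pi * (e * ((√Real.pi * Δ : ℝ) : ℂ)).re| ≤
          4 / Real.pi * (K2 * T ^ (-(2 : ℝ))) := by
        rw [← mul_sub, ← Complex.sub_re, ← mul_sub, abs_mul, abs_of_pos (by positivity : 0 < 4 / Real.pi)]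
        apply mul_le_mul_of_nonneg_left _ (by positivity)
        refine (Complex.abs_re_le_norm _).trans ?_
        rw [norm_mul, hu1, one_mul]
        exact h4
      calc _ ≤ C1 * T ^ (-(2 : ℝ)) + 4 / Real.pi * (K2 * T ^ (-(2 : ℝ))) := by
            have e3 : SG N N u T Δ - 4 / Real.pi * (e * ((√Real.pi * Δ : ℝ) : ℂ)).re = (SG N N u T Δ - 4 / Real.pi * (e * CC N N T Δ).re) +
              (4 / Real.pi * (e * CC N N T Δ).re - 4 / Real.pi * (e * ((√Real.pi * Δ : ℝ) : ℂ)).re) := by ring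
            rw [e3]
            exact (abs_add_le _ _).trans (add_le_add h3 h5)
        _ = K * T ^ (-(2 : ℝ)) := by rw [hK]; ring
    · rw [if_neg hNe] at hmm
      have e1 : (Finset.range k).filter (fun j => N * (2 * j + 1) ≤ k) = ∅ := by
        apply Finset.filter_eq_empty_iff.2
        intro j _ h
        have : N * 1 ≤ N * (2 * j + 1) := Nat.mul_le_mul_left _ (by omega)
        omega
      rw [e1, Finset.sum_empty, mul_zero, sub_zero] at h3
      rw [hmm, mul_zero, mul_zero, sub_zero]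
      refine h3.trans ?_
      apply mul_le_mul_of_nonneg_right _ (by positivity)
      rw [hK]
      have : 0 ≤ 4 / Real.pi * K2 := by positivity
      linarith
  have hmm1 : |mm| ≤ 1 := by
    rw [hmm]
    split_ifs <;> norm_num
  obtain ⟨δ', K', T₀, hδ', hδ'4, hK', ht⟩ := total hk hk3 hN continuousOn_const hH
    (E' := fun X => K * X ^ (-(1 / 4) : ℝ)) (by
      filter_upwards [eventually_ge_atTop 10] with X hX
      refine ⟨by positivity, fun τ hτ => ?_⟩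
      apply mul_le_mul_of_nonneg_left _ hK0
      calc τ ^ (-(2 : ℝ)) ≤ X ^ (-(2 : ℝ)) := by
            rw [Real.rpow_neg (by linarith [hτ.1]), Real.rpow_neg (by linarith)]
            apply inv_anti₀ (by positivity)
            exact Real.rpow_le_rpow (by linarith) hτ.1 (by norm_num)
        _ ≤ X ^ (-(1 / 4) : ℝ) := Real.rpow_le_rpow_of_exponent_le (by linarith) (by norm_num)) (by
      filter_upwards [eventually_ge_atTop 10] with X hX
      have hX0 : 0 < X := by linarith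
      have e1 : ∀ Y : ℝ, 0 < Y → Y * (K * Y ^ (-(1 / 4) : ℝ)) = K * Y ^ (3 / 4 : ℝ) := by
        intro Y hY
        have : Y * (K * Y ^ (-(1 / 4) : ℝ)) = K * (Y ^ (1 : ℝ) * Y ^ (-(1 / 4) : ℝ)) := by rw [Real.rpow_one]; ring
        rw [this, ← Real.rpow_add hY]
        norm_num
      rw [e1 X hX0, e1 (2 * X) (by linarith), Real.mul_rpow (by norm_num) hX0.le]
      have h2 : (4 / 3 : ℝ) ≤ 2 ^ (3 / 4 : ℝ) := by
        have h3 : ((4 / 3 : ℝ) ^ (4 : ℕ)) ≤ ((2:ℝ) ^ (3 / 4 : ℝ)) ^ (4 : ℕ) := by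
          rw [← Real.rpow_natCast ((2:ℝ) ^ (3 / 4 : ℝ)), ← Real.rpow_mul (by norm_num)]
          norm_num
        exact le_of_pow_le_pow_left₀ (by norm_num) (by positivity) h3
      have h3 : 0 ≤ K * X ^ (3 / 4 : ℝ) := by positivity
      have h4 : 3 / 4 * (K * (2 ^ (3 / 4 : ℝ) * X ^ (3 / 4 : ℝ))) = (3 / 4 * 2 ^ (3 / 4 : ℝ)) * (K * X ^ (3 / 4 : ℝ)) := by ring
      rw [h4]
      apply le_mul_of_one_le_left h3
      linarith)
  refine ⟨δ', K' + 4 * (K + 1) + 2, max T₀ 3, hδ', by linarith, by positivity, fun u T hu hT => ?_⟩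
  have h3 := ht u T hu ((le_max_left _ _).trans hT)
  have hT3 : 3 ≤ T := (le_max_right _ _).trans hT
  have hT0 : 0 < T := by linarith
  rw [intervalIntegral.integral_const, smul_eq_mul] at h3
  have e1 : T * (K * T ^ (-(1 / 4) : ℝ)) = K * T ^ (3 / 4 : ℝ) := by
    have : T * (K * T ^ (-(1 / 4) : ℝ)) = K * (T ^ (1 : ℝ) * T ^ (-(1 / 4) : ℝ)) := by rw [Real.rpow_one]; ring
    rw [this, ← Real.rpow_add hT0]
    norm_num
  rw [e1] at h3
  have h4 : T ^ (3 / 4 : ℝ) ≤ T ^ (1 - δ') := Real.rpow_le_rpow_of_exponent_le (by linarith) (by linarith)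
  have h5 : 1 ≤ T ^ (1 - δ') := Real.one_le_rpow (by linarith) (by linarith)
  have h6 := bb_abs N hu
  have h6' : |bb N u * mm| ≤ 2 := by
    rw [abs_mul]
    calc |bb N u| * |mm| ≤ 2 * 1 := mul_le_mul h6 hmm1 (abs_nonneg _) (by norm_num)
      _ = 2 := by norm_num
  have e2 : Sn k N u 0 T - bb N u * (mm * T) = (Sn k N u 0 T - bb N u * ((T - 1) * mm)) - bb N u * mm := by ring
  rw [e2]
  refine (abs_sub _ _).trans ?_
  have h7 : K * T ^ (3 / 4 : ℝ) ≤ K * T ^ (1 - δ') := mul_le_mul_of_nonneg_left h4 hK0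
  have h8 : K' ≤ K' * T ^ (1 - δ') := le_mul_of_one_le_right hK' h5
  calc _ ≤ (K' + 4 * (K * T ^ (3 / 4 : ℝ) + T ^ (1 - δ'))) + 2 := add_le_add h3 h6'
    _ ≤ (K' * T ^ (1 - δ') + 4 * (K * T ^ (1 - δ') + T ^ (1 - δ'))) + 2 * T ^ (1 - δ') := by linarith
    _ = _ := by ring

/-- the difference of a side and one half is one half of the signed moment -/
lemma half_eq {k N : ℕ} (hk : 1 ≤ k) (hN : 1 ≤ N) {u : ℂ} (hu : u ≠ 0) {T : ℝ} (hT : 100 ≤ T) :
    |(∫ t in Ioc 0 T ∩ Sd N u, Zp k t) - 1 / 2 * (∫ t in (0 : ℝ)..T, Zp k t) - 1 / 2 * Sn k N u 0 T| ≤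
      ∫ t in (0 : ℝ)..100, Zp k t := by
  have hun : Ioc (0 : ℝ) T ∩ Sd N u = (Ioc 0 100 ∩ Sd N u) ∪ (Ioc 100 T ∩ Sd N u) := by
    rw [← union_inter_distrib_right, Ioc_union_Ioc_eq_Ioc (by norm_num) hT]
  have hZi : ∀ a b : ℝ, IntegrableOn (Zp k) (Ioc a b ∩ Sd N u) := fun a b =>
    ((Zp_cont k).integrableOn_Ioc).mono_set inter_subset_left
  have hd : Disjoint (Ioc (0:ℝ) 100 ∩ Sd N u) (Ioc 100 T ∩ Sd N u) := by
    rw [Set.disjoint_left]
    rintro t ⟨⟨_, h⟩, _⟩ ⟨⟨h', _⟩, _⟩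
    linarith
  rw [hun, setIntegral_union hd (measurableSet_Ioc.inter (Sd_meas N u)) (hZi _ _) (hZi _ _)]
  have h1 := side_int hk hN hu (f := fun _ => 1) continuous_const (a := 100) (b := T) le_rfl
  simp only [mul_one] at h1
  rw [h1]
  obtain ⟨A, hA⟩ : ∃ A, A = ∫ t in (0 : ℝ)..100, Zp k t := ⟨_, rfl⟩
  obtain ⟨a, ha⟩ : ∃ a, a = ∫ t in Ioc 0 100 ∩ Sd N u, Zp k t := ⟨_, rfl⟩
  have ha0 : 0 ≤ a := by
    rw [ha]
    exact setIntegral_nonneg (measurableSet_Ioc.inter (Sd_meas N u)) fun t _ => Zp_nonneg k t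
  have haA : a ≤ A := by
    rw [ha, hA, intervalIntegral.integral_of_le (by norm_num)]
    exact setIntegral_mono_set ((Zp_cont k).integrableOn_Ioc) (Filter.Eventually.of_forall fun t => Zp_nonneg k t)
      (inter_subset_left.eventuallyLE)
  have e1 : ∫ t in (0 : ℝ)..T, Zp k t = A + ∫ t in Ioc 100 T, Zp k t := by
    rw [hA, ← intervalIntegral.integral_of_le hT, intervalIntegral.integral_add_adjacent_intervals
      ((Zp_cont k).intervalIntegrable _ _) ((Zp_cont k).intervalIntegrable _ _)]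
  have e2 : Sn k N u 0 T = Sn k N u 0 100 + ∫ t in Ioc 100 T, Zp k t * Real.sign ((zz t / u) ^ N).re := by
    unfold Sn
    rw [← intervalIntegral.integral_of_le hT, intervalIntegral.integral_add_adjacent_intervals (Sn_ii k N u _ _) (Sn_ii k N u _ _)]
  have h2 := Sn_abs k N u (a := 0) (b := 100) (by norm_num)
  rw [← hA] at h2
  obtain ⟨b, hb⟩ : ∃ b, b = ∫ t in Ioc 100 T, Zp k t * Real.sign ((zz t / u) ^ N).re := ⟨_, rfl⟩
  obtain ⟨d, hd'⟩ : ∃ d, d = ∫ t in Ioc 100 T, Zp k t := ⟨_, rfl⟩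
  rw [e1, e2, ← ha, ← hA, ← hb, ← hd']
  obtain ⟨s, hs⟩ : ∃ s, s = Sn k N u 0 100 := ⟨_, rfl⟩
  rw [← hs] at h2 ⊢
  have h3 := abs_le.1 h2
  rw [abs_le]
  constructor <;> linarith [h3.1, h3.2]

/-- the moments over the sides, `N ≥ k` -/
theorem side_pow {k N : ℕ} (hk : 1 ≤ k) (hk3 : k ≤ 3) (hkN : k ≤ N) (hNk : N % 2 = k % 2) :
    ∃ δ C T₀ : ℝ, 0 < δ ∧ 0 ≤ C ∧ ∀ (u : ℂ) (T : ℝ), u ≠ 0 → T₀ ≤ T →
      |(∫ t in Ioc 0 T ∩ Sd N u, Zp k t) - 1 / 2 * (∫ t in (0 : ℝ)..T, Zp k t) -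
        1 / 2 * (bb N u * ((if N = k then 1 else 0) * T))| ≤ C * T ^ (1 - δ) := by
  obtain ⟨δ, C, T₁, hδ, hδ1, hC, h⟩ := signed_pow hk hk3 hkN hNk
  obtain ⟨A, hA⟩ : ∃ A, A = ∫ t in (0 : ℝ)..100, Zp k t := ⟨_, rfl⟩
  have hA0 : 0 ≤ A := by
    rw [hA]
    exact intervalIntegral.integral_nonneg (by norm_num) fun t _ => Zp_nonneg k t
  refine ⟨δ, A + C, max T₁ 100, hδ, by positivity, fun u T hu hT => ?_⟩
  have hT1 : T₁ ≤ T := (le_max_left _ _).trans hT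
  have hT100 : 100 ≤ T := (le_max_right _ _).trans hT
  have h1 := half_eq hk (hk.trans hkN) hu hT100
  have h2 := h u T hu hT1
  rw [← hA] at h1
  have h3 : 1 ≤ T ^ (1 - δ) := Real.one_le_rpow (by linarith) (by linarith)
  obtain ⟨M, hM⟩ : ∃ M, M = bb N u * ((if N = k then 1 else 0) * T) := ⟨_, rfl⟩
  rw [← hM] at h2 ⊢
  obtain ⟨x, hx⟩ : ∃ x, x = (∫ t in Ioc 0 T ∩ Sd N u, Zp k t) - 1 / 2 * (∫ t in (0 : ℝ)..T, Zp k t) := ⟨_, rfl⟩
  rw [← hx] at h1 ⊢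
  have e : x - 1 / 2 * M = (x - 1 / 2 * Sn k N u 0 T) + 1 / 2 * (Sn k N u 0 T - M) := by ring
  rw [e]
  refine (abs_add_le _ _).trans ?_
  rw [abs_mul, abs_of_pos (by norm_num : (0:ℝ) < 1 / 2)]
  have h4 : A ≤ A * T ^ (1 - δ) := le_mul_of_one_le_right hA0 h3
  have h5 := abs_nonneg (Sn k N u 0 T - M)
  calc _ ≤ A * T ^ (1 - δ) + C * T ^ (1 - δ) := by linarith
    _ = _ := by ring

/-- the third moments over half planes -/
theorem side_three : ∃ C T₀ : ℝ, 0 ≤ C ∧ ∀ (u : ℂ) (T : ℝ), u ≠ 0 → T₀ ≤ T →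
      |(∫ t in Ioc 0 T ∩ Sd 1 u, Zp 3 t) - 1 / 2 * (∫ t in (0 : ℝ)..T, Zp 3 t) -
        1 / 2 * (bb 1 u * (T * Real.log T ^ 2 / 2))| ≤ C * (T * Real.log T) := by
  obtain ⟨C, T₁, hC, h⟩ := signed_three
  obtain ⟨A, hA⟩ : ∃ A, A = ∫ t in (0 : ℝ)..100, Zp 3 t := ⟨_, rfl⟩
  have hA0 : 0 ≤ A := by
    rw [hA]
    exact intervalIntegral.integral_nonneg (by norm_num) fun t _ => Zp_nonneg 3 t
  refine ⟨A + C, max T₁ 100, by positivity, fun u T hu hT => ?_⟩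
  have hT1 : T₁ ≤ T := (le_max_left _ _).trans hT
  have hT100 : 100 ≤ T := (le_max_right _ _).trans hT
  have hL1 : 1 ≤ Real.log T := by
    rw [Real.le_log_iff_exp_le (by linarith)]
    have := Real.exp_one_lt_d9
    linarith
  have h1 := half_eq (k := 3) (by norm_num) le_rfl hu hT100
  have h2 := h u T hu hT1
  rw [← hA] at h1
  have h3 : 1 ≤ T * Real.log T := by nlinarith
  obtain ⟨M, hM⟩ : ∃ M, M = bb 1 u * (T * Real.log T ^ 2 / 2) := ⟨_, rfl⟩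
  rw [← hM] at h2 ⊢
  obtain ⟨x, hx⟩ : ∃ x, x = (∫ t in Ioc 0 T ∩ Sd 1 u, Zp 3 t) - 1 / 2 * (∫ t in (0 : ℝ)..T, Zp 3 t) := ⟨_, rfl⟩
  rw [← hx] at h1 ⊢
  have e : x - 1 / 2 * M = (x - 1 / 2 * Sn 3 1 u 0 T) + 1 / 2 * (Sn 3 1 u 0 T - M) := by ring
  rw [e]
  refine (abs_add_le _ _).trans ?_
  rw [abs_mul, abs_of_pos (by norm_num : (0:ℝ) < 1 / 2)]
  have h4 : A ≤ A * (T * Real.log T) := le_mul_of_one_le_right hA0 h3
  have h5 := abs_nonneg (Sn 3 1 u 0 T - M)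
  calc _ ≤ A * (T * Real.log T) + C * (T * Real.log T) := by linarith
    _ = _ := by ring

end Pool.Agent.N30.OD
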