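import Pool.Agent.N30.OD.Sw
import Pool.Agent.W188.QS.Asm3
import Pool.Agent.R313.FM.Main

set_option autoImplicit false

/-! The measures `|ζ|^k dt`, and the part on one side of the lines. -/

open Complex MeasureTheory Set Filter Topology

namespace Pool.Agent.N30.OD

open Pool.Agent.W188.QS Pool.Agent.N30.MZ

/-- `|ζ|^k` -/
noncomputable def Zp (k : ℕ) (t : ℝ) : ℝ := ‖zz t‖ ^ k

lemma Zp_cont (k : ℕ) : Continuous (Zp k) := zz_cont.norm.pow _

lemma Zp_nonneg (k : ℕ) (t : ℝ) : 0 ≤ Zp k t := by unfold Zp; positivity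

/-- the measure `|ζ|^k dt` on `t > 100` -/
noncomputable def mo (k : ℕ) : Measure ℝ :=
  (volume.restrict (Ioi 100)).withDensity (fun t => ENNReal.ofReal (Zp k t))

theorem mo_int (k : ℕ) (g : ℝ → ℝ) {S : Set ℝ} (hS : MeasurableSet S) (h : S ⊆ Ioi 100) :
    ∫ t in S, g t ∂(mo k) = ∫ t in S, Zp k t * g t := by
  unfold mo
  rw [restrict_withDensity hS, Measure.restrict_restrict hS, Set.inter_eq_left.2 h,
    integral_withDensity_eq_integral_toReal_smul]
  · refine integral_congr_ae (Filter.Eventually.of_forall (fun t => ?_))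
    change (ENNReal.ofReal (Zp k t)).toReal • g t = Zp k t * g t
    rw [ENNReal.toReal_ofReal (Zp_nonneg k t), smul_eq_mul]
  · exact (Zp_cont k).measurable.ennreal_ofReal
  · exact Filter.Eventually.of_forall (fun t => ENNReal.ofReal_lt_top)

theorem mo_real (k : ℕ) {S : Set ℝ} (hS : MeasurableSet S) (h : S ⊆ Ioi 100) :
    (mo k).real S = ∫ t in S, Zp k t := by
  have h1 := mo_int k (fun _ => 1) hS h
  rw [setIntegral_const, smul_eq_mul, mul_one] at h1
  rw [h1]
  simp only [mul_one]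

theorem mo_Iic (k : ℕ) (x : ℝ) : mo k (Iic x) < ⊤ := by
  unfold mo
  rw [withDensity_apply _ measurableSet_Iic, Measure.restrict_restrict measurableSet_Iic]
  have h1 : Iic x ∩ Ioi (100 : ℝ) = Ioc 100 x := by
    ext t
    simp only [Set.mem_inter_iff, Set.mem_Iic, Set.mem_Ioi, Set.mem_Ioc]
    exact and_comm
  rw [h1]
  have h2 : IntegrableOn (Zp k) (Ioc 100 x) volume := (Zp_cont k).integrableOn_Ioc
  exact Integrable.lintegral_lt_top h2

lemma mo_zero (k : ℕ) : mo k (Iic 100) = 0 := by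
  unfold mo
  rw [withDensity_apply _ measurableSet_Iic, Measure.restrict_restrict measurableSet_Iic]
  have : Iic (100 : ℝ) ∩ Ioi 100 = ∅ := by
    ext t
    simp only [mem_inter_iff, mem_Iic, mem_Ioi, mem_empty_iff_false, iff_false]
    rintro ⟨h, h'⟩
    linarith
  rw [this]
  simp

/-- the heights at which `(ζ/u)^N` has positive real part -/
def Sd (N : ℕ) (u : ℂ) : Set ℝ := {t | 0 < ((zz t / u) ^ N).re}

lemma Sd_meas (N : ℕ) (u : ℂ) : MeasurableSet (Sd N u) := by
  unfold Sd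
  have h1 : Measurable zz := zz_cont.measurable
  have h2 : Measurable fun t => ((zz t / u) ^ N).re := Complex.measurable_re.comp ((h1.div_const _).pow_const _)
  exact measurableSet_lt measurable_const h2

/-- the phase is almost never `±i` -/
lemma ae_ne {N : ℕ} (hN : 1 ≤ N) {u : ℂ} (hu : u ≠ 0) : ∀ᵐ t : ℝ, 100 < t → zz t ≠ 0 → ((zz t / u) ^ N).re ≠ 0 := by
  obtain ⟨c, hc⟩ : ∃ c : ℂ, c = -((‖u‖ : ℂ) / u) ^ (2 * N) := ⟨_, rfl⟩
  have hc1 : ‖c‖ = 1 := by
    have : ‖u‖ ≠ 0 := norm_ne_zero_iff.2 hu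
    rw [hc, norm_neg, norm_pow, norm_div, Complex.norm_real, norm_norm, div_self this, one_pow]
  have hfin := a_line.2.2.2.2.2.2.2.2.2 c N hc1 hN
  have hcount : (PP c N).Countable := by
    have : PP c N = ⋃ n : ℕ, PP c N ∩ Iic (n : ℝ) := by
      rw [← inter_iUnion]
      have : (⋃ n : ℕ, Iic (n : ℝ)) = univ := by
        rw [eq_univ_iff_forall]
        intro x
        obtain ⟨n, hn⟩ := exists_nat_ge x
        exact mem_iUnion.2 ⟨n, hn⟩
      rw [this, inter_univ]
    rw [this]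
    exact countable_iUnion fun n => (hfin n).countable
  have h0 : volume (PP c N) = 0 := hcount.measure_zero _
  have h1 : ∀ᵐ t : ℝ, t ∉ PP c N := measure_eq_zero_iff_ae_notMem.1 h0
  filter_upwards [h1] with t ht h100 hz hre
  apply ht
  refine ⟨h100, ?_⟩
  unfold ww
  rw [← unit_sq (by linarith) hz, ← pow_mul]
  -- the phase
  have h2 : ‖ph N u t‖ = 1 := ph_norm hu hz
  have h3 : (ph N u t).re = 0 := by
    have h4 : 0 < ‖u‖ := norm_pos_iff.2 hu
    have h5 : 0 < ‖zz t‖ := norm_pos_iff.2 hz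
    have e : ph N u t = (((‖u‖ / ‖zz t‖) ^ N : ℝ) : ℂ) * (zz t / u) ^ N := by
      unfold ph
      push_cast
      rw [← mul_pow]
      congr 1
      have : (‖zz t‖ : ℂ) ≠ 0 := by exact_mod_cast h5.ne'
      field_simp
    rw [e, Complex.re_ofReal_mul, hre, mul_zero]
  have h4 : (ph N u t) ^ 2 = -1 := by
    have h5 : (ph N u t).im ^ 2 = 1 := by
      have := Complex.sq_norm (ph N u t)
      rw [h2, Complex.normSq_apply, h3] at this
      nlinarith
    have e : ph N u t = ((ph N u t).im : ℂ) * I := by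
      apply Complex.ext
      · simp [h3]
      · simp
    rw [e, mul_pow, I_sq, ← Complex.ofReal_pow, h5]
    simp
  have h5 : (ph N u t) ^ 2 = ((‖u‖ : ℂ) / u) ^ (2 * N) * (zz t / (‖zz t‖ : ℂ)) ^ (2 * N) := by
    unfold ph
    rw [← pow_mul, mul_pow, mul_comm N 2]
  rw [hc, neg_mul, ← h5, h4, neg_neg]

/-- the integral over one side -/
lemma side_int {k : ℕ} (hk : 1 ≤ k) {N : ℕ} (hN : 1 ≤ N) {u : ℂ} (hu : u ≠ 0) {f : ℝ → ℝ} (hf : Continuous f) {a b : ℝ} (ha : 100 ≤ a) :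
    ∫ t in Ioc a b ∩ Sd N u, Zp k t * f t = 1 / 2 * ((∫ t in Ioc a b, Zp k t * f t) +
      ∫ t in Ioc a b, Zp k t * Real.sign ((zz t / u) ^ N).re * f t) := by
  have hm : Measurable fun t => ((zz t / u) ^ N).re := Complex.measurable_re.comp ((zz_cont.measurable.div_const _).pow_const _)
  have hsgn : Measurable Real.sign := by
    unfold Real.sign
    exact Measurable.ite (measurableSet_lt measurable_id measurable_const) measurable_const
      (Measurable.ite (measurableSet_lt measurable_const measurable_id) measurable_const measurable_const)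
  have hI1 : IntegrableOn (fun t => Zp k t * f t) (Ioc a b) := ((Zp_cont k).mul hf).integrableOn_Ioc
  have hI2 : IntegrableOn (fun t => Zp k t * Real.sign ((zz t / u) ^ N).re * f t) (Ioc a b) := by
    have : (fun t => Zp k t * Real.sign ((zz t / u) ^ N).re * f t) = fun t => Real.sign ((zz t / u) ^ N).re * (Zp k t * f t) := by
      funext t; ring
    rw [this]
    refine Integrable.bdd_mul (c := 1) hI1 (hsgn.comp hm).aestronglyMeasurable (Eventually.of_forall fun t => ?_)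
    rcases Real.sign_apply_eq ((zz t / u) ^ N).re with h | h | h <;> rw [h] <;> norm_num
  rw [← integral_add hI1 hI2, ← integral_const_mul, inter_comm, ← Measure.restrict_restrict (Sd_meas N u),
    ← integral_indicator (Sd_meas N u)]
  apply integral_congr_ae
  rw [EventuallyEq, ae_restrict_iff' measurableSet_Ioc]
  filter_upwards [ae_ne hN hu] with t ht htI
  have h100 : 100 < t := lt_of_le_of_lt ha htI.1
  by_cases hz : zz t = 0
  · have h0 : Zp k t = 0 := by unfold Zp; rw [hz, norm_zero, zero_pow (by omega)]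
    simp only [indicator, h0]
    simp
  · have h1 := ht h100 hz
    simp only [indicator, Sd, mem_ofPred_eq]
    rcases lt_trichotomy ((zz t / u) ^ N).re 0 with h | h | h
    · rw [if_neg (by linarith), Real.sign_of_neg h]; ring
    · exact absurd h h1
    · rw [if_pos h, Real.sign_of_pos h]; ring

/-- the measure on one side -/
noncomputable def nus (k N : ℕ) (u : ℂ) : Measure ℝ := (mo k).restrict (Sd N u)

/-- one half of the measure -/
noncomputable def mus (k : ℕ) : Measure ℝ := ENNReal.ofReal (1 / 2) • mo k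

lemma nus_int (k N : ℕ) (u : ℂ) (g : ℝ → ℝ) {S : Set ℝ} (hS : MeasurableSet S) (h : S ⊆ Ioi 100) :
    ∫ t in S, g t ∂(nus k N u) = ∫ t in S ∩ Sd N u, Zp k t * g t := by
  unfold nus
  rw [Measure.restrict_restrict hS]
  exact mo_int k g (hS.inter (Sd_meas N u)) (inter_subset_left.trans h)

lemma nus_real (k N : ℕ) (u : ℂ) {S : Set ℝ} (hS : MeasurableSet S) (h : S ⊆ Ioi 100) :
    (nus k N u).real S = ∫ t in S ∩ Sd N u, Zp k t := by
  have h1 := nus_int k N u (fun _ => 1) hS h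
  rw [setIntegral_const, smul_eq_mul, mul_one] at h1
  rw [h1]
  simp only [mul_one]

lemma mus_real (k : ℕ) (S : Set ℝ) : (mus k).real S = 1 / 2 * (mo k).real S := by
  unfold mus
  rw [measureReal_ennreal_smul_apply, ENNReal.toReal_ofReal (by norm_num)]

lemma mus_int (k : ℕ) (g : ℝ → ℝ) (S : Set ℝ) :
    ∫ t in S, g t ∂(mus k) = 1 / 2 * ∫ t in S, g t ∂(mo k) := by
  unfold mus
  rw [Measure.restrict_smul, integral_smul_measure, ENNReal.toReal_ofReal (by norm_num), smul_eq_mul]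

lemma mus_fin (k : ℕ) (x : ℝ) : mus k (Iic x) < ⊤ := by
  unfold mus
  rw [Measure.smul_apply, smul_eq_mul]
  exact ENNReal.mul_lt_top ENNReal.ofReal_lt_top (mo_Iic k x)

lemma nus_fin (k N : ℕ) (u : ℂ) (x : ℝ) : nus k N u (Iic x) < ⊤ :=
  lt_of_le_of_lt (Measure.restrict_apply_le _ _) (mo_Iic k x)

/-- the exponent of the error term -/
noncomputable def qq (k N : ℕ) : ℝ := if N + 2 = k then k - 1 else 0

lemma qq_lt {k N : ℕ} (hk : 1 ≤ k) (hN : 1 ≤ N) : qq k N < (k : ℝ) ^ 2 / 4 := by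
  unfold qq
  split_ifs with h
  · have : (3 : ℝ) ≤ k := by exact_mod_cast (by omega : 3 ≤ k)
    nlinarith
  · have : (1 : ℝ) ≤ k := by exact_mod_cast hk
    positivity

lemma qq_nonneg (k N : ℕ) : 0 ≤ qq k N := by
  unfold qq
  split_ifs with h
  · have : (2 : ℝ) ≤ k := by exact_mod_cast (by omega : 2 ≤ k)
    linarith
  · exact le_rfl

/-- bound for the signed moments -/
theorem SG_bound {k N : ℕ} (hk : 1 ≤ k) (hN : 1 ≤ N) (hNk : N % 2 = k % 2) (hkN : k ≤ N + 2) :
    ∃ K δ B T₀ : ℝ, 0 ≤ K ∧ 0 < δ ∧ δ ≤ 1 / 4 ∧ 4 ≤ B ∧ 100 ≤ T₀ ∧ ∀ (u : ℂ) (T Δ : ℝ), u ≠ 0 → T₀ ≤ T →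
    T ^ (1 - δ) ≤ Δ → B * Δ * √(Real.log T) ≤ T → |SG k N u T Δ| ≤ K * (Δ * Real.log T ^ (qq k N)) := by
  obtain ⟨C1, B1, T1, hC1, hB1, hT1, h1⟩ := exact k hk
  obtain ⟨K2, δ, B2, T2, hK2, hδ, hδ4, hB2, hT2, h2⟩ := CC_low k hk
  refine ⟨C1 + 4 / Real.pi * (k * (K2 + 2)), δ, max B1 B2, max T1 T2, ?_, hδ, hδ4, hB2.trans (le_max_right _ _),
    hT1.trans (le_max_left _ _), fun u T Δ hu hT hΔ hBT => ?_⟩
  · have := Real.pi_pos
    positivity
  have t1 : T1 ≤ T := (le_max_left _ _).trans hT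
  have t2 : T2 ≤ T := (le_max_right _ _).trans hT
  have hT100 : 100 ≤ T := hT1.trans t1
  have hT0 : 0 < T := by linarith
  have hL1 : 1 ≤ Real.log T := by
    rw [Real.le_log_iff_exp_le hT0]
    have := Real.exp_one_lt_d9
    linarith
  have hΔ1 : 1 ≤ Δ := by
    refine le_trans ?_ hΔ
    exact Real.one_le_rpow (by linarith) (by linarith)
  have hΔ0 : 0 < Δ := by linarith
  have hBB : ∀ b : ℝ, b ≤ max B1 B2 → b * Δ * √(Real.log T) ≤ T := by
    intro b hb
    refine le_trans ?_ hBT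
    apply mul_le_mul_of_nonneg_right _ (Real.sqrt_nonneg _)
    exact mul_le_mul_of_nonneg_right hb hΔ0.le
  have h3 := h1 N u T Δ hN hNk hu t1 hΔ1 (hBB B1 (le_max_left _ _))
  obtain ⟨h4, h5⟩ := h2 T Δ t2 hΔ (hBB B2 (le_max_right _ _))
  obtain ⟨L, hL⟩ : ∃ L, L = Real.log T ^ (qq k N) := ⟨_, rfl⟩
  have hLp : 1 ≤ L := by rw [hL]; exact Real.one_le_rpow hL1 (qq_nonneg k N)
  have hT2' : T ^ (-(2 : ℝ)) ≤ 1 := Real.rpow_le_one_of_one_le_of_nonpos (by linarith) (by norm_num)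
  have hΔL : 1 ≤ Δ * L := one_le_mul_of_one_le_of_one_le hΔ1 hLp
  have hΔL' : Δ ≤ Δ * L := le_mul_of_one_le_right hΔ0.le hLp
  have hsp : √Real.pi ≤ 2 := by
    rw [Real.sqrt_le_left (by norm_num)]
    have := Real.pi_lt_d2
    linarith
  have hsp0 : 0 ≤ √Real.pi := Real.sqrt_nonneg _
  have hu1 : ‖((‖u‖ : ℂ) / u)‖ = 1 := by
    have : ‖u‖ ≠ 0 := norm_ne_zero_iff.2 hu
    rw [norm_div, Complex.norm_real, norm_norm, div_self this]
  have hterm : ∀ j ∈ (Finset.range k).filter (fun j => N * (2 * j + 1) ≤ k),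
      |(-1) ^ j / (2 * (j : ℝ) + 1) * (((‖u‖ : ℂ) / u) ^ (N * (2 * j + 1)) * CC k (N * (2 * j + 1)) T Δ).re| ≤
        (K2 + 2) * (Δ * L) := by
    intro j hj
    rw [Finset.mem_filter] at hj
    have h6 : ‖CC k (N * (2 * j + 1)) T Δ‖ ≤ (K2 + 2) * (Δ * L) := by
      have hcase : N * (2 * j + 1) = k ∨ (N * (2 * j + 1) = k - 2 ∧ 3 ≤ k ∧ N + 2 = k) := by
        rcases Nat.eq_zero_or_pos j with h | h
        · subst h
          have hj2 := hj.2
          simp only [mul_zero, zero_add, mul_one] at hj2 ⊢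
          omega
        · left
          have h7 : N * 3 ≤ N * (2 * j + 1) := Nat.mul_le_mul_left _ (by omega)
          have h8 := hj.2
          have h9 : N = 1 := by omega
          subst h9
          simp only [one_mul] at h7 h8 ⊢
          omega
      rcases hcase with h | ⟨h, h3k, hN2⟩
      · rw [h]
        have e : CC k k T Δ = (CC k k T Δ - ((√Real.pi * Δ : ℝ) : ℂ)) + ((√Real.pi * Δ : ℝ) : ℂ) := by ring
        rw [e]
        refine (norm_add_le _ _).trans ?_
        rw [Complex.norm_real, Real.norm_of_nonneg (by positivity)]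
        have h8 : K2 * T ^ (-(2 : ℝ)) ≤ K2 * (Δ * L) := mul_le_mul_of_nonneg_left (hT2'.trans hΔL) hK2
        have h9 : √Real.pi * Δ ≤ 2 * (Δ * L) := mul_le_mul hsp hΔL' hΔ0.le (by norm_num)
        linarith
      · rw [h]
        have h7 := h5 (by omega)
        obtain ⟨Q, hQ⟩ : ∃ Q : ℝ, Q = √Real.pi * Δ * (Real.log T ^ (k - 1) / ((k - 1).factorial : ℝ)) := ⟨_, rfl⟩
        rw [← hQ] at h7
        have eL : L = Real.log T ^ (k - 1) := by
          rw [hL]
          unfold qq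
          rw [if_pos hN2, ← Real.rpow_natCast]
          congr 1
          rw [Nat.cast_sub (by omega)]
          simp
        have e : CC k (k - 2) T Δ = (CC k (k - 2) T Δ - ((Q : ℝ) : ℂ)) + ((Q : ℝ) : ℂ) := by ring
        rw [e]
        refine (norm_add_le _ _).trans ?_
        have hf1 : (1 : ℝ) ≤ ((k - 1).factorial : ℝ) := by exact_mod_cast Nat.succ_le_of_lt (Nat.factorial_pos _)
        have hQ0 : 0 ≤ Q := by rw [hQ]; positivity
        have hQ1 : Q ≤ 2 * (Δ * L) := by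
          rw [hQ, ← eL]
          have : L / ((k - 1).factorial : ℝ) ≤ L := div_le_self (by linarith) hf1
          calc √Real.pi * Δ * (L / ((k - 1).factorial : ℝ)) ≤ 2 * Δ * L := by
                apply mul_le_mul (mul_le_mul_of_nonneg_right hsp hΔ0.le) this (by positivity) (by positivity)
            _ = _ := by ring
        rw [Complex.norm_real, Real.norm_of_nonneg hQ0]
        have h8 : Real.log T ^ (k - 2) ≤ L := by
          rw [eL]
          exact pow_le_pow_right₀ hL1 (by omega)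
        have h9 : K2 * (Δ * Real.log T ^ (k - 2)) ≤ K2 * (Δ * L) := by
          apply mul_le_mul_of_nonneg_left _ hK2
          exact mul_le_mul_of_nonneg_left h8 hΔ0.le
        linarith
    rw [abs_mul, abs_div, abs_pow, abs_neg, abs_one, one_pow]
    have h7 : 1 / |2 * (j : ℝ) + 1| ≤ 1 := by
      rw [abs_of_nonneg (by positivity)]
      apply div_le_one_of_le₀ _ (by positivity)
      have : (0 : ℝ) ≤ j := Nat.cast_nonneg j
      linarith
    have h8 : |(((‖u‖ : ℂ) / u) ^ (N * (2 * j + 1)) * CC k (N * (2 * j + 1)) T Δ).re| ≤ (K2 + 2) * (Δ * L) := by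
      refine (Complex.abs_re_le_norm _).trans ?_
      rw [norm_mul, norm_pow, hu1, one_pow, one_mul]
      exact h6
    calc _ ≤ 1 * ((K2 + 2) * (Δ * L)) := mul_le_mul h7 h8 (abs_nonneg _) (by norm_num)
      _ = _ := one_mul _
  have hsum : |∑ j ∈ (Finset.range k).filter (fun j => N * (2 * j + 1) ≤ k),
      (-1) ^ j / (2 * (j : ℝ) + 1) * (((‖u‖ : ℂ) / u) ^ (N * (2 * j + 1)) * CC k (N * (2 * j + 1)) T Δ).re| ≤
      k * ((K2 + 2) * (Δ * L)) := by
    refine (Finset.abs_sum_le_sum_abs _ _).trans ((Finset.sum_le_sum hterm).trans ?_)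
    rw [Finset.sum_const, nsmul_eq_mul]
    apply mul_le_mul_of_nonneg_right _ (by positivity)
    exact_mod_cast (Finset.card_filter_le _ _).trans (le_of_eq (Finset.card_range k))
  rw [← hL]
  obtain ⟨A, hA⟩ : ∃ A : ℝ, A = ∑ j ∈ (Finset.range k).filter (fun j => N * (2 * j + 1) ≤ k),
      (-1) ^ j / (2 * (j : ℝ) + 1) * (((‖u‖ : ℂ) / u) ^ (N * (2 * j + 1)) * CC k (N * (2 * j + 1)) T Δ).re := ⟨_, rfl⟩
  rw [← hA] at hsum h3
  have hpi := Real.pi_pos
  have e : SG k N u T Δ = (SG k N u T Δ - 4 / Real.pi * A) + 4 / Real.pi * A := by ring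
  rw [e]
  refine (abs_add_le _ _).trans ?_
  rw [abs_mul, abs_of_pos (by positivity : 0 < 4 / Real.pi)]
  have h6 : C1 * T ^ (-(2 : ℝ)) ≤ C1 * (Δ * L) := mul_le_mul_of_nonneg_left (hT2'.trans hΔL) hC1
  have h7 : 4 / Real.pi * |A| ≤ 4 / Real.pi * (k * ((K2 + 2) * (Δ * L))) := mul_le_mul_of_nonneg_left hsum (by positivity)
  calc _ ≤ C1 * (Δ * L) + 4 / Real.pi * (k * ((K2 + 2) * (Δ * L))) := add_le_add (h3.trans h6) h7
    _ = _ := by ring

/-- Gaussian averages of the two measures -/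
theorem near_side {k N : ℕ} (hk : 1 ≤ k) (hN : 1 ≤ N) (hNk : N % 2 = k % 2) (hkN : k ≤ N + 2) {u : ℂ} (hu : u ≠ 0) :
    Near (mus k) (nus k N u) (qq k N) := by
  obtain ⟨K, δ, B1, T1, hK, hδ, hδ4, hB1, hT1, h1⟩ := SG_bound hk hN hNk hkN
  refine ⟨B1, fun B hB => ?_⟩
  have hB4 : 4 ≤ B := hB1.trans hB
  obtain ⟨T2, hT2⟩ := eventually_atTop.1 ((isLittleO_log_rpow_atTop (by positivity : (0:ℝ) < 2 * δ)).bound
    (by positivity : (0:ℝ) < (1 / (4 * B)) ^ 2))
  refine ⟨K, max (max T1 T2) 200, fun T Δ hT hΔ0 hu2 hl => ?_⟩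
  have t1 : T1 ≤ T := ((le_max_left _ _).trans (le_max_left _ _)).trans hT
  have t2 : T2 ≤ T := ((le_max_right _ _).trans (le_max_left _ _)).trans hT
  have hT200 : 200 ≤ T := (le_max_right _ _).trans hT
  have hT0 : 0 < T := by linarith
  have hL1 : 1 ≤ Real.log T := by
    rw [Real.le_log_iff_exp_le hT0]
    have := Real.exp_one_lt_d9
    linarith
  have hs0 : 0 < √(Real.log T) := Real.sqrt_pos.2 (by linarith)
  have hsT : √(Real.log T) ≤ 1 / (4 * B) * T ^ δ := by
    apply Real.sqrt_le_iff.2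
    refine ⟨by positivity, ?_⟩
    have h2 := hT2 T t2
    rw [Real.norm_of_nonneg (by linarith), Real.norm_of_nonneg (by positivity)] at h2
    refine h2.trans (le_of_eq ?_)
    rw [mul_pow, ← Real.rpow_natCast (T ^ δ), ← Real.rpow_mul hT0.le]
    congr 2
    push_cast
    ring
  have hΔ : T ^ (1 - δ) ≤ Δ := by
    have h2 : T ≤ Δ * T ^ δ := by
      calc T ≤ 4 * B * Δ * √(Real.log T) := hu2
        _ ≤ 4 * B * Δ * (1 / (4 * B) * T ^ δ) := mul_le_mul_of_nonneg_left hsT (by positivity)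
        _ = _ := by field_simp
    rw [Real.rpow_sub hT0, Real.rpow_one, div_le_iff₀ (by positivity)]
    exact h2
  have hl1 : B1 * Δ * √(Real.log T) ≤ T := by
    refine le_trans ?_ hl
    apply mul_le_mul_of_nonneg_right _ hs0.le
    exact mul_le_mul_of_nonneg_right hB hΔ0.le
  have h3 := h1 u T Δ hu t1 hΔ hl1
  have hsub' : Ioo (T / 2) (3 * T / 2) ⊆ Ioi (100 : ℝ) := fun t ht => by
    have := ht.1
    simp only [mem_Ioi]
    linarith
  have e1 : ∫ t in Ioo (T / 2) (3 * T / 2), gg T Δ t ∂(mus k) =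
      1 / 2 * ∫ t in Ioc (T / 2) (3 * T / 2), Zp k t * gg T Δ t := by
    rw [mus_int k, mo_int k _ measurableSet_Ioo hsub', integral_Ioc_eq_integral_Ioo]
  have e2 : ∫ t in Ioo (T / 2) (3 * T / 2), gg T Δ t ∂(nus k N u) =
      1 / 2 * ((∫ t in Ioc (T / 2) (3 * T / 2), Zp k t * gg T Δ t) + SG k N u T Δ) := by
    have e3 : ∫ t in Ioo (T / 2) (3 * T / 2) ∩ Sd N u, Zp k t * gg T Δ t =
        ∫ t in Ioc (T / 2) (3 * T / 2) ∩ Sd N u, Zp k t * gg T Δ t := by
      apply setIntegral_congr_set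
      exact Ioo_ae_eq_Ioc.inter (ae_eq_refl _)
    rw [nus_int k N u _ measurableSet_Ioo hsub', e3, side_int hk hN hu (Pool.Agent.N30.MZ.gg_cont T Δ) (by linarith)]
    unfold SG
    rw [intervalIntegral.integral_of_le (by linarith)]
    rfl
  rw [e1, e2]
  have e4 : 1 / 2 * (∫ t in Ioc (T / 2) (3 * T / 2), Zp k t * gg T Δ t) -
      1 / 2 * ((∫ t in Ioc (T / 2) (3 * T / 2), Zp k t * gg T Δ t) + SG k N u T Δ) = -(1 / 2 * SG k N u T Δ) := by ring
  rw [e4, abs_neg, abs_mul, abs_of_pos (by norm_num : (0:ℝ) < 1 / 2)]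
  have h5 := abs_nonneg (SG k N u T Δ)
  calc 1 / 2 * |SG k N u T Δ| ≤ |SG k N u T Δ| := by linarith
    _ ≤ K * (Δ * Real.log T ^ (qq k N)) := h3
    _ = _ := by ring

/-- lower bound for the moments -/
lemma low_all {k : ℕ} (hk : 1 ≤ k) : ∃ c : ℝ, 0 < c ∧ ∀ᶠ T : ℝ in atTop,
    c * (T * Real.log T ^ ((k : ℝ) ^ 2 / 4)) ≤ ∫ t in T..(2 * T), Zp k t := by
  by_cases hk2 : 2 ≤ k
  · have h1 : (2 : ℝ) ≤ k := by exact_mod_cast hk2
    obtain ⟨c, hc, h⟩ := Pool.Agent.W188.Mom.lower (p := (k : ℝ)) h1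
    refine ⟨c, hc, ?_⟩
    filter_upwards [h] with T hT
    have e : ∀ t, Pool.Agent.W188.Mom.Z t ^ (k : ℝ) = Zp k t := fun t => by
      rw [Real.rpow_natCast]
      rfl
    simp only [e] at hT
    rwa [two_mul]
  · have hk1 : k = 1 := by omega
    subst hk1
    have hA := Pool.Agent.R313.FM.A0_pos
    refine ⟨59 / 100 * Pool.Agent.R313.FM.A0, by positivity, ?_⟩
    have h := (tendsto_id.const_mul_atTop (by norm_num : (0:ℝ) < 2)).eventually (Pool.Agent.R313.FM.first_lower (α := 1))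
    filter_upwards [h, eventually_ge_atTop 10] with T hT hT10
    have hT0 : 0 < T := by linarith
    have hl : Real.log T ≤ Real.log (2 * T) := Real.log_le_log hT0 (by linarith)
    have hl2 : 2 ≤ Real.log (2 * T) := by
      rw [Real.le_log_iff_exp_le (by positivity)]
      have h1 := Real.exp_one_lt_d9
      have h2 : Real.exp 2 = Real.exp 1 ^ 2 := by rw [← Real.exp_nat_mul]; norm_num
      rw [h2]
      have h3 : Real.exp 1 ^ 2 ≤ 2.7182818286 ^ 2 := pow_le_pow_left₀ (Real.exp_pos _).le h1.le 2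
      nlinarith
    have h1 := hT T T ⟨hT0.le, hT0, by simp only [id_eq]; linarith, by
      simp only [id_eq, Real.rpow_one]
      nlinarith⟩
    have e3 : Pool.Agent.R313.FM.ZZ 0 (2 * T) T T = ∫ t in T..(T + T), Zp 1 t := by
      unfold Pool.Agent.R313.FM.ZZ Pool.Agent.W184.zn Zp zz cp
      simp
    simp only [id_eq] at h1
    rw [e3, ← two_mul] at h1
    refine le_trans ?_ h1
    apply mul_le_mul_of_nonneg_left _ (by positivity)
    unfold Pool.Agent.R313.FM.mm
    have e1 : Pool.Agent.R313.FM.kh ^ 2 = 1 / 4 := by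
      unfold Pool.Agent.R313.FM.kh; norm_num
    rw [e1]
    apply mul_le_mul_of_nonneg_left _ hT0.le
    have e4 : (((1 : ℕ) : ℝ) ^ 2 / 4) = 1 / 4 := by norm_num
    rw [e4]
    apply Real.rpow_le_rpow (Real.log_nonneg (by linarith)) hl (by norm_num)

lemma growk (k : ℕ) {T : ℝ} (hT : 100 ≤ T) : ∫ t in (100 : ℝ)..T, Zp k t ≤ T ^ ((2 * k + 1 : ℕ) : ℝ) := by
  have hT0 : 0 < T := by linarith
  have h1 : ∀ t ∈ Icc (100 : ℝ) T, Zp k t ≤ T ^ (2 * k) := by
    intro t ht
    have h2 : ‖riemannZeta (cp t)‖ ≤ t ^ 2 := Pool.Agent.W188.Mom.Z_le_sq ht.1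
    have h3 : ‖riemannZeta (cp t)‖ ≤ T ^ 2 :=
      h2.trans (pow_le_pow_left₀ (by linarith [ht.1]) ht.2 2)
    calc Zp k t = ‖riemannZeta (cp t)‖ ^ k := rfl
      _ ≤ (T ^ 2) ^ k := pow_le_pow_left₀ (norm_nonneg _) h3 _
      _ = T ^ (2 * k) := by rw [← pow_mul]
  have h2 := intervalIntegral.integral_mono_on (μ := volume) hT ((Zp_cont k).intervalIntegrable _ _)
    (intervalIntegrable_const (c := T ^ (2 * k))) h1
  rw [intervalIntegral.integral_const, smul_eq_mul] at h2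
  refine h2.trans ?_
  rw [Real.rpow_natCast, pow_succ, mul_comm]
  apply mul_le_mul_of_nonneg_left (by linarith) (by positivity)

end Pool.Agent.N30.OD
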