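import Pool.Agent.N30.OD.Ja

set_option autoImplicit false

/-! Moments of zeta twisted by powers of the factor of the functional equation, all exponents. -/

open Complex MeasureTheory Set Filter Topology

namespace Pool.Agent.N30.OD

open Pool.Agent.W188.QS Pool.Agent.N30.MZ
open Pool.Agent.W131.QSJJ (dd dd_nonneg dd_zero dd_cast norm_cp)
open Pool.Agent.W885.QS (norm_zeta_le_two gg_integrable gg_integral gg_pos GG_norm fp_re fp_im fp_cont GG_cont
  zeta_cont zeta_bd bound_int bound_compl pw tail_pt)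

/-- the twisted moment -/
noncomputable def TP (p k N : ℕ) (T Δ : ℝ) : ℂ :=
  ∫ t in (T / 2)..(3 * T / 2), riemannZeta (cp t) ^ p * ((Zk k t : ℝ) : ℂ) * (XX (cp t))⁻¹ ^ N * ((gg T Δ t : ℝ) : ℂ)

/-- the function `ζ^{p+2k} X^{k-N} G` -/
noncomputable def HP (p k N : ℕ) (T Δ : ℝ) (s : ℂ) : ℂ := riemannZeta s ^ p * HH k N T Δ s

/-- lower bound for `XX` to the right of the critical line -/
lemma XX_exp {x y : ℝ} (h1 : 1 / 2 ≤ x) (h2 : x ≤ 4) (h3 : 50 ≤ y) : Real.exp (x - 1 / 2) ≤ ‖XX (⟨x, y⟩ : ℂ)‖ := by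
  obtain ⟨-, hX, -, -, -, -, -, hld, -, -⟩ := a_line
  -- `f σ = exp(2σ - 1) / normSq`
  obtain ⟨F, hF⟩ : ∃ F : ℝ → ℂ, F = fun σ : ℝ => cexp ((σ : ℂ) - 1 / 2) * (XX ((σ : ℂ) + y * I))⁻¹ := ⟨_, rfl⟩
  have hder : ∀ σ : ℝ, 0 < σ → HasDerivAt F (F σ * (1 - logDeriv XX (σ + y * I))) σ := by
    intro σ hσ
    obtain ⟨q1, q2, -⟩ := Pool.Agent.W22.QS.qs_basic (σ + y * I) (by simp; linarith)
    have h4 : HasDerivAt (fun s : ℂ => cexp (s - 1 / 2) * (XX (s + y * I))⁻¹)
        (cexp (σ - 1 / 2) * (XX (σ + y * I))⁻¹ * (1 - logDeriv XX (σ + y * I))) (σ : ℂ) := by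
      have h5 : HasDerivAt (fun s : ℂ => XX (s + y * I)) (deriv XX (σ + y * I)) (σ : ℂ) :=
        q1.hasDerivAt.comp_add_const (σ : ℂ) (y * I)
      have h6 := ((hasDerivAt_id (σ : ℂ)).sub_const (1 / 2)).cexp.mul (h5.inv q2)
      refine h6.congr_deriv ?_
      simp only [id_eq, logDeriv_apply, Pi.inv_apply]
      field_simp
      ring
    have := h4.comp_ofReal
    rw [hF]
    exact this
  have hsq : ∀ σ : ℝ, 0 < σ → HasDerivAt (fun σ => ‖F σ‖ ^ 2) (2 * ‖F σ‖ ^ 2 * (1 - logDeriv XX (σ + y * I)).re) σ := by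
    intro σ hσ
    have h4 := (hder σ hσ)
    have h5 : HasDerivAt (fun σ => ‖F σ‖ ^ 2) (2 * inner ℝ (F σ) (F σ * (1 - logDeriv XX (σ + y * I)))) σ := h4.norm_sq
    refine h5.congr_deriv ?_
    have e : inner ℝ (F σ) (F σ * (1 - logDeriv XX (σ + y * I))) = ‖F σ‖ ^ 2 * (1 - logDeriv XX (σ + y * I)).re := by
      rw [Complex.inner, ← Complex.normSq_eq_norm_sq, ← Complex.re_ofReal_mul, Complex.normSq_eq_conj_mul_self]
      congr 1
      ring
    rw [e]
    ring
  have hanti : AntitoneOn (fun σ => ‖F σ‖ ^ 2) (Icc (1 / 2) 4) := by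
    apply antitoneOn_of_deriv_nonpos (convex_Icc _ _)
    · intro σ hσ
      exact (hsq σ (by linarith [hσ.1])).continuousAt.continuousWithinAt
    · intro σ hσ
      rw [interior_Icc] at hσ
      exact (hsq σ (by linarith [hσ.1])).differentiableAt.differentiableWithinAt
    · intro σ hσ
      rw [interior_Icc] at hσ
      rw [(hsq σ (by linarith [hσ.1])).deriv]
      have h4 := hld (σ + y * I) (by simp; linarith [hσ.1]) (by simp; linarith [hσ.2]) (by simp; linarith)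
      have him : ((σ : ℂ) + y * I).im = y := by simp
      rw [him] at h4
      have h5 : Real.log (y / (2 * Real.pi)) - 14 / y ≤ (logDeriv XX (σ + y * I)).re := by
        have h6 := (Complex.abs_re_le_norm _).trans h4
        rw [Complex.sub_re, Complex.ofReal_re] at h6
        have := (abs_le.1 h6).1
        linarith
      have h6 : 1 ≤ Real.log (y / (2 * Real.pi)) - 14 / y := by
        have h7 : 14 / y ≤ 0.28 := by
          rw [div_le_iff₀ (by linarith)]
          linarith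
        have h8 : 1.5 ≤ Real.log (y / (2 * Real.pi)) := by
          rw [Real.le_log_iff_exp_le (by positivity)]
          have h9 : Real.exp 1.5 ≤ 5 := by
            have h10 := Real.exp_one_lt_d9
            have h11 : Real.exp 1.5 ^ 2 = Real.exp 1 ^ 3 := by
              rw [← Real.exp_nat_mul, ← Real.exp_nat_mul]; norm_num
            have h12 : Real.exp 1 ^ 3 ≤ 2.7182818286 ^ 3 := pow_le_pow_left₀ (Real.exp_pos _).le h10.le 3
            have h13 : Real.exp 1.5 ^ 2 ≤ 5 ^ 2 := by rw [h11]; refine h12.trans (by norm_num)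
            exact (abs_le_of_sq_le_sq' h13 (by norm_num)).2
          refine h9.trans ?_
          rw [le_div_iff₀ (by positivity)]
          have := Real.pi_lt_d2
          linarith
        linarith
      have h7 : (1 - logDeriv XX (σ + y * I)).re ≤ 0 := by
        rw [Complex.sub_re, Complex.one_re]; linarith
      exact mul_nonpos_of_nonneg_of_nonpos (by positivity) h7
  have h4 := hanti (left_mem_Icc.2 (by norm_num)) ⟨h1, h2⟩ h1
  simp only at h4
  have e1 : ‖F (1 / 2)‖ = 1 := by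
    rw [hF]
    simp only
    have : (((1 / 2 : ℝ) : ℂ) + y * I) = cp y := by unfold cp; push_cast; ring
    rw [this, norm_mul, norm_inv, hX, Complex.norm_exp]
    simp
  rw [e1] at h4
  have h5 : ‖F x‖ ≤ 1 := by
    have h6 : 0 ≤ ‖F x‖ := norm_nonneg _
    nlinarith
  rw [hF] at h5
  simp only at h5
  have e2 : ((x : ℂ) + y * I) = (⟨x, y⟩ : ℂ) := by apply Complex.ext <;> simp
  rw [e2, norm_mul, norm_inv, Complex.norm_exp] at h5
  have e3 : ((x : ℂ) - 1 / 2).re = x - 1 / 2 := by simp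
  rw [e3] at h5
  have hpos : 0 < ‖XX (⟨x, y⟩ : ℂ)‖ := by
    have := XX_ge_one (s := (⟨x, y⟩ : ℂ)) h1 h2 h3
    linarith
  rw [← div_eq_mul_inv, div_le_one hpos] at h5
  exact h5

lemma HP_diff (p k N : ℕ) (T Δ : ℝ) {s : ℂ} (hs : 1 ≤ s.im) : DifferentiableAt ℂ (HP p k N T Δ) s := by
  obtain ⟨h1, h2, h3, -⟩ := Pool.Agent.W22.QS.qs_basic s hs
  unfold HP
  exact (h3.pow _).mul (HH_diff k N T Δ hs)

lemma zeta_hor {T x y : ℝ} (hT : 100 ≤ T) (hx1 : 1 / 2 ≤ x) (hx2 : x ≤ 4) (hy1 : 1 ≤ y) (hy2 : y ≤ 2 * T) :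
    ‖riemannZeta (⟨x, y⟩ : ℂ)‖ ≤ T ^ 2 := by
  have h1 := Pool.Agent.H388LH.zeta_growth (s := (⟨x, y⟩ : ℂ)) (by simp only; linarith)
    (by simpa using hy1)
  have h2 : ‖(⟨x, y⟩ : ℂ)‖ ≤ |x| + |y| := Complex.norm_le_abs_re_add_abs_im _
  rw [abs_of_nonneg (by linarith), abs_of_nonneg (by linarith)] at h2
  nlinarith

/-- shift of the line of integration, with a gain of `1 / (N + 1)` on the horizontal sides -/
theorem shiftp (p k : ℕ) (A : ℝ) : ∃ B T₀ : ℝ, 1 ≤ B ∧ 100 ≤ T₀ ∧ ∀ T Δ : ℝ, T₀ ≤ T → 1 ≤ Δ →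
    B * Δ * √(Real.log T) ≤ T → ∀ N : ℕ,
    ‖TP p k N T Δ - ∫ t in (T / 2)..(3 * T / 2), HP p k N T Δ (fp t)‖ ≤ 7 * T ^ (-A) / (N + 1) := by
  obtain ⟨B, T₀, hB, hT₀, hE⟩ := Pool.Agent.W723.QS.qs_edge a_line k (A + 2 * p)
  refine ⟨B, T₀, hB, hT₀, fun T Δ hT hΔ hBT N => ?_⟩
  have hT100 : 100 ≤ T := hT₀.trans hT
  have hT0 : 0 < T := by linarith
  have hEd := hE T Δ hT hΔ hBT
  have hab : T / 2 ≤ 3 * T / 2 := by linarith
  have hrect := Complex.integral_boundary_rect_eq_zero_of_differentiableOn (HP p k N T Δ) (⟨1 / 2, T / 2⟩ : ℂ)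
    (⟨4, 3 * T / 2⟩ : ℂ) (by
      intro s hs
      rw [mem_reProdIm] at hs
      simp only at hs
      have him : s.im ∈ Icc (T / 2) (3 * T / 2) := by rw [← uIcc_of_le hab]; exact hs.2
      exact (HP_diff p k N T Δ (by linarith [him.1])).differentiableWithinAt)
  simp only [smul_eq_mul] at hrect
  have e1 : ∫ y : ℝ in (T / 2)..(3 * T / 2), HP p k N T Δ (((1 / 2 : ℝ) : ℂ) + y * I) = TP p k N T Δ := by
    unfold TP
    apply intervalIntegral.integral_congr
    intro t ht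
    rw [uIcc_of_le hab] at ht
    have ht1 : 1 ≤ t := by linarith [ht.1]
    have e : (((1 / 2 : ℝ) : ℂ) + t * I) = cp t := by unfold cp; push_cast; ring
    simp only
    rw [e]
    unfold HP HH
    rw [a_line.2.2.2.1 t ht1 k, a_line.2.2.2.2.1 T Δ t]
    ring
  have e2 : ∫ y : ℝ in (T / 2)..(3 * T / 2), HP p k N T Δ (((4 : ℝ) : ℂ) + y * I) =
      ∫ t in (T / 2)..(3 * T / 2), HP p k N T Δ (fp t) := by
    apply intervalIntegral.integral_congr
    intro t _
    simp only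
    unfold fp
    push_cast
    rfl
  rw [e1, e2] at hrect
  have hN0 : (0 : ℝ) < (N : ℝ) + 1 := by positivity
  -- horizontal sides
  have hhor : ∀ y : ℝ, (y = T / 2 ∨ y = 3 * T / 2) →
      ‖∫ x : ℝ in (1 / 2 : ℝ)..4, HP p k N T Δ ((x : ℂ) + (y : ℂ) * I)‖ ≤ 7 / 2 * T ^ (-A) / (N + 1) := by
    intro y hy
    have hy50 : 50 ≤ y := by rcases hy with h | h <;> rw [h] <;> linarith
    have hy2 : y ≤ 2 * T := by rcases hy with h | h <;> rw [h] <;> linarith
    have hb : ∀ x ∈ Icc (1 / 2 : ℝ) 4, ‖HP p k N T Δ ((x : ℂ) + (y : ℂ) * I)‖ ≤ T ^ (-A) * Real.exp (-(N * (x - 1 / 2))) := by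
      intro x hx
      have e : ((x : ℂ) + (y : ℂ) * I) = (⟨x, y⟩ : ℂ) := by apply Complex.ext <;> simp
      rw [e]
      unfold HP HH
      have h1 : ‖FF k (⟨x, y⟩ : ℂ) * GG T Δ (⟨x, y⟩ : ℂ)‖ ≤ T ^ (-(A + 2 * p)) := by
        apply hEd y _ x hx.1 hx.2
        rcases hy with h | h
        · left; rw [h]; simp
        · right; rw [h]; simp
      have h2 : Real.exp (x - 1 / 2) ≤ ‖XX (⟨x, y⟩ : ℂ)‖ := XX_exp hx.1 hx.2 hy50
      have h3 : ‖(XX (⟨x, y⟩ : ℂ))⁻¹ ^ N‖ ≤ Real.exp (-(N * (x - 1 / 2))) := by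
        rw [norm_pow, norm_inv]
        calc ‖XX (⟨x, y⟩ : ℂ)‖⁻¹ ^ N ≤ (Real.exp (x - 1 / 2))⁻¹ ^ N :=
              pow_le_pow_left₀ (by positivity) (inv_anti₀ (Real.exp_pos _) h2) N
          _ = _ := by
              rw [← Real.exp_neg, ← Real.exp_nat_mul]
              congr 1
              ring
      have h4 : ‖riemannZeta (⟨x, y⟩ : ℂ) ^ p‖ ≤ T ^ (2 * (p : ℝ)) := by
        rw [norm_pow]
        calc _ ≤ (T ^ 2) ^ p := pow_le_pow_left₀ (norm_nonneg _) (zeta_hor hT100 hx.1 hx.2 (by linarith) hy2) p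
          _ = _ := by
              rw [← pow_mul, ← Real.rpow_natCast]
              push_cast
              rfl
      rw [mul_right_comm (FF k _), norm_mul, norm_mul]
      calc _ ≤ T ^ (2 * (p : ℝ)) * (T ^ (-(A + 2 * p)) * Real.exp (-(N * (x - 1 / 2)))) :=
            mul_le_mul h4 (mul_le_mul h1 h3 (norm_nonneg _) (by positivity)) (by positivity) (by positivity)
        _ = _ := by
            rw [← mul_assoc, ← Real.rpow_add hT0]
            congr 2
            ring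
    have h5 : ∫ x : ℝ in (1 / 2 : ℝ)..4, Real.exp (-(N * (x - 1 / 2))) ≤ 7 / 2 / (N + 1) := by
      rcases Nat.eq_zero_or_pos N with h | h
      · rw [h]
        simp only [Nat.cast_zero, zero_mul, neg_zero, Real.exp_zero, intervalIntegral.integral_const, smul_eq_mul]
        norm_num
      · have hN : (1 : ℝ) ≤ N := by exact_mod_cast h
        have hprim : ∀ x : ℝ, HasDerivAt (fun x : ℝ => -(Real.exp (-(N * (x - 1 / 2))) / N)) (Real.exp (-(N * (x - 1 / 2)))) x := by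
          intro x
          have h6 : HasDerivAt (fun x : ℝ => -((N : ℝ) * (x - 1 / 2))) (-N) x := by
            have := ((hasDerivAt_id x).sub_const (1 / 2)).const_mul (-(N : ℝ))
            simpa only [neg_mul, id_eq, mul_one] using this
          have h7 := (h6.exp.div_const (N : ℝ)).neg
          refine h7.congr_deriv ?_
          field_simp
        rw [intervalIntegral.integral_eq_sub_of_hasDerivAt (fun x _ => hprim x)
          ((by fun_prop : Continuous fun x : ℝ => Real.exp (-(N * (x - 1 / 2)))).intervalIntegrable _ _)]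
        have h8 : 0 ≤ Real.exp (-((N : ℝ) * (4 - 1 / 2))) / N := by positivity
        have e9 : Real.exp (-((N : ℝ) * (1 / 2 - 1 / 2))) / N = 1 / N := by norm_num
        rw [e9]
        have h9 : 1 / (N : ℝ) ≤ 7 / 2 / (N + 1) := by
          rw [div_le_div_iff₀ (by positivity) (by positivity)]
          linarith
        linarith
    calc _ ≤ ∫ x : ℝ in (1 / 2 : ℝ)..4, T ^ (-A) * Real.exp (-(N * (x - 1 / 2))) := by
          apply intervalIntegral.norm_integral_le_of_norm_le (by norm_num)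
          · exact Eventually.of_forall fun x hx => hb x ⟨hx.1.le, hx.2⟩
          · exact (by fun_prop : Continuous fun x : ℝ => T ^ (-A) * Real.exp (-(N * (x - 1 / 2)))).intervalIntegrable _ _
      _ = T ^ (-A) * ∫ x : ℝ in (1 / 2 : ℝ)..4, Real.exp (-(N * (x - 1 / 2))) := by
          rw [intervalIntegral.integral_const_mul]
      _ ≤ T ^ (-A) * (7 / 2 / (N + 1)) := mul_le_mul_of_nonneg_left h5 (by positivity)
      _ = _ := by ring
  have h1 := hhor (T / 2) (Or.inl rfl)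
  have h2 := hhor (3 * T / 2) (Or.inr rfl)
  obtain ⟨a1, ha1⟩ : ∃ a1, a1 = ∫ x : ℝ in (1 / 2 : ℝ)..4, HP p k N T Δ ((x : ℂ) + ((T / 2 : ℝ) : ℂ) * I) := ⟨_, rfl⟩
  obtain ⟨a2, ha2⟩ : ∃ a2, a2 = ∫ x : ℝ in (1 / 2 : ℝ)..4, HP p k N T Δ ((x : ℂ) + ((3 * T / 2 : ℝ) : ℂ) * I) := ⟨_, rfl⟩
  rw [← ha1] at h1
  rw [← ha2] at h2
  rw [← ha1, ← ha2] at hrect
  obtain ⟨W, hW⟩ : ∃ W, W = ∫ t in (T / 2)..(3 * T / 2), HP p k N T Δ (fp t) := ⟨_, rfl⟩
  rw [← hW] at hrect ⊢
  have h3 : I * (TP p k N T Δ - W) = a1 - a2 := by linear_combination -hrect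
  have h4 : ‖TP p k N T Δ - W‖ = ‖a1 - a2‖ := by
    rw [← h3, norm_mul, norm_I, one_mul]
  rw [h4]
  refine (norm_sub_le _ _).trans ((add_le_add h1 h2).trans (le_of_eq ?_))
  ring

end Pool.Agent.N30.OD
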