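import Pool.Agent.N30.OD.Tp

set_option autoImplicit false

/-! Values of the twisted moments, all exponents. -/

open Complex MeasureTheory Set Filter Topology

namespace Pool.Agent.N30.OD

open Pool.Agent.W188.QS Pool.Agent.N30.MZ
open Pool.Agent.W131.QSJJ (dd dd_nonneg dd_zero dd_cast norm_cp)
open Pool.Agent.W885.QS (norm_zeta_le_two gg_integrable gg_integral gg_pos GG_norm fp_re fp_im fp_cont GG_cont
  zeta_cont zeta_bd bound_int bound_compl pw tail_pt)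

lemma zeta_pow_bd (j : ℕ) (t : ℝ) : ‖riemannZeta (fp t)‖ ^ j ≤ 2 ^ j :=
  pow_le_pow_left₀ (norm_nonneg _) (zeta_bd t) _

/-- `N ≥ k + 1`: negligible, with a gain of `1 / (N + 1)` -/
theorem tp_big (p k : ℕ) : ∃ C B T₀ : ℝ, 0 ≤ C ∧ 1 ≤ B ∧ 100 ≤ T₀ ∧ ∀ T Δ : ℝ, T₀ ≤ T → 1 ≤ Δ →
    B * Δ * √(Real.log T) ≤ T → ∀ N : ℕ, k + 1 ≤ N → ‖TP p k N T Δ‖ ≤ C * T ^ (-(2 : ℝ)) / (N + 1) := by
  obtain ⟨B, T₀, hB, hT₀, hs⟩ := shiftp p k 3
  obtain ⟨-, -, -, -, -, -, -, -, ⟨K, hK0, hK⟩, -⟩ := a_line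
  obtain ⟨E, hE⟩ : ∃ E, E = Real.exp (49 / 4) := ⟨_, rfl⟩
  have hE0 : 0 < E := by rw [hE]; exact Real.exp_pos _
  obtain ⟨M, hM⟩ : ∃ M, M = 2 ^ (p + 2 * k) * (Real.exp K * 2 ^ (7 / 2 : ℝ)) * E := ⟨_, rfl⟩
  have hM0 : 0 < M := by rw [hM]; positivity
  refine ⟨7 + M * (√Real.pi) * (k + 2), B, T₀, by positivity, hB, hT₀, fun T Δ hT hΔ hBT N hN => ?_⟩
  have hT100 : 100 ≤ T := hT₀.trans hT
  have hT0 : 0 < T := by linarith
  have h1 := hs T Δ hT hΔ hBT N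
  have hL1 : 1 ≤ Real.log T := by
    rw [Real.le_log_iff_exp_le hT0]
    have := Real.exp_one_lt_d9
    linarith
  have hΔT : Δ ≤ T := by
    have h2 : 1 ≤ √(Real.log T) := by rw [Real.one_le_sqrt]; exact hL1
    have h3 : 1 * Δ * 1 ≤ B * Δ * √(Real.log T) := by
      apply mul_le_mul (mul_le_mul_of_nonneg_right hB (by linarith)) h2 (by norm_num) (by positivity)
    linarith
  have hN0 : (0 : ℝ) < (N : ℝ) + 1 := by positivity
  have hk0 : (0 : ℝ) < (k : ℝ) + 2 := by positivity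
  obtain ⟨q, hq⟩ : ∃ q : ℝ, q = (k + 2) / (N + 1) := ⟨_, rfl⟩
  have hq0 : 0 < q := by rw [hq]; positivity
  have h2 : ‖∫ t in (T / 2)..(3 * T / 2), HP p k N T Δ (fp t)‖ ≤ (M * T ^ (-(7 / 2 : ℝ)) * q) * (√Real.pi * Δ) := by
    apply bound_int _ _ _ T Δ _ (by linarith) (by linarith) (by positivity)
    intro t ht
    have ht1 : 50 ≤ t := by linarith [ht.1]
    have hXe : Real.exp (7 / 2) ≤ ‖XX (fp t)‖ := by
      have := XX_exp (x := 4) (y := t) (by norm_num) le_rfl ht1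
      rw [fp_mk] at this
      norm_num at this ⊢
      exact this
    have hX1 : 1 ≤ ‖XX (fp t)‖ := le_trans (Real.one_le_exp (by norm_num)) hXe
    have hX2 : Real.exp (-K) * t ^ (7 / 2 : ℝ) ≤ ‖XX (fp t)‖ := by
      have := (hK (fp t) (by rw [fp_re]; norm_num) (by rw [fp_re]) (by rw [fp_im]; linarith)).1
      rw [fp_re, fp_im] at this
      norm_num at this
      norm_num
      exact this
    unfold HP HH FF
    rw [norm_mul, norm_mul, norm_mul, norm_mul, norm_pow, norm_pow, norm_pow, norm_pow, norm_inv]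
    have h3 : ‖riemannZeta (fp t)‖ ^ p * ‖riemannZeta (fp t)‖ ^ (2 * k) ≤ 2 ^ (p + 2 * k) := by
      rw [← pow_add]; exact zeta_pow_bd _ t
    have h4 : ‖XX (fp t)‖ ^ k * ‖XX (fp t)‖⁻¹ ^ N ≤ (Real.exp K * 2 ^ (7 / 2 : ℝ)) * T ^ (-(7 / 2 : ℝ)) * q := by
      obtain ⟨d, hd⟩ := Nat.exists_eq_add_of_le hN
      have e : ‖XX (fp t)‖ ^ k * ‖XX (fp t)‖⁻¹ ^ N = ‖XX (fp t)‖⁻¹ * ‖XX (fp t)‖⁻¹ ^ d := by
        rw [hd, pow_add, pow_add, pow_one]
        calc ‖XX (fp t)‖ ^ k * (‖XX (fp t)‖⁻¹ ^ k * ‖XX (fp t)‖⁻¹ * ‖XX (fp t)‖⁻¹ ^ d) =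
            (‖XX (fp t)‖ * ‖XX (fp t)‖⁻¹) ^ k * ‖XX (fp t)‖⁻¹ * ‖XX (fp t)‖⁻¹ ^ d := by rw [mul_pow]; ring
          _ = _ := by rw [mul_inv_cancel₀ (by positivity), one_pow, one_mul]
      have h5 : ‖XX (fp t)‖⁻¹ ^ d ≤ q := by
        have h6 : ‖XX (fp t)‖⁻¹ ^ d ≤ (Real.exp (7 / 2))⁻¹ ^ d :=
          pow_le_pow_left₀ (by positivity) (inv_anti₀ (Real.exp_pos _) hXe) d
        have h7 : (Real.exp (7 / 2))⁻¹ ^ d ≤ 1 / ((d : ℝ) + 1) := by
          rw [inv_pow, ← Real.exp_nat_mul, inv_eq_one_div]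
          apply one_div_le_one_div_of_le (by positivity)
          have := Real.add_one_le_exp ((d : ℝ) * (7 / 2))
          have hd0 : (0 : ℝ) ≤ d := Nat.cast_nonneg d
          linarith
        refine h6.trans (h7.trans ?_)
        rw [hq, div_le_div_iff₀ (by positivity) hN0, hd]
        push_cast
        have hd0 : (0 : ℝ) ≤ d := Nat.cast_nonneg d
        have hk0 : (0 : ℝ) ≤ k := Nat.cast_nonneg k
        nlinarith
      have h8 : ‖XX (fp t)‖⁻¹ ≤ (Real.exp K * 2 ^ (7 / 2 : ℝ)) * T ^ (-(7 / 2 : ℝ)) := by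
        have h6 : 0 < Real.exp (-K) * t ^ (7 / 2 : ℝ) := by positivity
        refine (inv_anti₀ h6 hX2).trans ?_
        rw [mul_inv, Real.exp_neg, inv_inv, mul_assoc]
        apply mul_le_mul_of_nonneg_left _ (Real.exp_pos _).le
        rw [← Real.rpow_neg (by linarith)]
        have h7 : t ^ (-(7 / 2 : ℝ)) ≤ (T / 2) ^ (-(7 / 2 : ℝ)) := by
          rw [Real.rpow_neg (by linarith), Real.rpow_neg (by positivity)]
          apply inv_anti₀ (by positivity)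
          exact Real.rpow_le_rpow (by positivity) ht.1 (by norm_num)
        refine h7.trans ?_
        rw [Real.div_rpow hT0.le (by norm_num), Real.rpow_neg (by norm_num : (0:ℝ) ≤ 2), div_inv_eq_mul, mul_comm]
      rw [e]
      exact mul_le_mul h8 h5 (by positivity) (by positivity)
    have h5 := GG_norm T Δ t hΔ
    rw [← hE] at h5
    calc ‖riemannZeta (fp t)‖ ^ p * (‖riemannZeta (fp t)‖ ^ (2 * k) * ‖XX (fp t)‖ ^ k * ‖XX (fp t)‖⁻¹ ^ N * ‖GG T Δ (fp t)‖) =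
        (‖riemannZeta (fp t)‖ ^ p * ‖riemannZeta (fp t)‖ ^ (2 * k)) * (‖XX (fp t)‖ ^ k * ‖XX (fp t)‖⁻¹ ^ N) * ‖GG T Δ (fp t)‖ := by ring
      _ ≤ 2 ^ (p + 2 * k) * ((Real.exp K * 2 ^ (7 / 2 : ℝ)) * T ^ (-(7 / 2 : ℝ)) * q) * (E * gg T Δ t) := by
          apply mul_le_mul (mul_le_mul h3 h4 (by positivity) (by positivity)) h5 (norm_nonneg _) (by positivity)
      _ = _ := by rw [hM]; ring
  have h3 : ‖TP p k N T Δ‖ ≤ 7 * T ^ (-(3 : ℝ)) / (N + 1) + (M * T ^ (-(7 / 2 : ℝ)) * q) * (√Real.pi * Δ) := by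
    have e : TP p k N T Δ = (TP p k N T Δ - ∫ t in (T / 2)..(3 * T / 2), HP p k N T Δ (fp t)) +
        ∫ t in (T / 2)..(3 * T / 2), HP p k N T Δ (fp t) := by ring
    rw [e]
    exact (norm_add_le _ _).trans (add_le_add h1 h2)
  refine h3.trans ?_
  have h4 : T ^ (-(3 : ℝ)) ≤ T ^ (-(2 : ℝ)) := Real.rpow_le_rpow_of_exponent_le (by linarith) (by norm_num)
  have h5 : T ^ (-(7 / 2 : ℝ)) * Δ ≤ T ^ (-(2 : ℝ)) := by
    calc T ^ (-(7 / 2 : ℝ)) * Δ ≤ T ^ (-(7 / 2 : ℝ)) * T ^ (1 : ℝ) := by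
          apply mul_le_mul_of_nonneg_left _ (by positivity)
          rw [Real.rpow_one]; exact hΔT
      _ = T ^ (-(5 / 2 : ℝ)) := by rw [← Real.rpow_add hT0]; norm_num
      _ ≤ _ := Real.rpow_le_rpow_of_exponent_le (by linarith) (by norm_num)
  calc 7 * T ^ (-(3 : ℝ)) / (N + 1) + (M * T ^ (-(7 / 2 : ℝ)) * q) * (√Real.pi * Δ) =
      7 * T ^ (-(3 : ℝ)) / (N + 1) + M * √Real.pi * q * (T ^ (-(7 / 2 : ℝ)) * Δ) := by ring
    _ ≤ 7 * T ^ (-(2 : ℝ)) / (N + 1) + M * √Real.pi * q * T ^ (-(2 : ℝ)) := by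
        apply add_le_add
        · apply div_le_div_of_nonneg_right _ hN0.le
          linarith
        · exact mul_le_mul_of_nonneg_left h5 (by positivity)
    _ = _ := by rw [hq]; field_simp

/-- `N = k` -/
theorem tp_eq (p k : ℕ) (hpk : 1 ≤ p + 2 * k) : ∃ C B T₀ : ℝ, 0 ≤ C ∧ 1 ≤ B ∧ 100 ≤ T₀ ∧ ∀ T Δ : ℝ, T₀ ≤ T → Real.log T ≤ Δ →
    B * Δ * √(Real.log T) ≤ T → ‖TP p k k T Δ - ((√Real.pi * Δ : ℝ) : ℂ)‖ ≤ C * T ^ (-(2 : ℝ)) := by
  obtain ⟨B1, T1, hB1, hT1, hs⟩ := shiftp p k 3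
  obtain ⟨C2, hC2, h0⟩ := J0g (p + 2 * k) hpk
  obtain ⟨E, hE⟩ : ∃ E, E = Real.exp (49 / 4) := ⟨_, rfl⟩
  have hE0 : 0 < E := by rw [hE]; exact Real.exp_pos _
  obtain ⟨M, hM⟩ : ∃ M, M = 2 ^ (p + 2 * k) * E := ⟨_, rfl⟩
  have hM0 : 0 < M := by rw [hM]; positivity
  refine ⟨7 + C2 + M * (√Real.pi * 2), max B1 20, max T1 (Real.exp 40), by positivity,
    hB1.trans (le_max_left _ _), hT1.trans (le_max_left _ _), fun T Δ hT hΔ hBT => ?_⟩
  have hTT1 : T1 ≤ T := (le_max_left _ _).trans hT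
  have hTe : Real.exp 40 ≤ T := (le_max_right _ _).trans hT
  have hT100 : 100 ≤ T := hT1.trans hTT1
  have hT0 : 0 < T := by linarith
  have hL40 : 40 ≤ Real.log T := by rw [Real.le_log_iff_exp_le hT0]; exact hTe
  have hΔ40 : 40 ≤ Δ := hL40.trans hΔ
  have hΔ0 : 0 < Δ := by linarith
  have hBB : ∀ b : ℝ, b ≤ max B1 20 → b * Δ * √(Real.log T) ≤ T := by
    intro b hb
    refine le_trans ?_ hBT
    apply mul_le_mul_of_nonneg_right _ (Real.sqrt_nonneg _)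
    exact mul_le_mul_of_nonneg_right hb hΔ0.le
  have hB20 := hBB 20 (le_max_right _ _)
  have hΔT : Δ ≤ T := by
    have h2 : 1 ≤ √(Real.log T) := by rw [Real.one_le_sqrt]; linarith
    have h3 : 1 * Δ * 1 ≤ 20 * Δ * √(Real.log T) := by
      apply mul_le_mul (mul_le_mul_of_nonneg_right (by norm_num) (by linarith)) h2 (by norm_num) (by positivity)
    linarith
  have h1' := hs T Δ hTT1 (by linarith) (hBB B1 (le_max_left _ _)) k
  have h1 : ‖TP p k k T Δ - ∫ t in (T / 2)..(3 * T / 2), HP p k k T Δ (fp t)‖ ≤ 7 * T ^ (-(3 : ℝ)) := by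
    refine h1'.trans (div_le_self (by positivity) ?_)
    have : (0 : ℝ) ≤ k := Nat.cast_nonneg k
    linarith
  have h2 := h0 T Δ (by linarith) hΔ40 hΔ
  obtain ⟨F, hF⟩ : ∃ F : ℝ → ℂ, F = fun t => riemannZeta (fp t) ^ (p + 2 * k) * GG T Δ (fp t) := ⟨_, rfl⟩
  have e1 : ∫ t in (T / 2)..(3 * T / 2), HP p k k T Δ (fp t) = ∫ t in (T / 2)..(3 * T / 2), F t := by
    apply intervalIntegral.integral_congr
    intro t ht
    rw [uIcc_of_le (by linarith)] at ht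
    have ht1 : 50 ≤ t := by linarith [ht.1]
    have hX1 : 1 ≤ ‖XX (fp t)‖ := XX_ge_one (by rw [fp_re]; norm_num) (by rw [fp_re]) (by rw [fp_im]; exact ht1)
    have hx0 : XX (fp t) ≠ 0 := by
      intro h
      rw [h, norm_zero] at hX1
      linarith
    simp only
    rw [hF]
    unfold HP HH FF
    have e : XX (fp t) ^ k * (XX (fp t))⁻¹ ^ k = 1 := by
      rw [← mul_pow, mul_inv_cancel₀ hx0, one_pow]
    simp only
    rw [mul_assoc (riemannZeta (fp t) ^ (2 * k)), e, mul_one, pow_add]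
    ring
  have hFc : Continuous F := by
    rw [hF]
    exact (zeta_cont.pow _).mul (GG_cont T Δ)
  have hFb : ∀ t, ‖F t‖ ≤ M * gg T Δ t := by
    intro t
    rw [hF]
    simp only
    rw [norm_mul, norm_pow]
    have h3 := zeta_pow_bd (p + 2 * k) t
    have h5 := GG_norm T Δ t (by linarith)
    rw [← hE] at h5
    calc _ ≤ 2 ^ (p + 2 * k) * (E * gg T Δ t) := mul_le_mul h3 h5 (norm_nonneg _) (by positivity)
      _ = _ := by rw [hM]; ring
  have hFi : Integrable F := by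
    refine Integrable.mono' ((gg_integrable T Δ hΔ0).const_mul M) hFc.aestronglyMeasurable ?_
    exact Eventually.of_forall hFb
  have htail : ‖∫ t in (Ioc (T / 2) (3 * T / 2))ᶜ, F t‖ ≤ (M * T ^ (-(3 : ℝ))) * (√Real.pi * (2 * Δ)) := by
    apply bound_compl _ _ _ T (2 * Δ) _ (by linarith) (by positivity)
    intro t ht
    have h3 : T / 4 ≤ |t - T| := by
      rw [mem_Ioc, not_and_or, not_lt, not_le] at ht
      rcases ht with h | h
      · rw [abs_of_nonpos (by linarith)]; linarith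
      · rw [abs_of_nonneg (by linarith)]; linarith
    have h4 := gg_far (T := T) (Δ := Δ) (t := t) (by linarith) (by linarith) (by linarith) hB20 h3
    calc ‖F t‖ ≤ _ := hFb t
      _ ≤ M * (T ^ (-(3 : ℝ)) * gg T (2 * Δ) t) := mul_le_mul_of_nonneg_left h4 hM0.le
      _ = _ := by ring
  have hsplit : (∫ t : ℝ, F t) = (∫ t in (T / 2)..(3 * T / 2), F t) + ∫ t in (Ioc (T / 2) (3 * T / 2))ᶜ, F t := by
    rw [intervalIntegral.integral_of_le (by linarith)]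
    exact (integral_add_compl measurableSet_Ioc hFi).symm
  rw [e1] at h1
  have hJ' : (∫ t : ℝ, riemannZeta (fp t) ^ (p + 2 * k) * GG T Δ (fp t)) = ∫ t : ℝ, F t := by rw [hF]
  rw [hJ', hsplit] at h2
  obtain ⟨W, hW⟩ : ∃ W, W = ∫ t in (T / 2)..(3 * T / 2), F t := ⟨_, rfl⟩
  obtain ⟨V, hV⟩ : ∃ V, V = ∫ t in (Ioc (T / 2) (3 * T / 2))ᶜ, F t := ⟨_, rfl⟩
  rw [← hW] at h1
  rw [← hW, ← hV] at h2
  rw [← hV] at htail
  have e3 : TP p k k T Δ - ((√Real.pi * Δ : ℝ) : ℂ) = (TP p k k T Δ - W) + (W + V - ((√Real.pi * Δ : ℝ) : ℂ)) - V := by ring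
  rw [e3]
  refine (norm_sub_le _ _).trans ((add_le_add ((norm_add_le _ _).trans (add_le_add h1 h2)) htail).trans ?_)
  have p1 : T ^ (-(3 : ℝ)) ≤ T ^ (-(2 : ℝ)) := Real.rpow_le_rpow_of_exponent_le (by linarith) (by norm_num)
  have p2 : Δ * T ^ (-(3 : ℝ)) ≤ T ^ (-(2 : ℝ)) := by
    calc Δ * T ^ (-(3 : ℝ)) ≤ T ^ (1 : ℝ) * T ^ (-(3 : ℝ)) := by
          apply mul_le_mul_of_nonneg_right _ (by positivity)
          rw [Real.rpow_one]; exact hΔT
      _ = _ := by rw [← Real.rpow_add hT0]; norm_num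
  have p3 : Δ * T ^ (-(4 : ℝ)) ≤ T ^ (-(2 : ℝ)) := by
    refine le_trans ?_ p2
    apply mul_le_mul_of_nonneg_left _ hΔ0.le
    exact Real.rpow_le_rpow_of_exponent_le (by linarith) (by norm_num)
  calc 7 * T ^ (-(3 : ℝ)) + C2 * (Δ * T ^ (-(4 : ℝ))) + M * T ^ (-(3 : ℝ)) * (√Real.pi * (2 * Δ)) =
      7 * T ^ (-(3 : ℝ)) + C2 * (Δ * T ^ (-(4 : ℝ))) + M * (√Real.pi * 2) * (Δ * T ^ (-(3 : ℝ))) := by ring
    _ ≤ 7 * T ^ (-(2 : ℝ)) + C2 * T ^ (-(2 : ℝ)) + M * (√Real.pi * 2) * T ^ (-(2 : ℝ)) := by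
        apply add_le_add (add_le_add (by linarith) _) _
        · exact mul_le_mul_of_nonneg_left p3 hC2
        · exact mul_le_mul_of_nonneg_left p2 (by positivity)
    _ = _ := by ring

/-- `N = k - 1`: the main case -/
theorem tp_main (p k : ℕ) (hk : 1 ≤ k) : ∃ K δ B T₀ : ℝ, 0 ≤ K ∧ 0 < δ ∧ δ ≤ 1 ∧ 1 ≤ B ∧ 100 ≤ T₀ ∧ ∀ T Δ : ℝ, T₀ ≤ T →
    T ^ (1 - δ) ≤ Δ → B * Δ * √(Real.log T) ≤ T →
    ‖TP p k (k - 1) T Δ - ((√Real.pi * Δ * (Real.log T ^ (p + 2 * k - 1) / ((p + 2 * k - 1).factorial : ℝ)) : ℝ) : ℂ)‖ ≤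
      K * (Δ * Real.log T ^ (p + 2 * k - 2)) := by
  obtain ⟨B1, T1, hB1, hT1, hs⟩ := shiftp p k 3
  obtain ⟨K2, δ2, B2, T2, hK2, hδ2, hB2, hJ⟩ := Jg (p + 2 * k) (by omega)
  obtain ⟨C3, hX3, -⟩ := Pool.Agent.W253.QS.qs_i3
  obtain ⟨E, hE⟩ : ∃ E, E = Real.exp (49 / 4) := ⟨_, rfl⟩
  have hE0 : 0 < E := by rw [hE]; exact Real.exp_pos _
  obtain ⟨M, hM⟩ : ∃ M, M = 2 ^ (p + 2 * k) * |C3| * E * (384 * Real.exp 2) := ⟨_, rfl⟩
  have hM0 : 0 ≤ M := by rw [hM]; positivity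
  refine ⟨7 + K2 + M * (√Real.pi * 2), min δ2 1, max (max B1 B2) 20, max T1 T2, by positivity, lt_min hδ2 one_pos, min_le_right _ _,
    (by norm_num : (1:ℝ) ≤ 20).trans (le_max_right _ _), hT1.trans (le_max_left _ _), fun T Δ hT hΔ hBT => ?_⟩
  have hTT1 : T1 ≤ T := (le_max_left _ _).trans hT
  have hTT2 : T2 ≤ T := (le_max_right _ _).trans hT
  have hT100 : 100 ≤ T := hT1.trans hTT1
  have hT0 : 0 < T := by linarith
  have hΔ1 : 1 ≤ Δ := by
    refine le_trans ?_ hΔ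
    exact Real.one_le_rpow (by linarith) (by linarith [min_le_right δ2 1])
  have hΔ2 : T ^ (1 - δ2) ≤ Δ := by
    refine le_trans ?_ hΔ
    exact Real.rpow_le_rpow_of_exponent_le (by linarith) (by linarith [min_le_left δ2 1])
  have hΔ0 : 0 < Δ := by linarith
  have hBB : ∀ b : ℝ, b ≤ max (max B1 B2) 20 → b * Δ * √(Real.log T) ≤ T := by
    intro b hb
    refine le_trans ?_ hBT
    apply mul_le_mul_of_nonneg_right _ (Real.sqrt_nonneg _)
    exact mul_le_mul_of_nonneg_right hb hΔ0.le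
  have hL1 : 1 ≤ Real.log T := by
    rw [Real.le_log_iff_exp_le hT0]
    have := Real.exp_one_lt_d9
    linarith
  have h1' := hs T Δ hTT1 hΔ1 (hBB B1 ((le_max_left _ _).trans (le_max_left _ _))) (k - 1)
  have h1 : ‖TP p k (k - 1) T Δ - ∫ t in (T / 2)..(3 * T / 2), HP p k (k - 1) T Δ (fp t)‖ ≤ 7 * T ^ (-(3 : ℝ)) := by
    refine h1'.trans (div_le_self (by positivity) ?_)
    have : (0 : ℝ) ≤ ((k - 1 : ℕ) : ℝ) := Nat.cast_nonneg _
    linarith
  have h2 := hJ T Δ hTT2 hΔ2 (hBB B2 ((le_max_right _ _).trans (le_max_left _ _)))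
  -- the function on the line `Re s = 4`
  obtain ⟨F, hF⟩ : ∃ F : ℝ → ℂ, F = fun t => riemannZeta (fp t) ^ (p + 2 * k) * XX (fp t) * GG T Δ (fp t) := ⟨_, rfl⟩
  have e1 : ∫ t in (T / 2)..(3 * T / 2), HP p k (k - 1) T Δ (fp t) = ∫ t in (T / 2)..(3 * T / 2), F t := by
    apply intervalIntegral.integral_congr
    intro t ht
    rw [uIcc_of_le (by linarith)] at ht
    have ht1 : 50 ≤ t := by linarith [ht.1]
    have hX1 : 1 ≤ ‖XX (fp t)‖ := XX_ge_one (by rw [fp_re]; norm_num) (by rw [fp_re]) (by rw [fp_im]; exact ht1)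
    have hx0 : XX (fp t) ≠ 0 := by
      intro h
      rw [h, norm_zero] at hX1
      linarith
    simp only
    rw [hF]
    unfold HP HH FF
    have e : XX (fp t) ^ k * (XX (fp t))⁻¹ ^ (k - 1) = XX (fp t) := by
      obtain ⟨j, rfl⟩ : ∃ j, k = j + 1 := ⟨k - 1, by omega⟩
      rw [Nat.add_sub_cancel, pow_succ, inv_pow]
      field_simp
    simp only
    rw [mul_assoc (riemannZeta (fp t) ^ (2 * k)), e, pow_add]
    ring
  have hXm : Continuous fun t : ℝ => XX (fp t) := by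
    rw [continuous_iff_continuousAt]
    intro t
    have hg : ∀ m : ℕ, fp t ≠ -(m : ℂ) := by
      intro m h
      have := congrArg Complex.re h
      rw [fp_re] at this
      simp at this
      have h2 : (0:ℝ) ≤ m := Nat.cast_nonneg m
      linarith
    have h1 : ContinuousAt XX (fp t) := by
      unfold XX
      have h3 : ContinuousAt Complex.Gamma (fp t) := (Complex.differentiableAt_Gamma _ hg).continuousAt
      have h4 : ContinuousAt (fun s : ℂ => (2 * (Real.pi : ℂ)) ^ (-s)) (fp t) := by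
        apply ContinuousAt.const_cpow
        · fun_prop
        · left
          have := Real.pi_ne_zero
          simp [this]
      fun_prop
    exact ContinuousAt.comp (f := fp) h1 fp_cont.continuousAt
  have hFc : Continuous F := by
    rw [hF]
    exact ((zeta_cont.pow _).mul hXm).mul (GG_cont T Δ)
  have hFb : ∀ t, ‖F t‖ ≤ 2 ^ (p + 2 * k) * |C3| * E * ((1 + |t|) ^ 4 * gg T Δ t) := by
    intro t
    rw [hF]
    simp only
    rw [norm_mul, norm_mul, norm_pow]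
    have h3 := zeta_pow_bd (p + 2 * k) t
    have h4 : ‖XX (fp t)‖ ≤ |C3| * (1 + |t|) ^ 4 := (hX3 t).trans (mul_le_mul_of_nonneg_right (le_abs_self _) (by positivity))
    have h5 := GG_norm T Δ t hΔ1
    rw [← hE] at h5
    calc _ ≤ 2 ^ (p + 2 * k) * (|C3| * (1 + |t|) ^ 4) * (E * gg T Δ t) :=
          mul_le_mul (mul_le_mul h3 h4 (norm_nonneg _) (by positivity)) h5 (norm_nonneg _) (by positivity)
      _ = _ := by ring
  have htailp : ∀ t ∉ Ioc (T / 2) (3 * T / 2), ‖F t‖ ≤ M * gg T (2 * Δ) t := by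
    intro t ht
    have h3 : T / 4 ≤ |t - T| := by
      rw [mem_Ioc, not_and_or, not_lt, not_le] at ht
      rcases ht with h | h
      · rw [abs_of_nonpos (by linarith)]; linarith
      · rw [abs_of_nonneg (by linarith)]; linarith
    have h4 := tail_pt (B := max (max B1 B2) 20) (le_max_right _ _) hL1 (by linarith) hΔ1 hBT h3
    calc ‖F t‖ ≤ _ := hFb t
      _ ≤ 2 ^ (p + 2 * k) * |C3| * E * (384 * Real.exp 2 * gg T (2 * Δ) t) := mul_le_mul_of_nonneg_left h4 (by positivity)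
      _ = _ := by rw [hM]; ring
  have htail : ‖∫ t in (Ioc (T / 2) (3 * T / 2))ᶜ, F t‖ ≤ M * (√Real.pi * (2 * Δ)) :=
    bound_compl _ _ _ T (2 * Δ) _ (by linarith) hM0 htailp
  have hFi : Integrable F := by
    have hon : IntegrableOn F (Ioc (T / 2) (3 * T / 2)) := (hFc.integrableOn_Icc).mono_set Ioc_subset_Icc_self
    have hoff : IntegrableOn F (Ioc (T / 2) (3 * T / 2))ᶜ := by
      refine Integrable.mono' ((gg_integrable T (2 * Δ) (by linarith)).const_mul M).integrableOn hFc.aestronglyMeasurable ?_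
      exact (ae_restrict_iff' measurableSet_Ioc.compl).mpr (Eventually.of_forall fun t ht => htailp t ht)
    have := hon.union hoff
    rwa [union_compl_self, integrableOn_univ] at this
  have hsplit : (∫ t : ℝ, F t) = (∫ t in (T / 2)..(3 * T / 2), F t) + ∫ t in (Ioc (T / 2) (3 * T / 2))ᶜ, F t := by
    rw [intervalIntegral.integral_of_le (by linarith)]
    exact (integral_add_compl measurableSet_Ioc hFi).symm
  have hJ' : (∫ t : ℝ, riemannZeta (fp t) ^ (p + 2 * k) * XX (fp t) * GG T Δ (fp t)) = ∫ t : ℝ, F t := by rw [hF]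
  rw [e1] at h1
  rw [hJ', hsplit] at h2
  obtain ⟨W, hW⟩ : ∃ W, W = ∫ t in (T / 2)..(3 * T / 2), F t := ⟨_, rfl⟩
  obtain ⟨V, hV⟩ : ∃ V, V = ∫ t in (Ioc (T / 2) (3 * T / 2))ᶜ, F t := ⟨_, rfl⟩
  obtain ⟨Q, hQ⟩ : ∃ Q : ℂ, Q = ((√Real.pi * Δ * (Real.log T ^ (p + 2 * k - 1) / ((p + 2 * k - 1).factorial : ℝ)) : ℝ) : ℂ) := ⟨_, rfl⟩
  rw [← hW] at h1
  rw [← hW, ← hV, ← hQ] at h2
  rw [← hV] at htail
  rw [← hQ]
  have e3 : TP p k (k - 1) T Δ - Q = (TP p k (k - 1) T Δ - W) + (W + V - Q) - V := by ring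
  rw [e3]
  refine (norm_sub_le _ _).trans ((add_le_add ((norm_add_le _ _).trans (add_le_add h1 h2)) htail).trans ?_)
  have hLp : 1 ≤ Real.log T ^ (p + 2 * k - 2) := one_le_pow₀ hL1
  have p1 : T ^ (-(3 : ℝ)) ≤ 1 := Real.rpow_le_one_of_one_le_of_nonpos (by linarith) (by norm_num)
  have p2 : Δ ≤ Δ * Real.log T ^ (p + 2 * k - 2) := le_mul_of_one_le_right hΔ0.le hLp
  have p3 : (1 : ℝ) ≤ Δ * Real.log T ^ (p + 2 * k - 2) := hΔ1.trans p2
  calc 7 * T ^ (-(3 : ℝ)) + K2 * (Δ * Real.log T ^ (p + 2 * k - 2)) + M * (√Real.pi * (2 * Δ)) =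
      7 * T ^ (-(3 : ℝ)) + K2 * (Δ * Real.log T ^ (p + 2 * k - 2)) + M * (√Real.pi * 2) * Δ := by ring
    _ ≤ 7 * (Δ * Real.log T ^ (p + 2 * k - 2)) + K2 * (Δ * Real.log T ^ (p + 2 * k - 2)) +
        M * (√Real.pi * 2) * (Δ * Real.log T ^ (p + 2 * k - 2)) := by
        apply add_le_add (add_le_add (by linarith) le_rfl) _
        exact mul_le_mul_of_nonneg_left p2 (by positivity)
    _ = _ := by ring

end Pool.Agent.N30.OD
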